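import Mathlib

/-!
# The skew product

The base is the product of the finite cyclic groups `ZMod (5 * Q s)`, the fibre is `ZMod 5`.
-/

open MeasureTheory Filter Set
open scoped ENNReal

namespace Pool.Agent.Lib.Pb4ed41

/-- the scales -/
def Q : ℕ → ℕ
  | 0 => 1
  | s+1 => Q s * (5 * (s+1)^2)

lemma Q_pos (s : ℕ) : 0 < Q s := by
  induction s with
  | zero => simp [Q]
  | succ s ih => rw [Q]; positivity

lemma five_Q_dvd (s : ℕ) : 5 * Q s ∣ Q (s+1) := ⟨(s+1)^2, by rw [Q]; ring⟩

lemma five_Q_le (s : ℕ) : 5 * Q s ≤ Q (s+1) := Nat.le_of_dvd (Q_pos _) (five_Q_dvd s)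

lemma Q_dvd_of_le {s t : ℕ} (h : s ≤ t) : Q s ∣ Q t := by
  induction t, h using Nat.le_induction with
  | base => exact dvd_rfl
  | succ t _ ih => exact ih.trans ((Dvd.intro_left 5 rfl).trans (five_Q_dvd t))

lemma five_Q_dvd_of_lt {s t : ℕ} (h : s < t) : 5 * Q s ∣ Q t :=
  (five_Q_dvd s).trans (Q_dvd_of_le h)

lemma Q_mono {s t : ℕ} (h : s ≤ t) : Q s ≤ Q t := Nat.le_of_dvd (Q_pos _) (Q_dvd_of_le h)

lemma sum_Q_le (s : ℕ) : ∑ r ∈ Finset.range (s+1), Q r ≤ 2 * Q s := by
  induction s with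
  | zero => simp [Q]
  | succ s ih =>
    rw [Finset.sum_range_succ]
    have := five_Q_le s
    omega

instance (s : ℕ) : NeZero (5 * Q s) := ⟨by have := Q_pos s; omega⟩

/-- the digit function -/
def dig (q : ℕ) (x : ZMod (5 * q)) : ZMod 5 := ((x.val / q : ℕ) : ZMod 5)

lemma dig_add {q : ℕ} [NeZero (5 * q)] (x : ZMod (5 * q)) {lo e h : ℕ} (hlo : x.val % q + lo < q) :
    dig q (x + ((lo + e * q + 5 * q * h : ℕ) : ZMod (5 * q))) = dig q x + (e : ZMod 5) := by
  have hq : 0 < q := by omega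
  have h1 : x + ((lo + e * q + 5 * q * h : ℕ) : ZMod (5 * q)) =
      ((x.val + lo + e * q + 5 * q * h : ℕ) : ZMod (5 * q)) := by
    push_cast
    rw [ZMod.natCast_zmod_val]
    ring
  unfold dig
  rw [h1, ZMod.val_natCast]
  have hmod : ∀ N : ℕ, N % (5 * q) / q = N / q % 5 := by
    intro N
    rw [mul_comm 5 q]
    exact Nat.mod_mul_right_div_self N q 5
  have h2 : (x.val + lo + e * q + 5 * q * h) % (5 * q) / q = ((x.val + lo + e * q + 5 * q * h) / q) % 5 :=
    hmod _
  have h3 : (x.val + lo + e * q + 5 * q * h) / q = x.val / q + (e + 5 * h) := by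
    have h4 : x.val = q * (x.val / q) + x.val % q := (Nat.div_add_mod _ _).symm
    have h5 : x.val + lo + e * q + 5 * q * h = (x.val % q + lo) + q * (x.val / q + (e + 5 * h)) := by
      conv_lhs => rw [h4]
      ring
    rw [h5, Nat.add_mul_div_left _ _ hq, Nat.div_eq_of_lt hlo, zero_add]
  rw [h2, h3, ZMod.natCast_mod]
  push_cast
  have : (5 : ZMod 5) = 0 := by decide
  rw [this]
  ring

/-- base space -/
abbrev KK : Type := ∀ s : ℕ, ZMod (5 * Q s)

/-- the digits of a point -/
def Y (x : KK) (s : ℕ) : ZMod 5 := dig (Q s) (x s)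

/-- the cubic form of level `j` -/
def kap (j : ℕ) (y : ℕ → ZMod 5) : ZMod 5 :=
  ∑ i : Fin j, ∑ l : Fin j, y (j^3 + i) * y (j^3 + j + l) * y (j^3 + 2 * j + (i * j + l))

lemma kap_pos_lt {j : ℕ} (i l : Fin j) :
    j^3 + i < (j+1)^3 ∧ j^3 + j + l < (j+1)^3 ∧ j^3 + 2 * j + (i * j + l) < (j+1)^3 := by
  have hi := i.2
  have hl := l.2
  have h1 : (i:ℕ) * j + l < j * j := by
    have : (i:ℕ) * j + l < (i + 1) * j := by rw [add_mul, one_mul]; omega
    exact this.trans_le (Nat.mul_le_mul_right j hi)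
  have h2 : (j+1)^3 = j^3 + 3 * (j * j) + 3 * j + 1 := by ring
  have h3 : j ≤ j * j := Nat.le_mul_self j
  refine ⟨?_, ?_, ?_⟩ <;> omega

lemma kap_congr {j : ℕ} {y y' : ℕ → ZMod 5} (h : ∀ s, j^3 ≤ s → s < (j+1)^3 → y s = y' s) :
    kap j y = kap j y' := by
  unfold kap
  refine Finset.sum_congr rfl fun i _ => Finset.sum_congr rfl fun l _ => ?_
  obtain ⟨h1, h2, h3⟩ := kap_pos_lt i l
  rw [h _ (by omega) h1, h _ (by omega) h2, h _ (by omega) h3]

/-- the third difference of a cubic form -/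
lemma kap_third (j : ℕ) (y v : ℕ → ZMod 5) :
    kap j y - 3 * kap j (fun s => y s + v s) + 3 * kap j (fun s => y s + 2 * v s)
      - kap j (fun s => y s + 3 * v s) = - kap j v := by
  unfold kap
  simp only [Finset.mul_sum, ← Finset.sum_sub_distrib, ← Finset.sum_add_distrib,
    ← Finset.sum_neg_distrib]
  refine Finset.sum_congr rfl fun i _ => Finset.sum_congr rfl fun l _ => ?_
  have h5 : (5 : ZMod 5) = 0 := by decide
  linear_combination (-(v (j^3 + i) * v (j^3 + j + l) * v (j^3 + 2 * j + (i * j + l)))) * h5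

/-- the `n`-th translate -/
lemma add_nat_apply (x : KK) (n s : ℕ) : (x + (n : KK)) s = x s + (n : ZMod (5 * Q s)) := by
  rw [Pi.add_apply, Pi.natCast_apply]

/-- goodness: no carries beyond level `j` -/
def good (j : ℕ) (x : KK) : Prop :=
  ∀ s, j^3 ≤ s + 1 → (x (s+1)).val % Q (s+1) + 24 * Q s < Q (s+1)

/-- digits below the level are not changed -/
lemma Y_low {x : KK} {n s : ℕ} (h : 5 * Q s ∣ n) : Y (x + (n : KK)) s = Y x s := by
  obtain ⟨k, rfl⟩ := h
  unfold Y
  rw [add_nat_apply]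
  have : (((5 * Q s) * k : ℕ) : ZMod (5 * Q s)) = 0 := by
    rw [ZMod.natCast_eq_zero_iff]
    exact Dvd.intro k rfl
  rw [this, add_zero]

lemma Y_high {j : ℕ} {x : KK} (hx : good j x) {s : ℕ} (hs : j^3 ≤ s + 1) {n : ℕ}
    (hn : n ≤ 24 * Q s) : Y (x + (n : KK)) (s+1) = Y x (s+1) := by
  unfold Y
  rw [add_nat_apply]
  have h1 := hx s hs
  have := dig_add (q := Q (s+1)) (x (s+1)) (lo := n) (e := 0) (h := 0) (by omega)
  simpa using this

/-- the integer attached to a digit sequence -/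
def num (L : ℕ) (e : ℕ → ℕ) : ℕ := ∑ s ∈ Finset.range L, e s * Q s

lemma num_split {L : ℕ} (e : ℕ → ℕ) {s : ℕ} (hs : s < L) :
    ∃ h, num L e = num s e + e s * Q s + 5 * Q s * h := by
  unfold num
  have h1 : Finset.range L = Finset.range (s+1) ∪ Finset.Ico (s+1) L := by
    ext t
    simp only [Finset.mem_range, Finset.mem_union, Finset.mem_Ico]
    omega
  have h2 : Disjoint (Finset.range (s+1)) (Finset.Ico (s+1) L) := by
    rw [Finset.disjoint_left]
    intro t ht ht'
    simp only [Finset.mem_range, Finset.mem_Ico] at ht ht'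
    omega
  rw [h1, Finset.sum_union h2, Finset.sum_range_succ]
  have h3 : 5 * Q s ∣ ∑ t ∈ Finset.Ico (s+1) L, e t * Q t := by
    apply Finset.dvd_sum
    intro t ht
    rw [Finset.mem_Ico] at ht
    exact Dvd.dvd.mul_left (five_Q_dvd_of_lt (by omega)) _
  obtain ⟨h, hh⟩ := h3
  exact ⟨h, by rw [hh]⟩

lemma num_le {e : ℕ → ℕ} (he : ∀ s, e s ≤ 12) (s : ℕ) : num (s+1) e ≤ 24 * Q s := by
  unfold num
  calc ∑ r ∈ Finset.range (s+1), e r * Q r ≤ ∑ r ∈ Finset.range (s+1), 12 * Q r :=
        Finset.sum_le_sum fun r _ => Nat.mul_le_mul_right _ (he r)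
    _ = 12 * ∑ r ∈ Finset.range (s+1), Q r := by rw [Finset.mul_sum]
    _ ≤ 12 * (2 * Q s) := Nat.mul_le_mul_left _ (sum_Q_le s)
    _ = 24 * Q s := by ring

lemma num_eq_zero {e : ℕ → ℕ} {s : ℕ} (h : ∀ r < s, e r = 0) : num s e = 0 := by
  unfold num
  apply Finset.sum_eq_zero
  intro r hr
  rw [Finset.mem_range] at hr
  rw [h r hr, zero_mul]

/-- on good points the digits at level `j` are shifted exactly -/
lemma Y_shift {j : ℕ} {x : KK} (hx : good j x) {e : ℕ → ℕ} (he : ∀ s, e s ≤ 12)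
    (he0 : ∀ s < j^3, e s = 0) {L s : ℕ} (hsL : s < L) :
    Y (x + ((num L e : ℕ) : KK)) s = Y x s + (e s : ZMod 5) := by
  obtain ⟨h, hh⟩ := num_split e hsL
  unfold Y
  rw [add_nat_apply, hh]
  apply dig_add
  rcases Nat.eq_zero_or_pos s with rfl | hs
  · have : num 0 e = 0 := by simp [num]
    rw [this, add_zero]
    exact Nat.mod_lt _ (Q_pos _)
  · obtain ⟨t, rfl⟩ : ∃ t, s = t + 1 := ⟨s - 1, by omega⟩
    by_cases hj : j^3 ≤ t + 1
    · have h1 := hx t hj
      have h2 := num_le he t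
      omega
    · rw [num_eq_zero fun r hr => he0 r (by omega), add_zero]
      exact Nat.mod_lt _ (Q_pos _)

/-- partial sums of the cocycle -/
def PJ (J : ℕ) (x : KK) : ZMod 5 := ∑ j ∈ Finset.range J, (kap j (Y (x + 1)) - kap j (Y x))

open Classical in
/-- the cocycle -/
noncomputable def phi (x : KK) : ZMod 5 :=
  ∑ c : ZMod 5, if (∀ᶠ J in atTop, PJ J x = c) then c else 0

lemma phi_eq {x : KK} {c : ZMod 5} (h : ∀ᶠ J in atTop, PJ J x = c) : phi x = c := by
  classical
  unfold phi
  rw [Finset.sum_eq_single c]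
  · rw [if_pos h]
  · intro b _ hb
    rw [if_neg]
    intro hb'
    obtain ⟨J, h1, h2⟩ := (h.and hb').exists
    exact hb (h2.symm.trans h1)
  · intro h'
    exact absurd (Finset.mem_univ _) h'

lemma madd {α : Type*} [MeasurableSpace α] {f g : α → ZMod 5} (hf : Measurable f)
    (hg : Measurable g) : Measurable fun x => f x + g x :=
  (measurable_of_countable (fun p : ZMod 5 × ZMod 5 => p.1 + p.2)).comp (hf.prodMk hg)

lemma msub {α : Type*} [MeasurableSpace α] {f g : α → ZMod 5} (hf : Measurable f)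
    (hg : Measurable g) : Measurable fun x => f x - g x :=
  (measurable_of_countable (fun p : ZMod 5 × ZMod 5 => p.1 - p.2)).comp (hf.prodMk hg)

lemma measurable_Y (s : ℕ) : Measurable fun x : KK => Y x s :=
  (measurable_of_countable (dig (Q s))).comp (measurable_pi_apply s)

lemma measurable_kap (j : ℕ) : Measurable fun x : KK => kap j (Y x) := by
  unfold kap
  refine Finset.measurable_sum _ fun i _ => Finset.measurable_sum _ fun l _ => ?_
  exact ((measurable_Y _).mul (measurable_Y _)).mul (measurable_Y _)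

lemma measurable_add_one : Measurable fun x : KK => x + 1 := by
  rw [measurable_pi_iff]
  intro s
  exact (measurable_of_countable (fun a : ZMod (5 * Q s) => a + 1)).comp (measurable_pi_apply s)

lemma measurable_PJ (J : ℕ) : Measurable (PJ J) := by
  unfold PJ
  refine Finset.measurable_sum _ fun j _ => ?_
  exact ((measurable_kap j).comp measurable_add_one).sub (measurable_kap j)

lemma measurable_phi : Measurable phi := by
  classical
  unfold phi
  refine Finset.measurable_sum _ fun c _ => ?_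
  refine Measurable.ite ?_ measurable_const measurable_const
  have : {x : KK | ∀ᶠ J in atTop, PJ J x = c} = ⋃ J0, ⋂ J, ⋂ (_ : J0 ≤ J), {x | PJ J x = c} := by
    ext x
    simp only [Set.mem_ofPred_eq, eventually_atTop, mem_iUnion, mem_iInter]
  rw [this]
  refine MeasurableSet.iUnion fun J0 => MeasurableSet.iInter fun J => MeasurableSet.iInter fun _ => ?_
  exact measurable_PJ J (measurableSet_singleton c)

/-- the skew product -/
noncomputable def TT : Equiv.Perm (KK × ZMod 5) where
  toFun p := (p.1 + 1, p.2 + phi p.1)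
  invFun p := (p.1 - 1, p.2 - phi (p.1 - 1))
  left_inv p := by simp
  right_inv p := by simp

lemma TT_apply (p : KK × ZMod 5) : TT p = (p.1 + 1, p.2 + phi p.1) := rfl

lemma TT_pow (n : ℕ) (x : KK) (z : ZMod 5) :
    (TT ^ n) (x, z) = (x + (n : KK), z + ∑ r ∈ Finset.range n, phi (x + (r : KK))) := by
  induction n with
  | zero => simp
  | succ n ih =>
    rw [pow_succ', Equiv.Perm.mul_apply, ih, TT_apply, Finset.sum_range_succ]
    ext1
    · simp [add_assoc]
    · simp [add_assoc]

lemma measurable_TT : Measurable TT := by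
  have h1 : Measurable fun p : KK × ZMod 5 => p.2 + phi p.1 :=
    madd measurable_snd (measurable_phi.comp measurable_fst)
  have h2 : Measurable fun p : KK × ZMod 5 => p.1 + 1 := measurable_add_one.comp measurable_fst
  exact h2.prodMk h1

lemma measurable_sub_one : Measurable fun x : KK => x - 1 := by
  rw [measurable_pi_iff]
  intro s
  exact (measurable_of_countable (fun a : ZMod (5 * Q s) => a - 1)).comp (measurable_pi_apply s)

lemma measurable_TT_symm : Measurable TT.symm := by
  have h2 : Measurable fun p : KK × ZMod 5 => p.1 - 1 := measurable_sub_one.comp measurable_fst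
  have h1 : Measurable fun p : KK × ZMod 5 => p.2 - phi (p.1 - 1) :=
    msub measurable_snd (measurable_phi.comp h2)
  exact h2.prodMk h1

/-- telescoping on good points: the cocycle sum -/
lemma phi_sum {j : ℕ} {x : KK} (hj : 1 ≤ j) (hx : good j x) {n : ℕ}
    (hn : ∀ s, (j+1)^3 ≤ s + 1 → n ≤ 24 * Q s) :
    ∑ r ∈ Finset.range n, phi (x + (r : KK)) =
      ∑ i ∈ Finset.range (j+1), (kap i (Y (x + (n : KK))) - kap i (Y x)) := by
  have key : ∀ r ≤ n, ∀ i, j + 1 ≤ i → kap i (Y (x + (r : KK))) = kap i (Y x) := by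
    intro r hr i hi
    apply kap_congr
    intro s hs _
    have h1 : (j+1)^3 ≤ i^3 := Nat.pow_le_pow_left hi 3
    have h2 : 0 < (j+1)^3 := by positivity
    obtain ⟨t, rfl⟩ : ∃ t, s = t + 1 := ⟨s - 1, by omega⟩
    have h3 : j^3 ≤ (j+1)^3 := Nat.pow_le_pow_left (by omega) 3
    exact Y_high hx (by omega) (hr.trans (hn t (by omega)))
  have hphi : ∀ r < n, phi (x + (r : KK)) = ∑ i ∈ Finset.range (j+1),
      (kap i (Y (x + ((r+1 : ℕ) : KK))) - kap i (Y (x + (r : KK)))) := by
    intro r hr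
    apply phi_eq
    filter_upwards [eventually_ge_atTop (j+1)] with J hJ
    unfold PJ
    have h0 : x + (r : KK) + 1 = x + ((r+1 : ℕ) : KK) := by push_cast; ring
    rw [h0]
    have h1 : Finset.range (j+1) ⊆ Finset.range J := by
      intro i hi
      rw [Finset.mem_range] at hi ⊢
      omega
    rw [← Finset.sum_subset h1]
    intro i _ hi
    rw [Finset.mem_range, not_lt] at hi
    rw [key (r+1) hr i hi, key r hr.le i hi, sub_self]
  rw [Finset.sum_congr rfl fun r hr => hphi r (Finset.mem_range.mp hr), Finset.sum_comm]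
  refine Finset.sum_congr rfl fun i _ => ?_
  rw [Finset.sum_range_sub (fun r => kap i (Y (x + (r : KK))))]
  simp

end Pool.Agent.Lib.Pb4ed41
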