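import Mathlib
import Pool.Agent.Lib.Pb4ed41.System

/-!
# The correlation sequence of the skew product
-/

open MeasureTheory Filter Set Topology
open scoped ENNReal

namespace Pool.Agent.Lib.Pb4ed41

/-- uniform measure -/
noncomputable def unif (α : Type) [Fintype α] [MeasurableSpace α] : Measure α :=
  (Fintype.card α : ℝ≥0∞)⁻¹ • Measure.count

instance isProb_unif {α : Type} [Fintype α] [Nonempty α] [MeasurableSpace α] :
    IsProbabilityMeasure (unif α) := by
  constructor
  unfold unif
  rw [Measure.smul_apply, Measure.count_apply MeasurableSet.univ, smul_eq_mul]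
  simp only [Set.encard_univ, ENat.card_eq_coe_fintype_card, ENat.toENNReal_coe]
  apply ENNReal.inv_mul_cancel
  · exact Nat.cast_ne_zero.mpr Fintype.card_ne_zero
  · exact ENNReal.natCast_ne_top _

lemma unif_apply {α : Type} [Fintype α] [MeasurableSpace α] [MeasurableSingletonClass α]
    (s : Finset α) : unif α s = (Fintype.card α : ℝ≥0∞)⁻¹ * (s.card : ℝ≥0∞) := by
  unfold unif
  rw [Measure.smul_apply, Measure.count_apply_finset, smul_eq_mul]

lemma map_unif {α : Type} [Fintype α] [MeasurableSpace α] [MeasurableSingletonClass α]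
    (e : α ≃ α) : (unif α).map e = unif α := by
  classical
  have he : Measurable e := measurable_of_countable _
  apply Measure.ext_of_singleton
  intro a
  rw [Measure.map_apply he (measurableSet_singleton a)]
  have h1 : e ⁻¹' {a} = (({e.symm a} : Finset α) : Set α) := by
    ext x
    simp [Equiv.eq_symm_apply]
  have h2 : ({a} : Set α) = (({a} : Finset α) : Set α) := by simp
  rw [h1, h2, unif_apply, unif_apply]
  simp

/-- the measure on the base -/
noncomputable def muK : Measure KK := Measure.infinitePi fun s => unif (ZMod (5 * Q s))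

instance : IsProbabilityMeasure muK := by unfold muK; infer_instance

lemma mp_add_one : MeasurePreserving (fun x : KK => x + 1) muK muK := by
  refine ⟨measurable_add_one, ?_⟩
  have h := Measure.infinitePi_map_pi (fun s => unif (ZMod (5 * Q s)))
    (f := fun s (a : ZMod (5 * Q s)) => a + 1) (fun s => measurable_of_countable _)
  have h1 : (fun (x : KK) => x + 1) = fun (x : KK) s => x s + 1 := by
    funext x s
    rfl
  unfold muK
  rw [h1, h]
  congr 1
  funext s
  exact map_unif (Equiv.addRight (1 : ZMod (5 * Q s)))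

/-- the measure on the skew product -/
noncomputable def muX : Measure (KK × ZMod 5) := muK.prod (unif (ZMod 5))

instance : IsProbabilityMeasure muX := by unfold muX; infer_instance

lemma mp_TT : MeasurePreserving TT muX muX := by
  have h := MeasurePreserving.skew_product mp_add_one (μc := unif (ZMod 5)) (μd := unif (ZMod 5))
    (g := fun x z => z + phi x) (madd measurable_snd (measurable_phi.comp measurable_fst))
    (ae_of_all _ fun x => map_unif (Equiv.addRight (phi x)))
  exact h

lemma card_bad (q L : ℕ) [NeZero (5 * q)] (hq : 0 < q) :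
    (Finset.univ.filter fun c : ZMod (5 * q) => q ≤ c.val % q + L).card ≤ 5 * L := by
  classical
  have h : (Finset.univ.filter fun c : ZMod (5 * q) => q ≤ c.val % q + L).card ≤
      (Finset.range 5 ×ˢ Finset.range L).card := by
    apply Finset.card_le_card_of_injOn (fun c => (c.val / q, q - 1 - c.val % q))
    · intro c hc
      rw [Finset.mem_coe, Finset.mem_filter] at hc
      rw [Finset.mem_coe, Finset.mem_product, Finset.mem_range, Finset.mem_range]
      have h1 : c.val < 5 * q := ZMod.val_lt c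
      have h2 : c.val % q < q := Nat.mod_lt _ hq
      refine ⟨?_, ?_⟩
      · have h1' : c.val < q * 5 := by omega
        exact Nat.div_lt_of_lt_mul h1'
      · show q - 1 - c.val % q < L
        have := hc.2
        omega
    · intro c _ c' _ h
      simp only [Prod.mk.injEq] at h
      apply ZMod.val_injective
      have h2 : c.val % q < q := Nat.mod_lt _ hq
      have h3 : c'.val % q < q := Nat.mod_lt _ hq
      have h4 : c.val % q = c'.val % q := by omega
      rw [← Nat.div_add_mod c.val q, ← Nat.div_add_mod c'.val q, h.1, h4]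
  rwa [Finset.card_product, Finset.card_range, Finset.card_range] at h

/-- the bad set at a position -/
def badS (s : ℕ) : Set KK := {x | Q (s+1) ≤ (x (s+1)).val % Q (s+1) + 24 * Q s}

/-- the bound for its measure -/
noncomputable def bb (s : ℕ) : ℝ≥0∞ := ENNReal.ofReal (24 / (5 * ((s:ℝ)+1)^2))

lemma measurableSet_badS (s : ℕ) : MeasurableSet (badS s) := by
  have : badS s = (fun x : KK => x (s+1)) ⁻¹'
    {c | Q (s+1) ≤ c.val % Q (s+1) + 24 * Q s} := rfl
  rw [this]
  exact measurable_pi_apply (s+1) (Set.to_countable _).measurableSet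

lemma measure_badS (s : ℕ) : muK (badS s) ≤ bb s := by
  classical
  have h1 : badS s = (fun x : KK => x (s+1)) ⁻¹'
    ((Finset.univ.filter fun c : ZMod (5 * Q (s+1)) => Q (s+1) ≤ c.val % Q (s+1) + 24 * Q s :
      Finset _) : Set (ZMod (5 * Q (s+1)))) := by
    ext x
    simp [badS]
  have h2 : muK.map (fun x : KK => x (s+1)) = unif (ZMod (5 * Q (s+1))) :=
    Measure.infinitePi_map_eval (fun s => unif (ZMod (5 * Q s))) (s+1)
  rw [h1, ← Measure.map_apply (measurable_pi_apply (s+1)) (Set.to_countable _).measurableSet, h2,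
    unif_apply, ZMod.card]
  have h3 := card_bad (Q (s+1)) (24 * Q s) (Q_pos _)
  set c := (Finset.univ.filter fun c : ZMod (5 * Q (s+1)) =>
    Q (s+1) ≤ c.val % Q (s+1) + 24 * Q s).card
  have h4 : ((5 * Q (s+1) : ℕ) : ℝ≥0∞)⁻¹ * (c : ℝ≥0∞) =
      ENNReal.ofReal ((c : ℝ) / ((5 * Q (s+1) : ℕ) : ℝ)) := by
    rw [ENNReal.ofReal_div_of_pos, ENNReal.ofReal_natCast, ENNReal.ofReal_natCast, mul_comm]
    · rfl
    · have := Q_pos (s+1)
      positivity
  rw [h4]
  unfold bb
  apply ENNReal.ofReal_le_ofReal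
  have hQ : (0:ℝ) < Q s := by exact_mod_cast Q_pos s
  have h5 : ((5 * Q (s+1) : ℕ) : ℝ) = 5 * (Q s * (5 * ((s:ℝ)+1)^2)) := by
    rw [Q]; push_cast; ring
  have h6 : (c : ℝ) ≤ 5 * (24 * Q s) := by exact_mod_cast h3
  rw [h5, div_le_div_iff₀ (by positivity) (by positivity)]
  calc (c:ℝ) * (5 * ((s:ℝ)+1)^2) ≤ (5 * (24 * Q s)) * (5 * ((s:ℝ)+1)^2) :=
        mul_le_mul_of_nonneg_right h6 (by positivity)
    _ = 24 * (5 * (Q s * (5 * ((s:ℝ)+1)^2))) := by ring

lemma tsum_bb : ∑' s, bb s ≠ ∞ := by
  have h : Summable fun s : ℕ => 24 / (5 * ((s:ℝ)+1)^2) := by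
    have h1 : Summable fun s : ℕ => 1 / ((s:ℝ)+1)^2 := by
      have := (summable_nat_add_iff 1).mpr (Real.summable_one_div_nat_pow.mpr (le_refl 2))
      simpa using this
    have h2 := h1.mul_left (24/5)
    refine h2.congr fun s => ?_
    field_simp
  have := h.tsum_ofReal_ne_top
  exact this

/-- the bad event at level `j` -/
noncomputable def beta (j : ℕ) : ℝ≥0∞ := muK {x | ¬ good j x}

lemma measurableSet_good (j : ℕ) : MeasurableSet {x | ¬ good j x} := by
  have : {x | ¬ good j x} = ⋃ s, ⋃ (_ : j^3 ≤ s+1), badS s := by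
    ext x
    simp only [good, badS, Set.mem_ofPred_eq, mem_iUnion, not_forall, not_lt, exists_prop]
  rw [this]
  exact MeasurableSet.iUnion fun s => MeasurableSet.iUnion fun _ => measurableSet_badS s

lemma tendsto_beta : Tendsto beta atTop (𝓝 0) := by
  have h1 := ENNReal.tendsto_sum_nat_add bb tsum_bb
  have h2 : Tendsto (fun j : ℕ => j^3 - 1) atTop atTop := by
    have h3 : Tendsto (fun j : ℕ => j - 1) atTop atTop := tendsto_sub_atTop_nat 1
    refine tendsto_atTop_mono (fun j => ?_) h3
    have : j ≤ j^3 := Nat.le_self_pow (by norm_num) j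
    omega
  refine tendsto_of_tendsto_of_tendsto_of_le_of_le tendsto_const_nhds (h1.comp h2)
    (fun j => bot_le) fun j => ?_
  show muK {x | ¬ good j x} ≤ ∑' k, bb (k + (j^3-1))
  have h4 : {x | ¬ good j x} ⊆ ⋃ k, badS (k + (j^3-1)) := by
    intro x hx
    simp only [good, Set.mem_ofPred_eq, not_forall, not_lt, exists_prop] at hx
    obtain ⟨s, hs, hx⟩ := hx
    rw [mem_iUnion]
    refine ⟨s - (j^3-1), ?_⟩
    have : s - (j^3-1) + (j^3-1) = s := by omega
    rw [this]
    exact hx
  calc muK {x | ¬ good j x} ≤ muK (⋃ k, badS (k + (j^3-1))) := measure_mono h4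
    _ ≤ ∑' k, muK (badS (k + (j^3-1))) := measure_iUnion_le _
    _ ≤ _ := ENNReal.tsum_le_tsum fun k => measure_badS _

/-- evaluation of the cocycle at level `j` -/
lemma phi_sum_eq {j : ℕ} {x : KK} (hj : 1 ≤ j) (hx : good j x) {e : ℕ → ℕ} (he : ∀ s, e s ≤ 12)
    (he0 : ∀ s < j^3, e s = 0) :
    ∑ r ∈ Finset.range (num ((j+1)^3) e), phi (x + (r : KK)) =
      kap j (fun s => Y x s + (e s : ZMod 5)) - kap j (Y x) := by
  have hL : 0 < (j+1)^3 := by positivity
  obtain ⟨L', hL'⟩ : ∃ L', (j+1)^3 = L' + 1 := ⟨(j+1)^3 - 1, by omega⟩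
  rw [phi_sum hj hx (n := num ((j+1)^3) e) (by
    intro s hs
    rw [hL'] at hs ⊢
    exact (num_le he L').trans (Nat.mul_le_mul_left _ (Q_mono (by omega))))]
  rw [Finset.sum_range_succ]
  have h0 : ∑ i ∈ Finset.range j, (kap i (Y (x + ((num ((j+1)^3) e : ℕ) : KK))) - kap i (Y x)) = 0 := by
    apply Finset.sum_eq_zero
    intro i hi
    rw [Finset.mem_range] at hi
    rw [sub_eq_zero]
    apply kap_congr
    intro s _ hs
    apply Y_low
    unfold num
    apply Finset.dvd_sum
    intro t _
    by_cases ht : t < j^3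
    · rw [he0 t ht, zero_mul]; exact dvd_zero _
    · apply Dvd.dvd.mul_left
      apply five_Q_dvd_of_lt
      have : (i+1)^3 ≤ j^3 := Nat.pow_le_pow_left hi 3
      omega
  rw [h0, zero_add]
  congr 1
  apply kap_congr
  intro s _ hs
  exact Y_shift hx he he0 hs

/-- the character -/
noncomputable def chi : AddChar (ZMod 5) ℂ := ZMod.stdAddChar

lemma norm_chi (z : ZMod 5) : ‖chi z‖ = 1 := AddChar.norm_apply _ _

lemma chi_sum {ι : Type*} [DecidableEq ι] (s : Finset ι) (g : ι → ZMod 5) :
    chi (∑ i ∈ s, g i) = ∏ i ∈ s, chi (g i) := by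
  induction s using Finset.induction_on with
  | empty => simp
  | insert a s ha ih => rw [Finset.sum_insert ha, Finset.prod_insert ha, AddChar.map_add_eq_mul, ih]

/-- multipliers -/
def cc : ℕ → ZMod 5
  | 0 => -3
  | 1 => 3
  | 2 => -1
  | _ => 0

/-- exponents -/
def ee : ℕ → ℕ
  | 0 => 1
  | 1 => 2
  | 2 => 3
  | _ => 0

/-- the transformations -/
noncomputable def Ti {r : ℕ} (i : Fin (r+3)) : Equiv.Perm (KK × ZMod 5) := TT ^ (ee i)

/-- the functions -/
noncomputable def fi {r : ℕ} (i : Fin (r+3)) (p : KK × ZMod 5) : ℂ := chi (cc i * p.2)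

/-- the zeroth function -/
noncomputable def f0 (p : KK × ZMod 5) : ℂ := chi p.2

lemma Ti_zpow_nat {r : ℕ} (i : Fin (r+3)) (n : ℕ) : (Ti i) ^ (n : ℤ) = TT ^ (ee i * n) := by
  rw [zpow_natCast]
  unfold Ti
  rw [← pow_mul]

/-- evaluation of the integrand on the good set -/
lemma integrand_eq {r j : ℕ} (hj : 1 ≤ j) {x : KK} (hx : good j x) (z : ZMod 5) {e : ℕ → ℕ}
    (he : ∀ s, e s ≤ 4) (he0 : ∀ s < j^3, e s = 0) :
    f0 (x, z) * ∏ i : Fin (r+3), fi i (((Ti i) ^ ((num ((j+1)^3) e : ℕ) : ℤ)) (x, z)) =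
      chi (- kap j fun s => (e s : ZMod 5)) := by
  set n := num ((j+1)^3) e with hn
  have h1 : ∀ i : Fin (r+3), fi i (((Ti i) ^ (n : ℤ)) (x, z)) =
      chi (cc i * (z + ∑ r ∈ Finset.range (ee i * n), phi (x + (r : KK)))) := by
    intro i
    rw [Ti_zpow_nat, TT_pow]
    rfl
  simp only [h1]
  rw [← chi_sum, f0, ← AddChar.map_add_eq_mul]
  congr 1
  rw [Fin.sum_univ_succ, Fin.sum_univ_succ, Fin.sum_univ_succ]
  have h2 : ∑ i : Fin r, cc i.succ.succ.succ * (z + ∑ r ∈ Finset.range (ee i.succ.succ.succ * n),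
      phi (x + (r : KK))) = 0 := by
    apply Finset.sum_eq_zero
    intro i _
    have : cc i.succ.succ.succ = 0 := by
      show cc (i.val + 1 + 1 + 1) = 0
      rfl
    rw [this, zero_mul]
  have h3 : ∀ c : ℕ, num ((j+1)^3) (fun s => c * e s) = c * n := by
    intro c
    rw [hn]
    unfold num
    rw [Finset.mul_sum]
    exact Finset.sum_congr rfl fun s _ => by ring
  have key : ∀ c : ℕ, c ≤ 3 → ∑ r ∈ Finset.range (c * n), phi (x + (r : KK)) =
      kap j (fun s => Y x s + (c : ZMod 5) * (e s : ZMod 5)) - kap j (Y x) := by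
    intro c hc
    rw [← h3 c, phi_sum_eq hj hx (e := fun s => c * e s) (fun s => by
      have := he s
      calc c * e s ≤ 3 * 4 := Nat.mul_le_mul hc this
        _ = 12 := by norm_num) (fun s hs => by rw [he0 s hs, mul_zero])]
    simp only [Nat.cast_mul]
  have e0 : ee ((0 : Fin (r+3)) : ℕ) = 1 := rfl
  have e1 : ee ((Fin.succ 0 : Fin (r+3)) : ℕ) = 2 := rfl
  have e2 : ee ((Fin.succ (Fin.succ 0) : Fin (r+3)) : ℕ) = 3 := rfl
  have c0 : cc ((0 : Fin (r+3)) : ℕ) = -3 := rfl
  have c1 : cc ((Fin.succ 0 : Fin (r+3)) : ℕ) = 3 := rfl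
  have c2 : cc ((Fin.succ (Fin.succ 0) : Fin (r+3)) : ℕ) = -1 := rfl
  rw [h2, e0, e1, e2, c0, c1, c2, key 1 (by norm_num), key 2 (by norm_num), key 3 (by norm_num)]
  have ht := kap_third j (Y x) (fun s => (e s : ZMod 5))
  simp only [Nat.cast_one, one_mul, Nat.cast_ofNat]
  linear_combination ht

lemma measurable_TT_pow (m : ℕ) : Measurable (TT ^ m : Equiv.Perm (KK × ZMod 5)) := by
  induction m with
  | zero => simpa using measurable_id
  | succ m ih =>
    rw [pow_succ', Equiv.Perm.coe_mul]
    exact measurable_TT.comp ih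

lemma mp_TT_pow (m : ℕ) : MeasurePreserving (TT ^ m : Equiv.Perm (KK × ZMod 5)) muX muX := by
  induction m with
  | zero => simpa using MeasurePreserving.id muX
  | succ m ih =>
    rw [pow_succ', Equiv.Perm.coe_mul]
    exact mp_TT.comp ih

lemma measurable_TT_pow_symm (m : ℕ) :
    Measurable ((TT ^ m : Equiv.Perm (KK × ZMod 5)).symm) := by
  induction m with
  | zero =>
    have : (TT ^ 0 : Equiv.Perm (KK × ZMod 5)).symm = 1 := by
      rw [pow_zero]
      rfl
    rw [this, Equiv.Perm.coe_one]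
    exact measurable_id
  | succ m ih =>
    have : (TT ^ (m+1) : Equiv.Perm (KK × ZMod 5)).symm = (TT ^ m).symm * TT.symm := by
      rw [pow_succ']
      rfl
    rw [this, Equiv.Perm.coe_mul]
    exact ih.comp measurable_TT_symm

lemma measurable_fi {r : ℕ} (i : Fin (r+3)) : Measurable (fi i) :=
  (measurable_of_countable (fun z : ZMod 5 => chi (cc i * z))).comp measurable_snd

lemma measurable_f0 : Measurable f0 :=
  (measurable_of_countable (fun z : ZMod 5 => chi z)).comp measurable_snd

/-- the correlation sequence -/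
noncomputable def CC (r : ℕ) (n : Fin (r+3) → ℤ) : ℂ :=
  ∫ p, f0 p * ∏ i, fi i (((Ti i) ^ (n i)) p) ∂muX

lemma CC_near {r j : ℕ} (hj : 1 ≤ j) {e : ℕ → ℕ} (he : ∀ s, e s ≤ 4) (he0 : ∀ s < j^3, e s = 0) :
    ‖CC r (fun _ => ((num ((j+1)^3) e : ℕ) : ℤ)) - chi (- kap j fun s => (e s : ZMod 5))‖ ≤
      2 * (beta j).toReal := by
  set w := chi (- kap j fun s => (e s : ZMod 5)) with hw
  set n := num ((j+1)^3) e with hn
  set g : KK × ZMod 5 → ℂ := fun p => f0 p * ∏ i : Fin (r+3), fi i (((Ti i) ^ (n : ℤ)) p) with hg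
  have hgm : Measurable g := by
    apply measurable_f0.mul
    refine Finset.measurable_fun_prod _ fun i _ => ?_
    apply (measurable_fi i).comp
    rw [Ti_zpow_nat]
    exact measurable_TT_pow _
  have hgn : ∀ p, ‖g p‖ = 1 := by
    intro p
    rw [hg]
    simp only [norm_mul, norm_prod, f0, fi, norm_chi, Finset.prod_const_one, mul_one]
  have hgi : Integrable g muX := by
    refine Integrable.of_bound hgm.aestronglyMeasurable 1 (ae_of_all _ fun p => (hgn p).le)
  set B : Set (KK × ZMod 5) := {x | ¬ good j x} ×ˢ univ with hB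
  have hBm : MeasurableSet B := (measurableSet_good j).prod MeasurableSet.univ
  have hBμ : muX.real B = (beta j).toReal := by
    rw [measureReal_def, hB, muX, Measure.prod_prod, measure_univ, mul_one]
    rfl
  have h1 : CC r (fun _ => (n : ℤ)) - w = ∫ p, (g p - w) ∂muX := by
    rw [integral_sub hgi (integrable_const w), integral_const, probReal_univ, one_smul]
    rfl
  rw [h1]
  have h2 : ∀ p, ‖g p - w‖ ≤ B.indicator (fun _ => (2:ℝ)) p := by
    rintro ⟨x, z⟩
    by_cases hx : good j x
    · have h3 : (x, z) ∉ B := by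
        rintro ⟨h, _⟩
        exact h hx
      rw [indicator_of_notMem h3]
      have h4 : g (x, z) = w := integrand_eq hj hx z he he0
      rw [h4, sub_self, norm_zero]
    · have h3 : (x, z) ∈ B := ⟨hx, mem_univ _⟩
      rw [indicator_of_mem h3]
      calc ‖g (x,z) - w‖ ≤ ‖g (x,z)‖ + ‖w‖ := norm_sub_le _ _
        _ = 2 := by rw [hgn, hw, norm_chi]; norm_num
  have h5 := norm_integral_le_of_norm_le (μ := muX) (f := fun p => g p - w)
    ((integrable_const (2:ℝ)).indicator hBm) (ae_of_all _ h2)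
  refine h5.trans ?_
  rw [integral_indicator hBm, setIntegral_const, hBμ, smul_eq_mul, mul_comm]

end Pool.Agent.Lib.Pb4ed41
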