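import Mathlib
import Pool.Agent.Lib.Pb4ed41.Corr

/-!
# Parseval and the counting of correlated sign patterns
-/

open Filter Topology
open scoped ComplexConjugate

namespace Pool.Agent.Lib.Pb4ed41

/-- digit vectors -/
abbrev VV (k : ℕ) : Type := Fin k → ZMod 5

/-- the pairing -/
def dot {k : ℕ} (S v : VV k) : ZMod 5 := ∑ l, S l * v l

lemma card_VV (k : ℕ) : Fintype.card (VV k) = 5 ^ k := by
  rw [Fintype.card_fun, ZMod.card, Fintype.card_fin]

lemma sum_chi_dot {k : ℕ} (w : VV k) :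
    ∑ v : VV k, chi (dot w v) = if w = 0 then (5 : ℂ) ^ k else 0 := by
  classical
  have h1 : ∀ v : VV k, chi (dot w v) = ∏ l, chi (w l * v l) := fun v => chi_sum _ _
  simp only [h1]
  have h2 : ∑ v : VV k, ∏ l, chi (w l * v l) = ∏ l, ∑ a : ZMod 5, chi (w l * a) := by
    rw [Finset.prod_univ_sum, Fintype.piFinset_univ]
  rw [h2]
  have h3 : ∀ b : ZMod 5, ∑ a : ZMod 5, chi (b * a) = if b = 0 then (5 : ℂ) else 0 := by
    intro b
    have h := AddChar.sum_mulShift b (ZMod.isPrimitive_stdAddChar 5)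
    have h' : ∑ a : ZMod 5, chi (b * a) = ∑ a : ZMod 5, ZMod.stdAddChar (a * b) :=
      Finset.sum_congr rfl fun a _ => by rw [mul_comm]; rfl
    rw [h', h, ZMod.card]
    norm_num
  simp only [h3]
  by_cases hw : w = 0
  · rw [if_pos hw, hw]
    simp
  · rw [if_neg hw]
    obtain ⟨l, hl⟩ : ∃ l, w l ≠ 0 := by
      by_contra hcon
      push Not at hcon
      exact hw (funext hcon)
    exact Finset.prod_eq_zero (Finset.mem_univ l) (if_neg hl)

/-- Fourier transform -/
noncomputable def hat {k : ℕ} (p : VV k → ℂ) (v : VV k) : ℂ := ∑ S, p S * chi (dot S v)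

lemma conj_chi (z : ZMod 5) : conj (chi z) = chi (-z) := by
  rw [AddChar.map_neg_eq_inv]
  exact (RCLike.inv_eq_conj (norm_chi z)).symm

lemma parseval {k : ℕ} (p : VV k → ℂ) :
    ∑ v, ‖hat p v‖ ^ 2 = 5 ^ k * ∑ S, ‖p S‖ ^ 2 := by
  classical
  have h : ((∑ v, ‖hat p v‖ ^ 2 : ℝ) : ℂ) = ((5 ^ k * ∑ S, ‖p S‖ ^ 2 : ℝ) : ℂ) := by
    push_cast
    have h1 : ∀ v, ((‖hat p v‖ : ℂ)) ^ 2 =
        ∑ S, ∑ S', p S * conj (p S') * chi (dot (S - S') v) := by
      intro v
      rw [← Complex.mul_conj', hat, map_sum, Finset.sum_mul_sum]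
      refine Finset.sum_congr rfl fun S _ => Finset.sum_congr rfl fun S' _ => ?_
      rw [map_mul, conj_chi]
      have : dot (S - S') v = dot S v + -dot S' v := by
        unfold dot
        rw [← Finset.sum_neg_distrib, ← Finset.sum_add_distrib]
        refine Finset.sum_congr rfl fun l _ => ?_
        rw [Pi.sub_apply]
        ring
      rw [this, AddChar.map_add_eq_mul]
      ring
    simp only [h1]
    rw [Finset.sum_comm]
    have h2 : ∀ S, ∑ v, ∑ S', p S * conj (p S') * chi (dot (S - S') v) = 5 ^ k * (‖p S‖ : ℂ) ^ 2 := by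
      intro S
      rw [Finset.sum_comm]
      have h3 : ∀ S', ∑ v, p S * conj (p S') * chi (dot (S - S') v) =
          if S = S' then 5 ^ k * (‖p S‖ : ℂ) ^ 2 else 0 := by
        intro S'
        rw [← Finset.mul_sum, sum_chi_dot]
        by_cases hS : S = S'
        · subst hS
          rw [if_pos (sub_self S), if_pos rfl, Complex.mul_conj']
          ring
        · rw [if_neg (sub_ne_zero.mpr hS), if_neg hS, mul_zero]
      simp only [h3]
      rw [Finset.sum_ite_eq]
      simp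
    simp only [h2]
    rw [← Finset.mul_sum]
  exact_mod_cast h

/-- exponential Markov bound -/
lemma count_bad {k m : ℕ} (P : Fin m → VV k → ℝ) {M ε : ℝ} (hM : 0 < M) (hε : 0 < ε)
    (hPM : ∀ i v, P i v ≤ M) (hP2 : ∀ i, ∑ v, P i v ^ 2 ≤ M ^ 2)
    (hB : 1 ≤ (5:ℝ) ^ k * ε ^ 2 / 4) :
    ((Finset.univ.filter fun u : Fin m → VV k => ε * m < ∑ i, P i (u i)).card : ℝ) *
      ((5:ℝ) ^ k * ε ^ 2 / 4) ^ (ε / (2 * M) * m) ≤ ((5:ℝ) ^ k * (1 + M ^ 2)) ^ m := by
  classical
  set A : ℝ := (5:ℝ) ^ k with hA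
  set B : ℝ := A * ε ^ 2 / 4 with hBdef
  have hA0 : 0 < A := by positivity
  have hB0 : 0 < B := by positivity
  have hpt : ∀ i v, B ^ ((P i v - ε / 2) / M) ≤ 1 + A * P i v ^ 2 := by
    intro i v
    have hsq : 0 ≤ A * P i v ^ 2 := by positivity
    by_cases h : P i v ≤ ε / 2
    · have h1 : (P i v - ε / 2) / M ≤ 0 := div_nonpos_of_nonpos_of_nonneg (by linarith) hM.le
      calc B ^ ((P i v - ε / 2) / M) ≤ 1 := Real.rpow_le_one_of_one_le_of_nonpos hB h1
        _ ≤ _ := by linarith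
    · push Not at h
      have h1 : (P i v - ε / 2) / M ≤ 1 := by
        rw [div_le_one hM]
        have := hPM i v
        linarith
      calc B ^ ((P i v - ε / 2) / M) ≤ B ^ (1:ℝ) := Real.rpow_le_rpow_of_exponent_le hB h1
        _ = A * (ε / 2) ^ 2 := by rw [Real.rpow_one, hBdef]; ring
        _ ≤ A * P i v ^ 2 := by
            apply mul_le_mul_of_nonneg_left _ hA0.le
            exact pow_le_pow_left₀ (by positivity) h.le 2
        _ ≤ _ := by linarith
  have hsum : ∑ u : Fin m → VV k, ∏ i, (1 + A * P i (u i) ^ 2) ≤ (A * (1 + M ^ 2)) ^ m := by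
    have h1 : ∑ u : Fin m → VV k, ∏ i, (1 + A * P i (u i) ^ 2) =
        ∏ i : Fin m, ∑ v : VV k, (1 + A * P i v ^ 2) := by
      rw [Finset.prod_univ_sum, Fintype.piFinset_univ]
    rw [h1]
    have h2 : ∀ i ∈ (Finset.univ : Finset (Fin m)), ∑ v : VV k, (1 + A * P i v ^ 2) ≤ A * (1 + M ^ 2) := by
      intro i _
      rw [Finset.sum_add_distrib, ← Finset.mul_sum]
      have h3 : ∑ v : VV k, (1:ℝ) = A := by
        rw [Finset.sum_const, Finset.card_univ, card_VV, nsmul_eq_mul, mul_one]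
        push_cast
        rfl
      rw [h3]
      have := mul_le_mul_of_nonneg_left (hP2 i) hA0.le
      linarith
    refine (Finset.prod_le_prod (fun i _ => ?_) h2).trans ?_
    · exact Finset.sum_nonneg fun v _ => by positivity
    · rw [Finset.prod_const, Finset.card_univ, Fintype.card_fin]
  have hbad : ∀ u ∈ (Finset.univ.filter fun u : Fin m → VV k => ε * m < ∑ i, P i (u i)),
      B ^ (ε / (2 * M) * m) ≤ ∏ i, (1 + A * P i (u i) ^ 2) := by
    intro u hu
    rw [Finset.mem_filter] at hu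
    calc B ^ (ε / (2 * M) * m) ≤ B ^ (∑ i : Fin m, (P i (u i) - ε / 2) / M) := by
          apply Real.rpow_le_rpow_of_exponent_le hB
          rw [← Finset.sum_div, Finset.sum_sub_distrib, Finset.sum_const, Finset.card_univ,
            Fintype.card_fin, nsmul_eq_mul]
          rw [le_div_iff₀ hM]
          have : ε / (2 * M) * m * M = ε * m / 2 := by field_simp
          rw [this]
          have := hu.2
          nlinarith
      _ = ∏ i, B ^ ((P i (u i) - ε / 2) / M) := Real.rpow_sum_of_pos hB0 _ _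
      _ ≤ _ := Finset.prod_le_prod (fun i _ => Real.rpow_nonneg hB0.le _) fun i _ => hpt i (u i)
  calc ((Finset.univ.filter fun u : Fin m → VV k => ε * m < ∑ i, P i (u i)).card : ℝ) *
        B ^ (ε / (2 * M) * m)
      = ∑ u ∈ (Finset.univ.filter fun u : Fin m → VV k => ε * m < ∑ i, P i (u i)),
          B ^ (ε / (2 * M) * m) := by rw [Finset.sum_const, nsmul_eq_mul]
    _ ≤ ∑ u ∈ (Finset.univ.filter fun u : Fin m → VV k => ε * m < ∑ i, P i (u i)),
          ∏ i, (1 + A * P i (u i) ^ 2) := Finset.sum_le_sum hbad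
    _ ≤ ∑ u : Fin m → VV k, ∏ i, (1 + A * P i (u i) ^ 2) := by
        apply Finset.sum_le_sum_of_subset_of_nonneg (Finset.filter_subset _ _)
        intro u _ _
        exact Finset.prod_nonneg fun i _ => by positivity
    _ ≤ _ := hsum

end Pool.Agent.Lib.Pb4ed41
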