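import Mathlib

/-!
# Polynomial maps into nilpotent groups (two variables)

A weak form of the Lazard-Leibman theorem: ordered products of powers `c ^ (choose a i * choose b j)`
form a family of maps whose high order derivatives are trivial.
-/

open scoped commutatorElement

namespace Pool.Agent.Lib.Pb4ed41

universe u

section lcs

variable {G : Type u} [Group G]

lemma three_subgroups {A B C N : Subgroup G} [N.Normal] (h1 : ⁅⁅B, C⁆, A⁆ ≤ N)
    (h2 : ⁅⁅C, A⁆, B⁆ ≤ N) : ⁅⁅A, B⁆, C⁆ ≤ N := by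
  have key : ∀ X Y W : Subgroup G, ⁅⁅X, Y⁆, W⁆ ≤ N ↔
      ⁅⁅X.map (QuotientGroup.mk' N), Y.map (QuotientGroup.mk' N)⁆, W.map (QuotientGroup.mk' N)⁆ = ⊥ := by
    intro X Y W
    rw [← Subgroup.map_commutator, ← Subgroup.map_commutator, Subgroup.map_eq_bot_iff,
      QuotientGroup.ker_mk']
  rw [key] at h1 h2 ⊢
  exact Subgroup.commutator_commutator_eq_bot_of_rotate h1 h2

/-- lower central series of the whole group -/
def lcs (G : Type u) [Group G] (n : ℕ) : Subgroup G := (⊤ : Subgroup G).lowerCentralSeries n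

lemma lcs_zero : lcs G 0 = ⊤ := rfl

lemma lcs_succ (n : ℕ) : lcs G (n+1) = ⁅lcs G n, ⊤⁆ := rfl

instance (n : ℕ) : (lcs G n).Normal := by unfold lcs; infer_instance

lemma lcs_anti {a b : ℕ} (h : a ≤ b) : lcs G b ≤ lcs G a :=
  Subgroup.lowerCentralSeries_antitone _ h

lemma lcs_comm (b : ℕ) : ∀ a : ℕ, ⁅lcs G a, lcs G b⁆ ≤ lcs G (a+b+1) := by
  induction b with
  | zero => intro a; exact le_refl _
  | succ b ih =>
    intro a
    rw [Subgroup.commutator_comm, lcs_succ]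
    apply three_subgroups
    · rw [Subgroup.commutator_comm ⊤, ← lcs_succ]
      have := ih (a+1)
      rwa [show a + 1 + b + 1 = a + (b + 1) + 1 by ring] at this
    · have h1 : ⁅⁅lcs G a, lcs G b⁆, (⊤ : Subgroup G)⁆ ≤ ⁅lcs G (a+b+1), (⊤ : Subgroup G)⁆ :=
        Subgroup.commutator_mono (ih a) le_rfl
      exact h1

end lcs

/-- a filtration by subgroups -/
structure IsFil {H : Type u} [Group H] (P : ℕ → Subgroup H) : Prop where
  comm : ∀ i j x y, x ∈ P i → y ∈ P j → ⁅x, y⁆ ∈ P (i+j)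
  anti : ∀ i, P (i+1) ≤ P i

section fil

variable {H : Type u} [Group H] {P : ℕ → Subgroup H}

lemma IsFil.le_zero (hP : IsFil P) (i : ℕ) : P i ≤ P 0 := by
  induction i with
  | zero => exact le_rfl
  | succ i ih => exact (hP.anti i).trans ih

lemma IsFil.conj (hP : IsFil P) {k : ℕ} {x g : H} (hx : x ∈ P k) (hg : g ∈ P 0) :
    g * x * g⁻¹ ∈ P k := by
  have h := hP.comm 0 k g x hg hx
  rw [zero_add, commutatorElement_def] at h
  have : g * x * g⁻¹ = g * x * g⁻¹ * x⁻¹ * x := by group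
  rw [this]
  exact (P k).mul_mem h hx

lemma IsFil.conj' (hP : IsFil P) {k : ℕ} {x g : H} (hx : x ∈ P k) (hg : g ∈ P 0) :
    g⁻¹ * x * g ∈ P k := by
  have := hP.conj hx ((P 0).inv_mem hg)
  rwa [inv_inv] at this

/-- the key commutator computation -/
lemma IsFil.comm_step (hP : IsFil P) {i j : ℕ} {f f' g g' : H} (hf : f ∈ P i) (hf' : f' ∈ P (i+1))
    (hg : g ∈ P j) (hg' : g' ∈ P (j+1)) : ⁅f, g⁆⁻¹ * ⁅f * f', g * g'⁆ ∈ P (i + j + 1) := by
  have hA : ⁅f', g * g'⁆ ∈ P (i + 1 + j) :=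
    hP.comm _ _ _ _ hf' ((P j).mul_mem hg (hP.anti j hg'))
  have hB : ⁅f, g'⁆ ∈ P (i + (j + 1)) := hP.comm _ _ _ _ hf hg'
  rw [show i + 1 + j = i + j + 1 by ring] at hA
  rw [show i + (j + 1) = i + j + 1 by ring] at hB
  have hA' : f * ⁅f', g * g'⁆ * f⁻¹ ∈ P (i+j+1) := hP.conj hA (hP.le_zero i hf)
  have hB' : g * ⁅f, g'⁆ * g⁻¹ ∈ P (i+j+1) := hP.conj hB (hP.le_zero j hg)
  have hfg : ⁅f, g⁆ ∈ P 0 := hP.le_zero _ (hP.comm i j f g hf hg)
  have e : ⁅f, g⁆⁻¹ * ⁅f * f', g * g'⁆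
      = (⁅f, g⁆⁻¹ * (f * ⁅f', g * g'⁆ * f⁻¹) * ⁅f, g⁆) * (g * ⁅f, g'⁆ * g⁻¹) := by
    simp only [commutatorElement_def]
    group
  rw [e]
  exact (P _).mul_mem (hP.conj' hA' hfg) hB'

end fil

section der

variable {G : Type u} [Group G]

/-- shift in the first variable -/
def sh1 (f : ℕ → ℕ → G) : ℕ → ℕ → G := fun a b => f (a+1) b

/-- shift in the second variable -/
def sh2 (f : ℕ → ℕ → G) : ℕ → ℕ → G := fun a b => f a (b+1)

/-- multiplicative derivative in the first variable -/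
def D1 (f : ℕ → ℕ → G) : ℕ → ℕ → G := f⁻¹ * sh1 f

/-- multiplicative derivative in the second variable -/
def D2 (f : ℕ → ℕ → G) : ℕ → ℕ → G := f⁻¹ * sh2 f

lemma sh1_eq (f : ℕ → ℕ → G) : sh1 f = f * D1 f := by unfold D1; group

lemma sh2_eq (f : ℕ → ℕ → G) : sh2 f = f * D2 f := by unfold D2; group

lemma sh1_mul (f g : ℕ → ℕ → G) : sh1 (f * g) = sh1 f * sh1 g := rfl
lemma sh2_mul (f g : ℕ → ℕ → G) : sh2 (f * g) = sh2 f * sh2 g := rfl
lemma sh1_inv (f : ℕ → ℕ → G) : sh1 f⁻¹ = (sh1 f)⁻¹ := rfl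
lemma sh2_inv (f : ℕ → ℕ → G) : sh2 f⁻¹ = (sh2 f)⁻¹ := rfl

/-- the polynomiality predicate of order `N` and shift `i` -/
def QQ (F : ℕ → Subgroup G) : ℕ → ℕ → (ℕ → ℕ → G) → Prop
  | 0, i, f => ∀ a b, f a b ∈ F i
  | N+1, i, f => QQ F N i f ∧ QQ F N (i+1) (D1 f) ∧ QQ F N (i+1) (D2 f)

lemma QQ_subgroup {F : ℕ → Subgroup G} (hF : IsFil F) (N : ℕ) :
    ∃ P : ℕ → Subgroup (ℕ → ℕ → G), IsFil P ∧ ∀ i f, f ∈ P i ↔ QQ F N i f := by
  induction N with
  | zero =>
    refine ⟨fun i => {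
      carrier := {f | QQ F 0 i f}
      mul_mem' := fun {f g} hf hg a b => (F i).mul_mem (hf a b) (hg a b)
      one_mem' := fun a b => (F i).one_mem
      inv_mem' := fun {f} hf a b => (F i).inv_mem (hf a b) }, ⟨?_, ?_⟩, fun i f => Iff.rfl⟩
    · intro i j x y hx hy a b
      exact hF.comm i j _ _ (hx a b) (hy a b)
    · intro i f hf a b
      exact hF.anti i (hf a b)
  | succ N ih =>
    obtain ⟨P, hP, hPQ⟩ := ih
    have hD1mul : ∀ f g : ℕ → ℕ → G, D1 (f * g) = (g⁻¹ * D1 f * g) * D1 g := by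
      intro f g
      unfold D1
      rw [sh1_mul]
      group
    have hD2mul : ∀ f g : ℕ → ℕ → G, D2 (f * g) = (g⁻¹ * D2 f * g) * D2 g := by
      intro f g
      unfold D2
      rw [sh2_mul]
      group
    have hD1inv : ∀ f : ℕ → ℕ → G, D1 f⁻¹ = f * (D1 f)⁻¹ * f⁻¹ := by
      intro f
      unfold D1
      rw [sh1_inv]
      group
    have hD2inv : ∀ f : ℕ → ℕ → G, D2 f⁻¹ = f * (D2 f)⁻¹ * f⁻¹ := by
      intro f
      unfold D2
      rw [sh2_inv]
      group
    have hD1com : ∀ f g : ℕ → ℕ → G, D1 ⁅f, g⁆ = ⁅f, g⁆⁻¹ * ⁅f * D1 f, g * D1 g⁆ := by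
      intro f g
      rw [← sh1_eq, ← sh1_eq]
      rfl
    have hD2com : ∀ f g : ℕ → ℕ → G, D2 ⁅f, g⁆ = ⁅f, g⁆⁻¹ * ⁅f * D2 f, g * D2 g⁆ := by
      intro f g
      rw [← sh2_eq, ← sh2_eq]
      rfl
    have hQ : ∀ i f, QQ F (N+1) i f ↔ f ∈ P i ∧ D1 f ∈ P (i+1) ∧ D2 f ∈ P (i+1) := by
      intro i f
      rw [hPQ, hPQ, hPQ]
      exact Iff.rfl
    refine ⟨fun i => {
      carrier := {f | QQ F (N+1) i f}
      mul_mem' := ?_
      one_mem' := ?_
      inv_mem' := ?_ }, ⟨?_, ?_⟩, fun i f => Iff.rfl⟩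
    · intro f g hf hg
      simp only [Set.mem_ofPred_eq, hQ] at hf hg ⊢
      obtain ⟨hf0, hf1, hf2⟩ := hf
      obtain ⟨hg0, hg1, hg2⟩ := hg
      refine ⟨(P i).mul_mem hf0 hg0, ?_, ?_⟩
      · rw [hD1mul]
        exact (P _).mul_mem (hP.conj' hf1 (hP.le_zero i hg0)) hg1
      · rw [hD2mul]
        exact (P _).mul_mem (hP.conj' hf2 (hP.le_zero i hg0)) hg2
    · simp only [Set.mem_ofPred_eq, hQ]
      have e1 : D1 (1 : ℕ → ℕ → G) = 1 := by
        unfold D1
        have : sh1 (1 : ℕ → ℕ → G) = 1 := rfl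
        rw [this]; group
      have e2 : D2 (1 : ℕ → ℕ → G) = 1 := by
        unfold D2
        have : sh2 (1 : ℕ → ℕ → G) = 1 := rfl
        rw [this]; group
      rw [e1, e2]
      exact ⟨(P i).one_mem, (P _).one_mem, (P _).one_mem⟩
    · intro f hf
      simp only [Set.mem_ofPred_eq, hQ] at hf ⊢
      obtain ⟨hf0, hf1, hf2⟩ := hf
      refine ⟨(P i).inv_mem hf0, ?_, ?_⟩
      · rw [hD1inv]
        exact hP.conj ((P _).inv_mem hf1) (hP.le_zero i hf0)
      · rw [hD2inv]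
        exact hP.conj ((P _).inv_mem hf2) (hP.le_zero i hf0)
    · intro i j f g hf hg
      change QQ F (N+1) i f at hf
      change QQ F (N+1) j g at hg
      change QQ F (N+1) (i+j) ⁅f, g⁆
      rw [hQ] at hf hg ⊢
      obtain ⟨hf0, hf1, hf2⟩ := hf
      obtain ⟨hg0, hg1, hg2⟩ := hg
      refine ⟨hP.comm i j f g hf0 hg0, ?_, ?_⟩
      · rw [hD1com]
        exact hP.comm_step hf0 hf1 hg0 hg1
      · rw [hD2com]
        exact hP.comm_step hf0 hf2 hg0 hg2
    · intro i f hf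
      change QQ F (N+1) (i+1) f at hf
      change QQ F (N+1) i f
      rw [hQ] at hf ⊢
      exact ⟨hP.anti i hf.1, hP.anti _ hf.2.1, hP.anti _ hf.2.2⟩

lemma QQ_mul {F : ℕ → Subgroup G} (hF : IsFil F) {N i : ℕ} {f g : ℕ → ℕ → G}
    (hf : QQ F N i f) (hg : QQ F N i g) : QQ F N i (f * g) := by
  obtain ⟨P, hP, hPQ⟩ := QQ_subgroup hF N
  rw [← hPQ] at *
  exact (P i).mul_mem hf hg

lemma QQ_one {F : ℕ → Subgroup G} (hF : IsFil F) {N i : ℕ} : QQ F N i (1 : ℕ → ℕ → G) := by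
  obtain ⟨P, hP, hPQ⟩ := QQ_subgroup hF N
  rw [← hPQ]
  exact (P i).one_mem

lemma QQ_iter {F : ℕ → Subgroup G} : ∀ (i j k : ℕ) (f : ℕ → ℕ → G), QQ F (i+j) k f →
    ∀ a b, (D1^[i] (D2^[j] f)) a b ∈ F (i + j + k) := by
  have h2 : ∀ (j N k : ℕ) (f : ℕ → ℕ → G), QQ F (N+j) k f → QQ F N (k+j) (D2^[j] f) := by
    intro j
    induction j with
    | zero => intro N k f hf; exact hf
    | succ j ih =>
      intro N k f hf
      rw [Function.iterate_succ_apply]
      have := ih N (k+1) (D2 f) hf.2.2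
      rwa [show k + 1 + j = k + (j + 1) by ring] at this
  have h1 : ∀ (i N k : ℕ) (f : ℕ → ℕ → G), QQ F (N+i) k f → QQ F N (k+i) (D1^[i] f) := by
    intro i
    induction i with
    | zero => intro N k f hf; exact hf
    | succ i ih =>
      intro N k f hf
      rw [Function.iterate_succ_apply]
      have := ih N (k+1) (D1 f) hf.2.1
      rwa [show k + 1 + i = k + (i + 1) by ring] at this
  intro i j k f hf a b
  have h3 := h2 j i k f hf
  have h4 := h1 i 0 (k+j) (D2^[j] f) (by rwa [zero_add])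
  have h5 := h4 a b
  rwa [show k + j + i = i + j + k by ring] at h5

/-- the basic exponents -/
def be (i j a b : ℕ) : ℕ := a.choose i * b.choose j

lemma be_succ1 (i j a b : ℕ) : be (i+1) j (a+1) b = be (i+1) j a b + be i j a b := by
  unfold be
  rw [Nat.choose_succ_succ]
  ring

lemma be_zero1 (j a b : ℕ) : be 0 j (a+1) b = be 0 j a b := by
  unfold be
  simp

lemma be_succ2 (i j a b : ℕ) : be i (j+1) a (b+1) = be i (j+1) a b + be i j a b := by
  unfold be
  rw [Nat.choose_succ_succ]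
  ring

lemma be_zero2 (i a b : ℕ) : be i 0 a (b+1) = be i 0 a b := by
  unfold be
  simp

/-- basic polynomial map -/
def bp (c : G) (i j : ℕ) : ℕ → ℕ → G := fun a b => c ^ be i j a b

lemma D1_bp_succ (c : G) (i j : ℕ) : D1 (bp c (i+1) j) = bp c i j := by
  funext a b
  show (c ^ be (i+1) j a b)⁻¹ * c ^ be (i+1) j (a+1) b = c ^ be i j a b
  rw [be_succ1, pow_add]
  group

lemma D1_bp_zero (c : G) (j : ℕ) : D1 (bp c 0 j) = 1 := by
  funext a b
  show (c ^ be 0 j a b)⁻¹ * c ^ be 0 j (a+1) b = 1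
  rw [be_zero1]
  group

lemma D2_bp_succ (c : G) (i j : ℕ) : D2 (bp c i (j+1)) = bp c i j := by
  funext a b
  show (c ^ be i (j+1) a b)⁻¹ * c ^ be i (j+1) a (b+1) = c ^ be i j a b
  rw [be_succ2, pow_add]
  group

lemma D2_bp_zero (c : G) (i : ℕ) : D2 (bp c i 0) = 1 := by
  funext a b
  show (c ^ be i 0 a b)⁻¹ * c ^ be i 0 a (b+1) = 1
  rw [be_zero2]
  group

/-- the rescaled lower central filtration -/
def fil (G : Type u) [Group G] (d : ℕ) (i : ℕ) : Subgroup G := lcs G ((i-1)/d)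

lemma isFil_fil {d : ℕ} (hd : 0 < d) : IsFil (fil G d) := by
  constructor
  · intro i j x y hx hy
    unfold fil at *
    have h := lcs_comm ((j-1)/d) ((i-1)/d) (Subgroup.commutator_mem_commutator hx hy)
    refine lcs_anti ?_ h
    have h1 := Nat.div_add_mod (i-1) d
    have h2 := Nat.div_add_mod (j-1) d
    have h3 := Nat.mod_lt (i-1) hd
    have h4 := Nat.mod_lt (j-1) hd
    have h5 : i + j - 1 < d * ((i-1)/d + (j-1)/d + 1 + 1) := by
      have : d * ((i-1)/d + (j-1)/d + 1 + 1) = d * ((i-1)/d) + d * ((j-1)/d) + d + d := by ring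
      omega
    exact Nat.lt_succ_iff.mp (Nat.div_lt_of_lt_mul h5)
  · intro i
    unfold fil
    apply lcs_anti
    exact Nat.div_le_div_right (by omega)

lemma QQ_bp {d : ℕ} (hd : 0 < d) (c : G) (N : ℕ) : ∀ i j k : ℕ, k + i + j ≤ d →
    QQ (fil G d) N k (bp c i j) := by
  induction N with
  | zero =>
    intro i j k h a b
    have : (k - 1) / d = 0 := Nat.div_eq_of_lt (by omega)
    unfold fil
    rw [this, lcs_zero]
    trivial
  | succ N ih =>
    intro i j k h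
    refine ⟨ih i j k h, ?_, ?_⟩
    · cases i with
      | zero =>
        rw [D1_bp_zero]
        exact QQ_one (isFil_fil hd)
      | succ i =>
        rw [D1_bp_succ]
        exact ih i j (k+1) (by omega)
    · cases j with
      | zero =>
        rw [D2_bp_zero]
        exact QQ_one (isFil_fil hd)
      | succ j =>
        rw [D2_bp_succ]
        exact ih i j (k+1) (by omega)

/-- a formal shape: a list of exponent indices; with a choice of base elements it gives a map -/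
def ev (L : List (G × ℕ × ℕ)) : ℕ → ℕ → G := (L.map fun p => bp p.1 p.2.1 p.2.2).prod

lemma ev_nil : ev ([] : List (G × ℕ × ℕ)) = 1 := rfl

lemma ev_cons (p : G × ℕ × ℕ) (L : List (G × ℕ × ℕ)) : ev (p :: L) = bp p.1 p.2.1 p.2.2 * ev L := rfl

lemma ev_append (L L' : List (G × ℕ × ℕ)) : ev (L ++ L') = ev L * ev L' := by
  unfold ev
  rw [List.map_append, List.prod_append]

lemma QQ_ev {d : ℕ} (hd : 0 < d) (N : ℕ) (L : List (G × ℕ × ℕ))
    (hL : ∀ p ∈ L, p.2.1 + p.2.2 ≤ d) : QQ (fil G d) N 0 (ev L) := by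
  induction L with
  | nil => exact QQ_one (isFil_fil hd)
  | cons p L ih =>
    rw [ev_cons]
    apply QQ_mul (isFil_fil hd)
    · apply QQ_bp hd
      have := hL p (by simp)
      omega
    · exact ih fun q hq => hL q (by simp [hq])

/-- high derivatives of products of basic maps are trivial -/
lemma der_ev_eq_one {n d : ℕ} (hd : 0 < d) (hn : lcs G n = ⊥) (L : List (G × ℕ × ℕ))
    (hL : ∀ p ∈ L, p.2.1 + p.2.2 ≤ d) (i j : ℕ) (hij : n * d + 1 ≤ i + j) :
    D1^[i] (D2^[j] (ev L)) = 1 := by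
  funext a b
  have h := QQ_iter i j 0 (ev L) (QQ_ev hd (i+j) L hL) a b
  unfold fil at h
  have h1 : n ≤ (i + j + 0 - 1) / d := by
    rw [Nat.le_div_iff_mul_le hd]
    omega
  have h2 := lcs_anti (G := G) h1 h
  rw [hn] at h2
  simpa using h2

end der

end Pool.Agent.Lib.Pb4ed41
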