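import Mathlib

/-!
# Local Lipschitz estimates in a Lie group
-/

open Topology Set Manifold
open scoped ContDiff

namespace Pool.Agent.Lib.Pb4ed41

section lip

variable {E : Type*} [NormedAddCommGroup E] [NormedSpace ℝ E]
  {E' : Type*} [NormedAddCommGroup E'] [NormedSpace ℝ E']
  {H : Type*} [TopologicalSpace H] {H' : Type*} [TopologicalSpace H']
  {I : ModelWithCorners ℝ E H} {I' : ModelWithCorners ℝ E' H'}
  {M : Type*} [TopologicalSpace M] [ChartedSpace H M]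
  {M' : Type*} [TopologicalSpace M'] [ChartedSpace H' M']

lemma lip_of_contMDiffAt [I.Boundaryless] {f : M → M'} {x : M} (hf : ContMDiffAt I I' 1 f x) :
    ∃ L : ℝ, 0 ≤ L ∧ ∃ N ∈ 𝓝 x, ∀ p ∈ N, ∀ q ∈ N,
      ‖extChartAt I' (f x) (f p) - extChartAt I' (f x) (f q)‖
        ≤ L * ‖extChartAt I x p - extChartAt I x q‖ := by
  have h := (contMDiffAt_iff.mp hf).2
  rw [I.range_eq_univ, contDiffWithinAt_univ] at h
  obtain ⟨K, t, ht, hK⟩ := h.exists_lipschitzOnWith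
  refine ⟨K, K.2, (extChartAt I x).source ∩ (extChartAt I x) ⁻¹' t, ?_, ?_⟩
  · exact Filter.inter_mem (extChartAt_source_mem_nhds x)
      ((continuousAt_extChartAt x).preimage_mem_nhds ht)
  · rintro p ⟨hp1, hp2⟩ q ⟨hq1, hq2⟩
    have h1 := hK.dist_le_mul _ hp2 _ hq2
    simp only [Function.comp_apply] at h1
    rw [(extChartAt I x).left_inv hp1, (extChartAt I x).left_inv hq1, dist_eq_norm,
      dist_eq_norm] at h1
    exact h1

end lip

section prod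

variable {E : Type*} [NormedAddCommGroup E] [NormedSpace ℝ E]
  {G : Type*} [TopologicalSpace G] [ChartedSpace E G]

lemma lip_prod {f : G × G → G} {c0 x0 : G}
    (hf : ContMDiffAt (𝓘(ℝ, E).prod 𝓘(ℝ, E)) 𝓘(ℝ, E) 1 f (c0, x0)) :
    ∃ L : ℝ, 0 ≤ L ∧ ∃ N ∈ 𝓝 (c0, x0), ∀ p ∈ N, ∀ q ∈ N,
      ‖extChartAt 𝓘(ℝ, E) (f (c0, x0)) (f p) - extChartAt 𝓘(ℝ, E) (f (c0, x0)) (f q)‖
        ≤ L * (‖extChartAt 𝓘(ℝ, E) c0 p.1 - extChartAt 𝓘(ℝ, E) c0 q.1‖
          + ‖extChartAt 𝓘(ℝ, E) x0 p.2 - extChartAt 𝓘(ℝ, E) x0 q.2‖) := by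
  obtain ⟨L, hL, N, hN, h⟩ := lip_of_contMDiffAt hf
  refine ⟨L, hL, N, hN, fun p hp q hq => (h p hp q hq).trans ?_⟩
  apply mul_le_mul_of_nonneg_left _ hL
  rw [extChartAt_prod]
  simp only [PartialEquiv.prod_coe]
  show ‖((_ : E), (_ : E)) - ((_ : E), (_ : E))‖ ≤ _
  rw [Prod.mk_sub_mk, Prod.norm_mk]
  exact max_le (le_add_of_nonneg_right (norm_nonneg _)) (le_add_of_nonneg_left (norm_nonneg _))

end prod

/-- a size function near the identity with Lipschitz estimates -/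
structure IsGauge {G : Type*} [Group G] [TopologicalSpace G] (nu : G → ℝ) : Prop where
  nonneg : ∀ x, 0 ≤ nu x
  one : nu 1 = 0
  eq_one : ∀ x, nu x = 0 → x = 1
  nhds : ∀ r : ℝ, 0 < r → {x | nu x < r} ∈ 𝓝 (1 : G)
  basis : ∀ U ∈ 𝓝 (1 : G), ∃ r : ℝ, 0 < r ∧ ∀ x, nu x < r → x ∈ U
  mul : ∃ L : ℝ, 1 ≤ L ∧ ∃ r : ℝ, 0 < r ∧ ∀ x y, nu x < r → nu y < r →
    nu (x * y) ≤ nu y + L * nu x ∧ nu (x * y) ≤ nu x + L * nu y
  inv : ∃ L : ℝ, 1 ≤ L ∧ ∃ r : ℝ, 0 < r ∧ ∀ x, nu x < r → nu x⁻¹ ≤ L * nu x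
  conj : ∀ K : Set G, IsCompact K → ∃ L : ℝ, 1 ≤ L ∧ ∃ r : ℝ, 0 < r ∧ ∀ c ∈ K, ∀ x, nu x < r →
    nu (c * x * c⁻¹) ≤ L * nu x
  cover : ∀ K : Set G, IsCompact K → ∃ C : ℕ, ∀ N : ℕ, 1 ≤ N → ∃ T : Finset G,
    T.card ≤ C * N ^ C ∧ (∀ s ∈ T, s ∈ K) ∧ ∀ k ∈ K, ∃ s ∈ T, nu (k * s⁻¹) ≤ 1 / N
  sq : ∃ r : ℝ, 0 < r ∧ ∀ x, nu x < r → (3/2) * nu x ≤ nu (x * x)

section grid

variable {E : Type*} [NormedAddCommGroup E] [NormedSpace ℝ E] [FiniteDimensional ℝ E]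

lemma grid (R : ℝ) : ∃ C : ℕ, ∀ N : ℕ, 1 ≤ N → ∃ (ι : Type) (_ : Fintype ι) (col : E → ι),
    Fintype.card ι ≤ C * N ^ C ∧ ∀ x y : E, ‖x‖ ≤ R → ‖y‖ ≤ R → col x = col y →
      ‖x - y‖ ≤ 1 / N := by
  classical
  set m := Module.finrank ℝ E with hm
  have hfr : Module.finrank ℝ E = Module.finrank ℝ (Fin m → ℝ) := by simp [hm]
  let e : E ≃L[ℝ] (Fin m → ℝ) := ContinuousLinearEquiv.ofFinrankEq hfr
  obtain ⟨A, hA⟩ := exists_nat_ge (‖(e.symm : (Fin m → ℝ) →L[ℝ] E)‖ + 1)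
  obtain ⟨B, hB⟩ := exists_nat_ge (‖(e : E →L[ℝ] (Fin m → ℝ))‖ * (|R| + 1))
  have hApos : (0:ℝ) < A := by
    have := norm_nonneg (e.symm : (Fin m → ℝ) →L[ℝ] E)
    linarith
  refine ⟨(2 * A * B + 1) ^ m + m, fun N hN => ?_⟩
  have hNpos : (0:ℝ) < N := by exact_mod_cast hN
  refine ⟨Fin m → Fin (2 * A * B * N + 1), inferInstance, fun x i =>
    Fin.ofNat (2 * A * B * N + 1) ⌊(A : ℝ) * N * (e x i + B)⌋₊, ?_, ?_⟩
  · rw [Fintype.card_fun, Fintype.card_fin, Fintype.card_fin]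
    calc (2 * A * B * N + 1) ^ m ≤ ((2 * A * B + 1) * N) ^ m := by
          apply Nat.pow_le_pow_left
          nlinarith
      _ = (2 * A * B + 1) ^ m * N ^ m := by rw [mul_pow]
      _ ≤ ((2 * A * B + 1) ^ m + m) * N ^ ((2 * A * B + 1) ^ m + m) := by
          apply Nat.mul_le_mul (Nat.le_add_right _ _)
          exact Nat.pow_le_pow_right hN (Nat.le_add_left _ _)
  · intro x y hx hy hxy
    have hbd : ∀ z : E, ‖z‖ ≤ R → ∀ i, |e z i| ≤ B := by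
      intro z hz i
      have h1 : ‖e z i‖ ≤ ‖e z‖ := norm_le_pi_norm (e z) i
      have h2 : ‖e z‖ ≤ ‖(e : E →L[ℝ] (Fin m → ℝ))‖ * ‖z‖ :=
        (e : E →L[ℝ] (Fin m → ℝ)).le_opNorm z
      have h3 : ‖(e : E →L[ℝ] (Fin m → ℝ))‖ * ‖z‖ ≤ ‖(e : E →L[ℝ] (Fin m → ℝ))‖ * (|R| + 1) := by
        apply mul_le_mul_of_nonneg_left _ (norm_nonneg _)
        linarith [le_abs_self R]
      rw [← Real.norm_eq_abs]
      linarith
    have hcoord : ∀ i, |e x i - e y i| ≤ 1 / (A * N) := by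
      intro i
      have hi := congrFun hxy i
      simp only at hi
      have hfl : ∀ z : E, ‖z‖ ≤ R → ⌊(A : ℝ) * N * (e z i + B)⌋₊ < 2 * A * B * N + 1 := by
        intro z hz
        have h1 := abs_le.mp (hbd z hz i)
        rw [Nat.lt_succ_iff]
        apply Nat.floor_le_of_le
        push_cast
        have h2 : e z i + B ≤ 2 * B := by linarith
        calc (A : ℝ) * N * (e z i + B) ≤ A * N * (2 * B) :=
              mul_le_mul_of_nonneg_left h2 (by positivity)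
          _ = 2 * A * B * N := by ring
      have hfx := hfl x hx
      have hfy := hfl y hy
      have heq : ⌊(A : ℝ) * N * (e x i + B)⌋₊ = ⌊(A : ℝ) * N * (e y i + B)⌋₊ := by
        have h1 := congrArg Fin.val hi
        simp only [Fin.ofNat, Nat.mod_eq_of_lt hfx, Nat.mod_eq_of_lt hfy] at h1
        exact h1
      have hpos : ∀ z : E, ‖z‖ ≤ R → 0 ≤ (A : ℝ) * N * (e z i + B) := by
        intro z hz
        have h1 := abs_le.mp (hbd z hz i)
        have : 0 ≤ e z i + B := by linarith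
        positivity
      have h1 := Nat.floor_le (hpos x hx)
      have h2 := Nat.lt_floor_add_one ((A : ℝ) * N * (e x i + B))
      have h3 := Nat.floor_le (hpos y hy)
      have h4 := Nat.lt_floor_add_one ((A : ℝ) * N * (e y i + B))
      rw [heq] at h1 h2
      have hAN : (0:ℝ) < A * N := by positivity
      have h5 : |(A : ℝ) * N * (e x i - e y i)| ≤ 1 := by
        rw [abs_le]
        constructor <;> nlinarith
      rw [abs_mul, abs_of_pos hAN] at h5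
      rw [le_div_iff₀ hAN]
      linarith
    have h6 : ‖e x - e y‖ ≤ 1 / (A * N) := by
      rw [pi_norm_le_iff_of_nonneg (by positivity)]
      intro i
      rw [Pi.sub_apply, Real.norm_eq_abs]
      exact hcoord i
    have h7 : x - y = e.symm (e x - e y) := by rw [map_sub]; simp
    calc ‖x - y‖ = ‖(e.symm : (Fin m → ℝ) →L[ℝ] E) (e x - e y)‖ := by rw [h7]; simp
      _ ≤ ‖(e.symm : (Fin m → ℝ) →L[ℝ] E)‖ * ‖e x - e y‖ := ContinuousLinearMap.le_opNorm _ _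
      _ ≤ A * (1 / (A * N)) := by
          apply mul_le_mul _ h6 (norm_nonneg _) hApos.le
          linarith
      _ = 1 / N := by field_simp

end grid

section nu

variable (E : Type*) [NormedAddCommGroup E] [NormedSpace ℝ E]
  {G : Type*} [TopologicalSpace G] [ChartedSpace E G] [Group G]

open Classical in
/-- size near the identity, in the chart at the identity -/
noncomputable def nu (x : G) : ℝ :=
  if x ∈ (extChartAt 𝓘(ℝ, E) (1 : G)).source then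
    ‖extChartAt 𝓘(ℝ, E) (1 : G) x - extChartAt 𝓘(ℝ, E) (1 : G) 1‖ else 1

lemma nu_of_mem {x : G} (hx : x ∈ (extChartAt 𝓘(ℝ, E) (1 : G)).source) :
    nu E x = ‖extChartAt 𝓘(ℝ, E) (1 : G) x - extChartAt 𝓘(ℝ, E) (1 : G) 1‖ := if_pos hx

lemma mem_of_nu_lt {x : G} (hx : nu E x < 1) : x ∈ (extChartAt 𝓘(ℝ, E) (1 : G)).source := by
  by_contra h
  unfold nu at hx
  rw [if_neg h] at hx
  exact lt_irrefl _ hx

lemma nu_nonneg (x : G) : 0 ≤ nu E x := by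
  unfold nu
  split_ifs
  · exact norm_nonneg _
  · exact zero_le_one

lemma nu_one : nu E (1 : G) = 0 := by
  rw [nu_of_mem E (mem_extChartAt_source (1:G))]
  simp

lemma nu_nhds (r : ℝ) (hr : 0 < r) : {x : G | nu E x < r} ∈ 𝓝 (1 : G) := by
  have h1 := extChartAt_source_mem_nhds (I := 𝓘(ℝ, E)) (1 : G)
  have h2 : {x : G | ‖extChartAt 𝓘(ℝ, E) (1 : G) x - extChartAt 𝓘(ℝ, E) (1 : G) 1‖ < r}
      ∈ 𝓝 (1 : G) := by
    have hc := continuousAt_extChartAt (I := 𝓘(ℝ, E)) (1 : G)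
    have := hc.preimage_mem_nhds (Metric.ball_mem_nhds _ hr)
    filter_upwards [this] with x hx
    simpa [dist_eq_norm] using hx
  filter_upwards [h1, h2] with x hx1 hx2
  rw [nu_of_mem E hx1]
  exact hx2

lemma nu_basis (U : Set G) (hU : U ∈ 𝓝 (1 : G)) : ∃ r : ℝ, 0 < r ∧ ∀ x, nu E x < r → x ∈ U := by
  have hc := continuousAt_extChartAt_symm (I := 𝓘(ℝ, E)) (1 : G)
  have h1 : (extChartAt 𝓘(ℝ, E) (1 : G)).symm ⁻¹' U ∈ 𝓝 (extChartAt 𝓘(ℝ, E) (1 : G) 1) := by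
    apply hc.preimage_mem_nhds
    rwa [extChartAt_to_inv]
  obtain ⟨r, hr, hrU⟩ := Metric.mem_nhds_iff.mp h1
  refine ⟨min r 1, lt_min hr one_pos, fun x hx => ?_⟩
  have hxs := mem_of_nu_lt E (hx.trans_le (min_le_right _ _))
  rw [nu_of_mem E hxs] at hx
  have h2 : extChartAt 𝓘(ℝ, E) (1 : G) x ∈ Metric.ball (extChartAt 𝓘(ℝ, E) (1 : G) 1) r := by
    rw [Metric.mem_ball, dist_eq_norm]
    exact hx.trans_le (min_le_left _ _)
  have h3 := hrU h2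
  rw [mem_preimage, (extChartAt 𝓘(ℝ, E) (1 : G)).left_inv hxs] at h3
  exact h3

variable [LieGroup 𝓘(ℝ, E) 1 G]

/-- basic one-sided estimate -/
lemma nu_lip {f : G × G → G} {c0 : G} (h1 : f (c0, 1) = 1)
    (hf : ContMDiffAt (𝓘(ℝ, E).prod 𝓘(ℝ, E)) 𝓘(ℝ, E) 1 f (c0, 1)) :
    ∃ L : ℝ, 1 ≤ L ∧ ∃ N ∈ 𝓝 c0, ∃ r : ℝ, 0 < r ∧ ∀ c ∈ N, ∀ x, nu E x < r →
      f (c, x) ∈ (extChartAt 𝓘(ℝ, E) (1 : G)).source ∧
      ‖extChartAt 𝓘(ℝ, E) (1 : G) (f (c, x)) - extChartAt 𝓘(ℝ, E) (1 : G) (f (c, 1))‖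
        ≤ L * nu E x := by
  obtain ⟨L, hL, N, hN, h⟩ := lip_prod hf
  rw [h1] at h
  have hsrc : f ⁻¹' (extChartAt 𝓘(ℝ, E) (1 : G)).source ∈ 𝓝 (c0, (1:G)) := by
    apply hf.continuousAt.preimage_mem_nhds
    rw [h1]
    exact extChartAt_source_mem_nhds (1 : G)
  have hN2 := Filter.inter_mem hN hsrc
  rw [nhds_prod_eq, Filter.mem_prod_iff] at hN2
  obtain ⟨N1, hN1, N2, hN2', hsub⟩ := hN2
  obtain ⟨r, hr, hrN⟩ := nu_basis E N2 hN2'
  refine ⟨max L 1, le_max_right _ _, N1, hN1, min r 1, lt_min hr one_pos, ?_⟩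
  intro c hc x hx
  have hx2 : x ∈ N2 := hrN x (hx.trans_le (min_le_left _ _))
  have hmem := hsub (mk_mem_prod hc hx2)
  have hmem1 := hsub (mk_mem_prod hc (mem_of_mem_nhds hN2'))
  refine ⟨hmem.2, ?_⟩
  have h3 := h (c, x) hmem.1 (c, 1) hmem1.1
  simp only [sub_self, norm_zero, zero_add] at h3
  have hxs := mem_of_nu_lt E (hx.trans_le (min_le_right _ _))
  rw [← nu_of_mem E hxs] at h3
  refine h3.trans ?_
  exact mul_le_mul_of_nonneg_right (le_max_left _ _) (nu_nonneg E x)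

lemma nu_eq_one (x : G) (hx : nu E x = 0) : x = 1 := by
  have hxs := mem_of_nu_lt E (show nu E x < 1 by rw [hx]; exact zero_lt_one)
  rw [nu_of_mem E hxs, norm_eq_zero, sub_eq_zero] at hx
  exact (extChartAt 𝓘(ℝ, E) (1 : G)).injOn hxs (mem_extChartAt_source (1:G)) hx

lemma nu_mul : ∃ L : ℝ, 1 ≤ L ∧ ∃ r : ℝ, 0 < r ∧ ∀ x y : G, nu E x < r → nu E y < r →
    nu E (x * y) ≤ nu E y + L * nu E x ∧ nu E (x * y) ≤ nu E x + L * nu E y := by
  have hm : ContMDiff (𝓘(ℝ, E).prod 𝓘(ℝ, E)) 𝓘(ℝ, E) 1 fun p : G × G => p.1 * p.2 :=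
    contMDiff_mul 𝓘(ℝ, E) 1
  have hm' : ContMDiff (𝓘(ℝ, E).prod 𝓘(ℝ, E)) 𝓘(ℝ, E) 1 fun p : G × G => p.2 * p.1 :=
    (contMDiff_snd).mul contMDiff_fst
  obtain ⟨L1, hL1, N1, hN1, r1, hr1, h1⟩ := nu_lip E (f := fun p : G × G => p.2 * p.1) (c0 := 1)
    (by simp) hm'.contMDiffAt
  obtain ⟨L2, hL2, N2, hN2, r2, hr2, h2⟩ := nu_lip E (f := fun p : G × G => p.1 * p.2) (c0 := 1)
    (by simp) hm.contMDiffAt
  obtain ⟨r3, hr3, h3⟩ := nu_basis E (N1 ∩ N2) (Filter.inter_mem hN1 hN2)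
  refine ⟨max L1 L2, hL1.trans (le_max_left _ _), min (min r1 r2) (min r3 1),
    lt_min (lt_min hr1 hr2) (lt_min hr3 one_pos), ?_⟩
  intro x y hx hy
  rw [lt_min_iff, lt_min_iff, lt_min_iff] at hx hy
  obtain ⟨⟨hx1, hx2⟩, hx3, hx4⟩ := hx
  obtain ⟨⟨hy1, hy2⟩, hy3, hy4⟩ := hy
  have hxN := h3 x hx3
  have hyN := h3 y hy3
  have hxs := mem_of_nu_lt E hx4
  have hys := mem_of_nu_lt E hy4
  constructor
  · obtain ⟨hs, hb⟩ := h1 y hyN.1 x hx1
    simp only [one_mul] at hs hb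
    rw [nu_of_mem E hs]
    calc ‖extChartAt 𝓘(ℝ, E) (1 : G) (x * y) - extChartAt 𝓘(ℝ, E) (1 : G) 1‖
        ≤ ‖extChartAt 𝓘(ℝ, E) (1 : G) (x * y) - extChartAt 𝓘(ℝ, E) (1 : G) y‖
          + ‖extChartAt 𝓘(ℝ, E) (1 : G) y - extChartAt 𝓘(ℝ, E) (1 : G) 1‖ :=
          norm_sub_le_norm_sub_add_norm_sub _ _ _
      _ ≤ L1 * nu E x + nu E y := by
          rw [← nu_of_mem E hys]
          exact add_le_add_left hb _
      _ ≤ nu E y + max L1 L2 * nu E x := by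
          have := mul_le_mul_of_nonneg_right (le_max_left L1 L2) (nu_nonneg E x)
          linarith
  · obtain ⟨hs, hb⟩ := h2 x hxN.2 y hy2
    simp only [mul_one] at hs hb
    rw [nu_of_mem E hs]
    calc ‖extChartAt 𝓘(ℝ, E) (1 : G) (x * y) - extChartAt 𝓘(ℝ, E) (1 : G) 1‖
        ≤ ‖extChartAt 𝓘(ℝ, E) (1 : G) (x * y) - extChartAt 𝓘(ℝ, E) (1 : G) x‖
          + ‖extChartAt 𝓘(ℝ, E) (1 : G) x - extChartAt 𝓘(ℝ, E) (1 : G) 1‖ :=
          norm_sub_le_norm_sub_add_norm_sub _ _ _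
      _ ≤ L2 * nu E y + nu E x := by
          rw [← nu_of_mem E hxs]
          exact add_le_add_left hb _
      _ ≤ nu E x + max L1 L2 * nu E y := by
          have := mul_le_mul_of_nonneg_right (le_max_right L1 L2) (nu_nonneg E y)
          linarith

lemma nu_inv : ∃ L : ℝ, 1 ≤ L ∧ ∃ r : ℝ, 0 < r ∧ ∀ x : G, nu E x < r → nu E x⁻¹ ≤ L * nu E x := by
  have hm : ContMDiff (𝓘(ℝ, E).prod 𝓘(ℝ, E)) 𝓘(ℝ, E) 1 fun p : G × G => p.2⁻¹ :=
    contMDiff_snd.inv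
  obtain ⟨L, hL, N, hN, r, hr, h⟩ := nu_lip E (f := fun p : G × G => p.2⁻¹) (c0 := 1)
    (by simp) hm.contMDiffAt
  refine ⟨L, hL, r, hr, fun x hx => ?_⟩
  obtain ⟨hs, hb⟩ := h 1 (mem_of_mem_nhds hN) x hx
  simp only [inv_one] at hs hb
  rw [nu_of_mem E hs]
  exact hb

lemma nu_conj (K : Set G) (hK : IsCompact K) : ∃ L : ℝ, 1 ≤ L ∧ ∃ r : ℝ, 0 < r ∧
    ∀ c ∈ K, ∀ x, nu E x < r → nu E (c * x * c⁻¹) ≤ L * nu E x := by
  refine hK.induction_on (p := fun K => ∃ L : ℝ, 1 ≤ L ∧ ∃ r : ℝ, 0 < r ∧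
    ∀ c ∈ K, ∀ x, nu E x < r → nu E (c * x * c⁻¹) ≤ L * nu E x) ?_ ?_ ?_ ?_
  · exact ⟨1, le_rfl, 1, one_pos, by simp⟩
  · rintro s t hst ⟨L, hL, r, hr, h⟩
    exact ⟨L, hL, r, hr, fun c hc => h c (hst hc)⟩
  · rintro s t ⟨L1, hL1, r1, hr1, h1⟩ ⟨L2, hL2, r2, hr2, h2⟩
    refine ⟨max L1 L2, hL1.trans (le_max_left _ _), min r1 r2, lt_min hr1 hr2, ?_⟩
    rintro c (hc | hc) x hx
    · refine (h1 c hc x (hx.trans_le (min_le_left _ _))).trans ?_
      exact mul_le_mul_of_nonneg_right (le_max_left _ _) (nu_nonneg E x)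
    · refine (h2 c hc x (hx.trans_le (min_le_right _ _))).trans ?_
      exact mul_le_mul_of_nonneg_right (le_max_right _ _) (nu_nonneg E x)
  · intro c0 _
    have hm : ContMDiff (𝓘(ℝ, E).prod 𝓘(ℝ, E)) 𝓘(ℝ, E) 1 fun p : G × G => p.1 * p.2 * p.1⁻¹ :=
      (contMDiff_fst.mul contMDiff_snd).mul contMDiff_fst.inv
    obtain ⟨L, hL, N, hN, r, hr, h⟩ := nu_lip E (f := fun p : G × G => p.1 * p.2 * p.1⁻¹) (c0 := c0)
      (by simp) hm.contMDiffAt
    refine ⟨N, mem_nhdsWithin_of_mem_nhds hN, L, hL, r, hr, fun c hc x hx => ?_⟩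
    obtain ⟨hs, hb⟩ := h c hc x hx
    simp only [mul_one, mul_inv_cancel] at hs hb
    rw [nu_of_mem E hs]
    exact hb

lemma nu_cover [FiniteDimensional ℝ E] (K : Set G) (hK : IsCompact K) :
    ∃ C : ℕ, ∀ N : ℕ, 1 ≤ N → ∃ T : Finset G,
      T.card ≤ C * N ^ C ∧ (∀ s ∈ T, s ∈ K) ∧ ∀ k ∈ K, ∃ s ∈ T, nu E (k * s⁻¹) ≤ 1 / N := by
  classical
  have key : ∃ C : ℕ, ∀ N : ℕ, 1 ≤ N → ∃ (ι : Type) (_ : Fintype ι) (col : G → ι),
      Fintype.card ι ≤ C * N ^ C ∧ ∀ x ∈ K, ∀ y ∈ K, col x = col y → nu E (x * y⁻¹) ≤ 1 / N := by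
    refine hK.induction_on (p := fun K => ∃ C : ℕ, ∀ N : ℕ, 1 ≤ N →
      ∃ (ι : Type) (_ : Fintype ι) (col : G → ι),
      Fintype.card ι ≤ C * N ^ C ∧ ∀ x ∈ K, ∀ y ∈ K, col x = col y → nu E (x * y⁻¹) ≤ 1 / N)
      ?_ ?_ ?_ ?_
    · exact ⟨1, fun N hN => ⟨Unit, inferInstance, fun _ => (), by simpa using hN, by simp⟩⟩
    · rintro s t hst ⟨C, h⟩
      refine ⟨C, fun N hN => ?_⟩
      obtain ⟨ι, hι, col, hc, hcol⟩ := h N hN
      exact ⟨ι, hι, col, hc, fun x hx y hy => hcol x (hst hx) y (hst hy)⟩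
    · rintro s t ⟨C1, h1⟩ ⟨C2, h2⟩
      refine ⟨C1 + C2, fun N hN => ?_⟩
      obtain ⟨ι1, hι1, col1, hc1, hcol1⟩ := h1 N hN
      obtain ⟨ι2, hι2, col2, hc2, hcol2⟩ := h2 N hN
      refine ⟨ι1 ⊕ ι2, inferInstance, fun x => if x ∈ s then Sum.inl (col1 x) else Sum.inr (col2 x),
        ?_, ?_⟩
      · rw [Fintype.card_sum]
        have e1 : N ^ C1 ≤ N ^ (C1 + C2) := Nat.pow_le_pow_right hN (Nat.le_add_right _ _)
        have e2 : N ^ C2 ≤ N ^ (C1 + C2) := Nat.pow_le_pow_right hN (Nat.le_add_left _ _)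
        calc Fintype.card ι1 + Fintype.card ι2 ≤ C1 * N ^ C1 + C2 * N ^ C2 := add_le_add hc1 hc2
          _ ≤ C1 * N ^ (C1+C2) + C2 * N ^ (C1+C2) :=
              add_le_add (Nat.mul_le_mul_left _ e1) (Nat.mul_le_mul_left _ e2)
          _ = (C1 + C2) * N ^ (C1 + C2) := by ring
      · intro x hx y hy hxy
        by_cases hxs : x ∈ s
        · by_cases hys : y ∈ s
          · simp only [hxs, hys, if_true] at hxy
            exact hcol1 x hxs y hys (Sum.inl_injective hxy)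
          · simp [hxs, hys] at hxy
        · by_cases hys : y ∈ s
          · simp [hxs, hys] at hxy
          · simp only [hxs, hys, if_false] at hxy
            exact hcol2 x (hx.resolve_left hxs) y (hy.resolve_left hys) (Sum.inr_injective hxy)
    · intro k0 _
      have hm : ContMDiff (𝓘(ℝ, E).prod 𝓘(ℝ, E)) 𝓘(ℝ, E) 1 fun p : G × G => p.1 * p.2⁻¹ :=
        contMDiff_fst.mul contMDiff_snd.inv
      obtain ⟨L, hL, N, hN, h⟩ := lip_prod (c0 := k0) (x0 := k0) (hm.contMDiffAt)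
      simp only [mul_inv_cancel] at h
      have hsrc : (fun p : G × G => p.1 * p.2⁻¹) ⁻¹' (extChartAt 𝓘(ℝ, E) (1 : G)).source
          ∈ 𝓝 (k0, k0) := by
        apply hm.continuous.continuousAt.preimage_mem_nhds
        simp only [mul_inv_cancel]
        exact extChartAt_source_mem_nhds (1 : G)
      have hN2 := Filter.inter_mem hN hsrc
      rw [nhds_prod_eq, Filter.mem_prod_iff] at hN2
      obtain ⟨N1, hN1, N2, hN2', hsub⟩ := hN2
      have hbd : {x : G | ‖extChartAt 𝓘(ℝ, E) k0 x‖ < ‖extChartAt 𝓘(ℝ, E) k0 k0‖ + 1} ∈ 𝓝 k0 := by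
        have hc := (continuousAt_extChartAt (I := 𝓘(ℝ, E)) k0).norm
        exact hc.eventually_lt continuousAt_const (by linarith)
      obtain ⟨C, hC⟩ := grid (E := E) (‖extChartAt 𝓘(ℝ, E) k0 k0‖ + 1)
      obtain ⟨A, hA⟩ := exists_nat_ge (L + 1)
      have hA1 : 1 ≤ A := by
        have : (1:ℝ) ≤ A := by linarith
        exact_mod_cast this
      refine ⟨(N1 ∩ N2) ∩ {x : G | ‖extChartAt 𝓘(ℝ, E) k0 x‖ < ‖extChartAt 𝓘(ℝ, E) k0 k0‖ + 1},
        mem_nhdsWithin_of_mem_nhds (Filter.inter_mem (Filter.inter_mem hN1 hN2') hbd),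
        C * A ^ C + C, fun M hM => ?_⟩
      obtain ⟨ι, hι, col, hcc, hcol⟩ := hC (A * M) (Nat.mul_pos hA1 hM)
      refine ⟨ι, hι, fun x => col (extChartAt 𝓘(ℝ, E) k0 x), ?_, ?_⟩
      · calc Fintype.card ι ≤ C * (A * M) ^ C := hcc
          _ = C * A ^ C * M ^ C := by rw [mul_pow]; ring
          _ ≤ (C * A ^ C + C) * M ^ (C * A ^ C + C) := by
              apply Nat.mul_le_mul (Nat.le_add_right _ _)
              exact Nat.pow_le_pow_right hM (Nat.le_add_left _ _)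
      · rintro x ⟨⟨hx1, hx2⟩, hx3⟩ y ⟨⟨hy1, hy2⟩, hy3⟩ hxy
        have h1 := hcol _ _ (le_of_lt hx3) (le_of_lt hy3) hxy
        have hmem := hsub (mk_mem_prod hx1 hy2)
        have hmem' := hsub (mk_mem_prod hy1 hy2)
        have h2 := h (x, y) hmem.1 (y, y) hmem'.1
        simp only [sub_self, norm_zero, add_zero, mul_inv_cancel] at h2
        rw [nu_of_mem E hmem.2]
        refine h2.trans ?_
        have hMpos : (0:ℝ) < M := by exact_mod_cast hM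
        have hApos : (0:ℝ) < A := by exact_mod_cast hA1
        calc L * ‖extChartAt 𝓘(ℝ, E) k0 x - extChartAt 𝓘(ℝ, E) k0 y‖ ≤ A * (1 / ((A * M : ℕ) : ℝ)) := by
              apply mul_le_mul (by linarith) h1 (norm_nonneg _) hApos.le
          _ = 1 / M := by push_cast; field_simp
  obtain ⟨C, hC⟩ := key
  refine ⟨C, fun N hN => ?_⟩
  obtain ⟨ι, hι, col, hcc, hcol⟩ := hC N hN
  have hch : ∀ i : ι, ∃ s : G, (∃ k ∈ K, col k = i) → s ∈ K ∧ col s = i := by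
    intro i
    by_cases hi : ∃ k ∈ K, col k = i
    · obtain ⟨k, hk, hki⟩ := hi
      exact ⟨k, fun _ => ⟨hk, hki⟩⟩
    · exact ⟨1, fun h => absurd h hi⟩
  choose s hs using hch
  refine ⟨(Finset.univ.filter fun i : ι => ∃ k ∈ K, col k = i).image s, ?_, ?_, ?_⟩
  · refine Finset.card_image_le.trans ((Finset.card_filter_le _ _).trans ?_)
    rw [Finset.card_univ]
    exact hcc
  · intro x hx
    rw [Finset.mem_image] at hx
    obtain ⟨i, hi, rfl⟩ := hx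
    rw [Finset.mem_filter] at hi
    exact (hs i hi.2).1
  · intro k hk
    have hk' : ∃ k' ∈ K, col k' = col k := ⟨k, hk, rfl⟩
    refine ⟨s (col k), ?_, ?_⟩
    · rw [Finset.mem_image]
      exact ⟨col k, by rw [Finset.mem_filter]; exact ⟨Finset.mem_univ _, hk'⟩, rfl⟩
    · exact hcol k hk _ (hs _ hk').1 (hs _ hk').2.symm

lemma nu_sq : ∃ r : ℝ, 0 < r ∧ ∀ x : G, nu E x < r → (3/2) * nu E x ≤ nu E (x * x) := by
  have hm : ContMDiff (𝓘(ℝ, E).prod 𝓘(ℝ, E)) 𝓘(ℝ, E) 1 fun p : G × G => p.1 * p.2 :=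
    contMDiff_mul 𝓘(ℝ, E) 1
  have h0 := (contMDiffAt_iff.mp (hm.contMDiffAt (x := ((1:G), (1:G))))).2
  rw [ModelWithCorners.range_eq_univ, contDiffWithinAt_univ, extChartAt_prod] at h0
  simp only [mul_one] at h0
  set φ := extChartAt 𝓘(ℝ, E) (1 : G) with hφ
  set u0 := φ 1 with hu0
  set M : E × E → E := φ ∘ (fun p : G × G => p.1 * p.2) ∘ (φ.prod φ).symm with hM
  have hpt : (φ.prod φ) ((1:G), (1:G)) = (u0, u0) := rfl
  rw [hpt] at h0
  obtain ⟨M', hM'⟩ := (h0.differentiableAt one_ne_zero)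
  have hMv : ∀ u v : E, M (u, v) = φ (φ.symm u * φ.symm v) := fun u v => rfl
  have htarget : ∀ᶠ u in 𝓝 u0, u ∈ φ.target := extChartAt_target_mem_nhds (1 : G)
  have hsymm0 : φ.symm u0 = 1 := extChartAt_to_inv (1 : G)
  -- partial derivatives
  have hinl : ∀ v : E, M' (v, 0) = v := by
    have h1 : HasFDerivAt (fun u : E => M (u, u0)) (M'.comp (ContinuousLinearMap.inl ℝ E E)) u0 := by
      have h2 : HasFDerivAt (fun u : E => (u, u0)) (ContinuousLinearMap.inl ℝ E E) u0 :=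
        hasFDerivAt_prodMk_left u0 u0
      exact HasFDerivAt.comp (g := M) (f := fun u : E => (u, u0)) u0 hM' h2
    have h3 : (fun u : E => M (u, u0)) =ᶠ[𝓝 u0] id := by
      filter_upwards [htarget] with u hu
      rw [hMv, hsymm0, mul_one, φ.right_inv hu]
      rfl
    have h4 : HasFDerivAt (fun u : E => M (u, u0)) (ContinuousLinearMap.id ℝ E) u0 :=
      (hasFDerivAt_id u0).congr_of_eventuallyEq h3
    have h5 := h1.unique h4
    intro v
    have := congrArg (fun T : E →L[ℝ] E => T v) h5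
    simpa using this
  have hinr : ∀ v : E, M' (0, v) = v := by
    have h1 : HasFDerivAt (fun u : E => M (u0, u)) (M'.comp (ContinuousLinearMap.inr ℝ E E)) u0 := by
      have h2 : HasFDerivAt (fun u : E => (u0, u)) (ContinuousLinearMap.inr ℝ E E) u0 :=
        hasFDerivAt_prodMk_right u0 u0
      exact HasFDerivAt.comp (g := M) (f := fun u : E => (u0, u)) u0 hM' h2
    have h3 : (fun u : E => M (u0, u)) =ᶠ[𝓝 u0] id := by
      filter_upwards [htarget] with u hu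
      rw [hMv, hsymm0, one_mul, φ.right_inv hu]
      rfl
    have h4 : HasFDerivAt (fun u : E => M (u0, u)) (ContinuousLinearMap.id ℝ E) u0 :=
      (hasFDerivAt_id u0).congr_of_eventuallyEq h3
    have h5 := h1.unique h4
    intro v
    have := congrArg (fun T : E →L[ℝ] E => T v) h5
    simpa using this
  have hdiag : ∀ v : E, M' (v, v) = (2:ℝ) • v := by
    intro v
    have : ((v, v) : E × E) = (v, 0) + (0, v) := by simp
    rw [this, map_add, hinl, hinr, two_smul]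
  have hlo := hM'.isLittleO
  have hlo2 := hlo.def (show (0:ℝ) < 1/2 by norm_num)
  have hdc : Filter.Tendsto (fun u : E => (u, u)) (𝓝 u0) (𝓝 (u0, u0)) := by
    have : Continuous fun u : E => (u, u) := by fun_prop
    exact this.tendsto u0
  have hev := hdc.eventually hlo2
  have hphi : Filter.Tendsto φ (𝓝 (1:G)) (𝓝 u0) := continuousAt_extChartAt (I := 𝓘(ℝ, E)) (1 : G)
  have hev2 := hphi.eventually hev
  have hsrc1 : ∀ᶠ x in 𝓝 (1:G), x ∈ φ.source := extChartAt_source_mem_nhds (1 : G)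
  have hsq : ∀ᶠ x in 𝓝 (1:G), x * x ∈ φ.source := by
    have hcm : ContinuousAt (fun x : G => x * x) 1 := by
      have := hm.continuous.comp (show Continuous fun x : G => (x, x) by fun_prop)
      exact this.continuousAt
    apply hcm.preimage_mem_nhds
    rw [mul_one]
    exact extChartAt_source_mem_nhds (1 : G)
  obtain ⟨r, hr, hrU⟩ := nu_basis E _ (hev2.and (hsrc1.and hsq))
  refine ⟨r, hr, fun x hx => ?_⟩
  obtain ⟨h1, h2, h3⟩ := hrU x hx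
  rw [nu_of_mem E h2, nu_of_mem E h3]
  rw [hMv, hMv, φ.left_inv h2, hsymm0, mul_one] at h1
  have e1 : ((φ x, φ x) : E × E) - (u0, u0) = (φ x - u0, φ x - u0) := rfl
  rw [e1, hdiag] at h1
  have e2 : ‖((φ x - u0, φ x - u0) : E × E)‖ = ‖φ x - u0‖ := by
    rw [Prod.norm_mk, max_self]
  rw [e2] at h1
  have h4 : ‖(2:ℝ) • (φ x - u0)‖ = 2 * ‖φ x - u0‖ := by
    rw [norm_smul]; norm_num
  have h5 : ‖(2:ℝ) • (φ x - u0)‖ ≤ ‖φ (x * x) - φ 1‖ + ‖φ (x * x) - φ 1 - (2:ℝ) • (φ x - u0)‖ := by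
    have : (2:ℝ) • (φ x - u0) = (φ (x * x) - φ 1) - (φ (x * x) - φ 1 - (2:ℝ) • (φ x - u0)) := by
      abel
    conv_lhs => rw [this]
    exact norm_sub_le _ _
  rw [h4] at h5
  show 3 / 2 * ‖φ x - u0‖ ≤ ‖φ (x * x) - φ 1‖
  linarith

theorem isGauge_nu [FiniteDimensional ℝ E] : IsGauge (nu E : G → ℝ) where
  nonneg := nu_nonneg E
  one := nu_one E
  eq_one := nu_eq_one E
  nhds := nu_nhds E
  basis := nu_basis E
  mul := nu_mul E
  inv := nu_inv E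
  conj := nu_conj E
  cover := nu_cover E
  sq := nu_sq E

end nu

end Pool.Agent.Lib.Pb4ed41
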