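import Mathlib

/-!
# Rationality of the centre for groups without small subgroups

`GoodPair G Γ`: the subgroup `Γ` is discrete, cocompact and finitely generated in the topological
group `G`, and `G` has no small subgroups.  For nilpotent `G` the centre of `G` is then cocompactly
met by `Γ`, and the pair passes to the quotient by the centre.
-/

open Topology Set

namespace Pool.Agent.Lib.Pb4ed41

universe u

/-- standing hypotheses on a group and a discrete cocompact subgroup -/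
structure GoodPair (G : Type u) [Group G] [TopologicalSpace G] (Γ : Subgroup G) : Prop where
  discrete : ∃ U ∈ 𝓝 (1:G), ∀ x ∈ U, x ∈ Γ → x = 1
  cocompact : ∃ K : Set G, IsCompact K ∧ ∀ g : G, ∃ k ∈ K, ∃ γ ∈ Γ, g = k * γ
  fg : ∃ S : Set G, S.Finite ∧ Subgroup.closure S = Γ
  nss : ∃ U ∈ 𝓝 (1:G), ∀ x : G, (∀ n : ℕ, x ^ n ∈ U) → x = 1

section

variable {G : Type u} [Group G] [TopologicalSpace G] [IsTopologicalGroup G]

lemma finite_inter {Γ : Subgroup G} (hd : ∃ U ∈ 𝓝 (1:G), ∀ x ∈ U, x ∈ Γ → x = 1) {K : Set G}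
    (hK : IsCompact K) : ((Γ : Set G) ∩ K).Finite := by
  obtain ⟨U, hU, hU1⟩ := hd
  obtain ⟨V, hV, hV1⟩ := exists_nhds_split_inv hU
  obtain ⟨t, ht, hcov⟩ := hK.elim_nhds_subcover (fun x => {y | y * x⁻¹ ∈ V}) (fun x _ => by
    have : Filter.Tendsto (fun y => y * x⁻¹) (𝓝 x) (𝓝 1) := by
      have h : Continuous fun y : G => y * x⁻¹ := by fun_prop
      simpa using h.tendsto x
    exact this hV)
  have hsub : ((Γ : Set G) ∩ K) ⊆ ⋃ x ∈ t, ((Γ : Set G) ∩ {y | y * x⁻¹ ∈ V}) := by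
    rintro y ⟨hy, hyK⟩
    obtain ⟨x, hx, hxy⟩ := mem_iUnion₂.mp (hcov hyK)
    exact mem_iUnion₂.mpr ⟨x, hx, hy, hxy⟩
  refine Set.Finite.subset (Set.Finite.biUnion t.finite_toSet fun x _ => ?_) hsub
  apply Set.Subsingleton.finite
  rintro y ⟨hy, hyV⟩ z ⟨hz, hzV⟩
  have h1 := hV1 _ hyV _ hzV
  have h2 : y * x⁻¹ / (z * x⁻¹) = y * z⁻¹ := by rw [div_eq_mul_inv]; group
  rw [h2] at h1
  have h3 := hU1 _ h1 (Γ.mul_mem hy (Γ.inv_mem hz))
  exact mul_inv_eq_one.mp h3

/-- iterated commutator with `g` -/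
def itc (g : G) (j : ℕ) (x : G) : G := (fun x => g * x * g⁻¹ * x⁻¹)^[j] x

omit [TopologicalSpace G] [IsTopologicalGroup G] in
lemma itc_zero (g x : G) : itc g 0 x = x := rfl

omit [TopologicalSpace G] [IsTopologicalGroup G] in
lemma itc_succ (g : G) (j : ℕ) (x : G) :
    itc g (j+1) x = g * itc g j x * g⁻¹ * (itc g j x)⁻¹ := by
  unfold itc
  rw [Function.iterate_succ_apply']

omit [TopologicalSpace G] [IsTopologicalGroup G] in
lemma itc_mem (g x : G) (j : ℕ) : itc g j x ∈ (⊤ : Subgroup G).lowerCentralSeries j := by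
  induction j with
  | zero => simp
  | succ j ih =>
    rw [itc_succ, Subgroup.lowerCentralSeries_succ, Subgroup.commutator_comm]
    have := Subgroup.commutator_mem_commutator (Subgroup.mem_top g) ih
    rwa [commutatorElement_def] at this

omit [TopologicalSpace G] [IsTopologicalGroup G] in
lemma itc_nil [hn : Group.IsNilpotent G] : ∃ n : ℕ, ∀ g x : G, itc g n x = 1 := by
  obtain ⟨n, hn⟩ := Subgroup.nilpotent_iff_lowerCentralSeries.mp hn
  refine ⟨n, fun g x => ?_⟩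
  have := itc_mem g x n
  rw [hn] at this
  simpa using this

omit [TopologicalSpace G] [IsTopologicalGroup G] in
lemma conj_pow_of_comm {g x : G} (h : g * (g * x * g⁻¹ * x⁻¹) * g⁻¹ * (g * x * g⁻¹ * x⁻¹)⁻¹ = 1)
    (n : ℕ) : g ^ n * x * (g ^ n)⁻¹ * x⁻¹ = (g * x * g⁻¹ * x⁻¹) ^ n := by
  set e := g * x * g⁻¹ * x⁻¹ with he
  have hc : g * e = e * g := by
    have : g * e * g⁻¹ = e := mul_inv_eq_one.mp h
    calc g * e = g * e * g⁻¹ * g := by group
      _ = e * g := by rw [this]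
  have hgx : g * x = e * x * g := by rw [he]; group
  have hk : ∀ n : ℕ, g ^ n * x = e ^ n * x * g ^ n := by
    intro n
    induction n with
    | zero => simp
    | succ n ih =>
      have hcn : g * e ^ n = e ^ n * g := ((show Commute g e from hc).pow_right n).eq
      calc g ^ (n+1) * x = g * (g ^ n * x) := by rw [pow_succ', mul_assoc]
        _ = g * (e ^ n * x * g ^ n) := by rw [ih]
        _ = (g * e ^ n) * x * g ^ n := by group
        _ = e ^ n * (g * x) * g ^ n := by rw [hcn]; group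
        _ = e ^ n * (e * x * g) * g ^ n := by rw [hgx]
        _ = e ^ (n+1) * x * g ^ (n+1) := by
            rw [pow_succ, pow_succ' g]; group
  rw [hk n]
  group

omit [TopologicalSpace G] [IsTopologicalGroup G] in
/-- if all iterated commutators that commute with `g` are killed, then `g` and `x` commute -/
lemma comm_of_small [Group.IsNilpotent G] (g x : G)
    (h : ∀ j : ℕ, (∀ n : ℕ, g ^ n * itc g j x * (g ^ n)⁻¹ * (itc g j x)⁻¹ = (itc g (j+1) x) ^ n) →
      itc g (j+1) x = 1) : g * x = x * g := by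
  obtain ⟨n, hn⟩ := itc_nil (G := G)
  have key : ∀ m : ℕ, itc g (m+1) x = 1 → itc g 1 x = 1 := by
    intro m
    induction m with
    | zero => exact fun h => h
    | succ m ih =>
      intro hm
      apply ih
      apply h m
      intro k
      have h1 : g * (g * itc g m x * g⁻¹ * (itc g m x)⁻¹) * g⁻¹ *
          (g * itc g m x * g⁻¹ * (itc g m x)⁻¹)⁻¹ = 1 := by
        rw [← itc_succ, ← itc_succ]
        exact hm
      rw [conj_pow_of_comm h1, itc_succ]
  have h1 : itc g 1 x = 1 := by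
    apply key n
    rw [itc_succ, hn]
    group
  rw [itc_succ, itc_zero] at h1
  have h2 : g * x * g⁻¹ = x := mul_inv_eq_one.mp h1
  calc g * x = g * x * g⁻¹ * g := by group
    _ = x * g := by rw [h2]

lemma iter_small (n : ℕ) : ∀ U ∈ 𝓝 (1:G), ∃ V ∈ 𝓝 (1:G), ∀ c g : G, (∀ h, h * c * h⁻¹ ∈ V) →
    ∀ j ≤ n, ∀ h, h * itc g j c * h⁻¹ ∈ U := by
  induction n with
  | zero =>
    intro U hU
    refine ⟨U, hU, fun c g hc j hj h => ?_⟩
    obtain rfl : j = 0 := by omega
    exact hc h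
  | succ n ih =>
    intro U hU
    obtain ⟨V1, hV1, hs⟩ := exists_nhds_split_inv hU
    obtain ⟨V, hV, hV2⟩ := ih (V1 ∩ U) (Filter.inter_mem hV1 hU)
    refine ⟨V, hV, fun c g hc j hj h => ?_⟩
    rcases Nat.lt_or_ge n j with hlt | hle
    · obtain rfl : j = n + 1 := by omega
      rw [itc_succ]
      have h1 := (hV2 c g hc n le_rfl (h * g)).1
      have h2 := (hV2 c g hc n le_rfl h).1
      have h3 := hs _ h1 _ h2
      rw [div_eq_mul_inv] at h3
      convert h3 using 1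
      group
    · exact (hV2 c g hc j hle h).2

variable [T2Space G] [LocallyCompactSpace G]

omit [T2Space G] [LocallyCompactSpace G] in
lemma conj_tube {K : Set G} (hK : IsCompact K) {V : Set G} (hV : V ∈ 𝓝 (1:G)) :
    ∃ O ∈ 𝓝 (1:G), ∀ c ∈ O, ∀ k ∈ K, k * c * k⁻¹ ∈ V := by
  have := hK.eventually_forall_of_forall_eventually (x₀ := (1:G)) (P := fun c k => k * c * k⁻¹ ∈ V)
    (by
      intro y _
      have hc : Continuous fun z : G × G => z.2 * z.1 * z.2⁻¹ := by fun_prop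
      have ht := hc.tendsto ((1:G), y)
      simp only [mul_one, mul_inv_cancel] at ht
      exact ht hV)
  exact ⟨_, this, fun c hc k hk => hc k hk⟩

omit [T2Space G] [LocallyCompactSpace G] in
lemma comm_tube {K : Set G} (hK : IsCompact K) {V : Set G} (hV : V ∈ 𝓝 (1:G)) :
    ∃ O ∈ 𝓝 (1:G), ∀ c ∈ O, ∀ k ∈ K, c * k * c⁻¹ * k⁻¹ ∈ V := by
  have := hK.eventually_forall_of_forall_eventually (x₀ := (1:G))
    (P := fun c k => c * k * c⁻¹ * k⁻¹ ∈ V)
    (by
      intro y _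
      have hc : Continuous fun z : G × G => z.1 * z.2 * z.1⁻¹ * z.2⁻¹ := by fun_prop
      have ht := hc.tendsto ((1:G), y)
      simp only [one_mul, inv_one, mul_one, mul_inv_cancel] at ht
      exact ht hV)
  exact ⟨_, this, fun c hc k hk => hc k hk⟩

omit [LocallyCompactSpace G] in
/-- the centralizer of `Γ` is cocompactly met by `Γ` -/
lemma centralizer_cocompact {Γ : Subgroup G} (hG : GoodPair G Γ) :
    ∃ K : Set G, IsCompact K ∧ K ⊆ Subgroup.centralizer (Γ : Set G) ∧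
      ∀ c ∈ Subgroup.centralizer (Γ : Set G), ∃ k ∈ K, ∃ γ ∈ Γ,
        γ ∈ Subgroup.centralizer (Γ : Set G) ∧ c = k * γ := by
  classical
  obtain ⟨S, hSf, hS⟩ := hG.fg
  obtain ⟨K, hK, hKΓ⟩ := hG.cocompact
  have hSΓ : ∀ s : S, (s : G) ∈ Γ := fun s => by rw [← hS]; exact Subgroup.subset_closure s.2
  have : Finite S := hSf
  set A : S → Set G := fun s => (Γ : Set G) ∩ ((fun k => k⁻¹ * (s : G) * k) '' K) with hA
  have hAf : ∀ s, (A s).Finite := by
    intro s
    apply finite_inter hG.discrete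
    exact hK.image (by fun_prop)
  have hpi : {f : S → G | ∀ s, f s ∈ A s}.Finite := Set.Finite.pi' hAf
  set R : Set (S → G) := {f | (∀ s, f s ∈ A s) ∧ ∃ γ ∈ Γ, ∀ s : S, f s = γ⁻¹ * (s : G) * γ} with hR
  have hRf : R.Finite := hpi.subset fun f hf => hf.1
  have hch : ∀ f : S → G, ∃ γ : G, f ∈ R → γ ∈ Γ ∧ ∀ s : S, f s = γ⁻¹ * (s : G) * γ := by
    intro f
    by_cases hf : f ∈ R
    · obtain ⟨_, γ, hγ, h⟩ := hf
      exact ⟨γ, fun _ => ⟨hγ, h⟩⟩
    · exact ⟨1, fun h => absurd h hf⟩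
  choose gam hgam using hch
  set KC : Set G := (⋃ f ∈ R, (fun k => k * (gam f)⁻¹) '' K) ∩ Subgroup.centralizer (Γ : Set G)
    with hKC
  refine ⟨KC, ?_, fun x hx => hx.2, ?_⟩
  · apply IsCompact.inter_right
    · exact hRf.isCompact_biUnion fun f _ => hK.image (by fun_prop)
    · exact Set.isClosed_centralizer _
  · intro c hc
    obtain ⟨k, hk, γ, hγ, hckγ⟩ := hKΓ c
    have hcs : ∀ s : S, (s : G) * c = c * s := fun s => hc _ (hSΓ s)
    have hkc : k = c * γ⁻¹ := by rw [hckγ]; group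
    have hks : ∀ s : S, k⁻¹ * (s : G) * k = γ * (s : G) * γ⁻¹ := by
      intro s
      have h1 := hcs s
      calc k⁻¹ * (s : G) * k = γ * c⁻¹ * (s * c) * γ⁻¹ := by rw [hkc]; group
        _ = γ * (s : G) * γ⁻¹ := by rw [h1]; group
    set f : S → G := fun s => k⁻¹ * (s : G) * k with hf
    have hfR : f ∈ R := by
      refine ⟨fun s => ⟨?_, ⟨k, hk, rfl⟩⟩, γ⁻¹, Γ.inv_mem hγ, fun s => ?_⟩
      · show k⁻¹ * (s : G) * k ∈ Γ
        rw [hks s]
        exact Γ.mul_mem (Γ.mul_mem hγ (hSΓ s)) (Γ.inv_mem hγ)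
      · show k⁻¹ * (s : G) * k = _
        rw [hks s]
        group
    obtain ⟨hg1, hg2⟩ := hgam f hfR
    have hcen : k * (gam f)⁻¹ ∈ Subgroup.centralizer (Γ : Set G) := by
      rw [← hS, Subgroup.centralizer_closure]
      intro s hs
      have h2 : k⁻¹ * s * k = (gam f)⁻¹ * s * gam f := hg2 ⟨s, hs⟩
      calc s * (k * (gam f)⁻¹) = k * (k⁻¹ * s * k) * (gam f)⁻¹ := by group
        _ = k * (gam f)⁻¹ * s := by rw [h2]; group
    refine ⟨k * (gam f)⁻¹, ⟨mem_iUnion₂.mpr ⟨f, hfR, ⟨k, hk, rfl⟩⟩, hcen⟩, gam f * γ,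
      Γ.mul_mem hg1 hγ, ?_, ?_⟩
    · have : gam f * γ = (k * (gam f)⁻¹)⁻¹ * c := by rw [hckγ]; group
      rw [this]
      exact Subgroup.mul_mem _ (Subgroup.inv_mem _ hcen) hc
    · rw [hckγ]; group

omit [T2Space G] [LocallyCompactSpace G] in
/-- small elements centralizing `Γ` are central -/
lemma small_central [Group.IsNilpotent G] {Γ : Subgroup G} (hG : GoodPair G Γ) :
    ∃ O ∈ 𝓝 (1:G), ∀ c ∈ O, c ∈ Subgroup.centralizer (Γ : Set G) → c ∈ Subgroup.center G := by
  obtain ⟨K, hK, hKΓ⟩ := hG.cocompact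
  obtain ⟨U, hU, hnss⟩ := hG.nss
  obtain ⟨U', hU', hsplit⟩ := exists_nhds_split_inv hU
  obtain ⟨n, hn⟩ := itc_nil (G := G)
  obtain ⟨V, hV, hVn⟩ := iter_small (G := G) n U' hU'
  obtain ⟨O, hO, hOK⟩ := conj_tube hK hV
  refine ⟨O, hO, fun c hcO hc => ?_⟩
  have hconj : ∀ h : G, h * c * h⁻¹ ∈ V := by
    intro h
    obtain ⟨k, hk, γ, hγ, rfl⟩ := hKΓ h
    have h1 : γ * c = c * γ := hc γ hγ
    have h2 : k * γ * c * (k * γ)⁻¹ = k * c * k⁻¹ := by
      calc k * γ * c * (k * γ)⁻¹ = k * (γ * c) * γ⁻¹ * k⁻¹ := by group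
        _ = k * c * k⁻¹ := by rw [h1]; group
    rw [h2]
    exact hOK c hcO k hk
  rw [Subgroup.mem_center_iff]
  intro g
  apply comm_of_small g c
  intro j hj
  apply hnss
  intro m
  rw [← hj m]
  rcases Nat.lt_or_ge n j with hlt | hle
  · -- the commutators are already trivial
    have h1 : itc g j c = 1 := by
      obtain ⟨i, rfl⟩ := Nat.exists_eq_add_of_lt hlt
      have : ∀ i, itc g (n + i) c = 1 := by
        intro i
        induction i with
        | zero => exact hn g c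
        | succ i ih => rw [← add_assoc, itc_succ, ih]; group
      rw [show n + i + 1 = n + (i+1) by ring]
      exact this (i+1)
    rw [h1]
    simpa using mem_of_mem_nhds hU
  · have h1 := hVn c g hconj j hle (g ^ m)
    have h2 := hVn c g hconj j hle 1
    have h3 := hsplit _ h1 _ h2
    rw [div_eq_mul_inv] at h3
    convert h3 using 1
    group

omit [LocallyCompactSpace G] in
lemma isClosed_center : IsClosed (Subgroup.center G : Set G) := by
  have : (Subgroup.center G : Set G) = ⋂ g : G, {z | g * z = z * g} := by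
    ext z
    simp only [SetLike.mem_coe, Subgroup.mem_center_iff, mem_iInter, mem_ofPred_eq]
  rw [this]
  exact isClosed_iInter fun g => isClosed_eq (by fun_prop) (by fun_prop)

/-- the centre is cocompactly met by `Γ` -/
lemma center_cocompact [Group.IsNilpotent G] {Γ : Subgroup G} (hG : GoodPair G Γ) :
    ∃ K : Set G, IsCompact K ∧ K ⊆ Subgroup.center G ∧
      ∀ z ∈ Subgroup.center G, ∃ k ∈ K, ∃ γ ∈ Γ, z = k * γ := by
  classical
  obtain ⟨KC, hKC, hKCs, hKCc⟩ := centralizer_cocompact hG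
  obtain ⟨O, hO, hOc⟩ := small_central hG
  obtain ⟨O', hO', hO's, hO'c⟩ := local_compact_nhds hO
  obtain ⟨t, ht, hcov⟩ := hKC.elim_nhds_subcover (fun x => {y | y * x⁻¹ ∈ O'}) (fun x _ => by
    have : Filter.Tendsto (fun y => y * x⁻¹) (𝓝 x) (𝓝 1) := by
      have h : Continuous fun y : G => y * x⁻¹ := by fun_prop
      simpa using h.tendsto x
    exact this hO')
  have hch : ∀ x : G, ∃ δ : G, (∃ γ ∈ Γ, x * γ ∈ Subgroup.center G) →
      δ ∈ Γ ∧ x * δ ∈ Subgroup.center G := by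
    intro x
    by_cases hx : ∃ γ ∈ Γ, x * γ ∈ Subgroup.center G
    · obtain ⟨γ, hγ, h⟩ := hx
      exact ⟨γ, fun _ => ⟨hγ, h⟩⟩
    · exact ⟨1, fun h => absurd h hx⟩
  choose del hdel using hch
  refine ⟨(⋃ x ∈ t, (fun o => o * (x * del x)) '' O') ∩ Subgroup.center G, ?_, fun x hx => hx.2, ?_⟩
  · apply IsCompact.inter_right
    · exact t.finite_toSet.isCompact_biUnion fun x _ => hO'c.image (by fun_prop)
    · exact isClosed_center
  · intro z hz
    have hzC : z ∈ Subgroup.centralizer (Γ : Set G) := fun g _ => Subgroup.mem_center_iff.mp hz g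
    obtain ⟨k, hk, γ, hγ, hγC, hzk⟩ := hKCc z hzC
    obtain ⟨x, hx, hkx⟩ := mem_iUnion₂.mp (hcov hk)
    simp only [mem_ofPred_eq] at hkx
    have hoC : k * x⁻¹ ∈ Subgroup.centralizer (Γ : Set G) :=
      Subgroup.mul_mem _ (hKCs hk) (Subgroup.inv_mem _ (hKCs (ht x hx)))
    have hoZ : k * x⁻¹ ∈ Subgroup.center G := hOc _ (hO's hkx) hoC
    have hxγ : x * γ ∈ Subgroup.center G := by
      have : x * γ = (k * x⁻¹)⁻¹ * z := by rw [hzk]; group
      rw [this]
      exact Subgroup.mul_mem _ (Subgroup.inv_mem _ hoZ) hz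
    obtain ⟨hd1, hd2⟩ := hdel x ⟨γ, hγ, hxγ⟩
    refine ⟨k * x⁻¹ * (x * del x), ⟨mem_iUnion₂.mpr ⟨x, hx, ⟨k * x⁻¹, hkx, rfl⟩⟩,
      Subgroup.mul_mem _ hoZ hd2⟩, (del x)⁻¹ * γ, Γ.mul_mem (Γ.inv_mem hd1) hγ, ?_⟩
    rw [hzk]; group

/-- iterated commutators with elements close to the centre stay bounded -/
lemma itc_bounded {K O1 : Set G} (hK : IsCompact K) (hO1 : IsCompact O1) (n : ℕ) :
    ∃ L : Set G, IsCompact L ∧ ∀ y o : G, o ∈ O1 → o⁻¹ * y ∈ Subgroup.center G →
      ∀ g ∈ K, ∀ j ≤ n, itc y j g ∈ L := by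
  induction n with
  | zero =>
    refine ⟨K, hK, fun y o _ _ g hg j hj => ?_⟩
    obtain rfl : j = 0 := by omega
    exact hg
  | succ n ih =>
    obtain ⟨L, hL, hLn⟩ := ih
    refine ⟨L ∪ (fun p : G × G => p.1 * p.2 * p.1⁻¹ * p.2⁻¹) '' (O1 ×ˢ L), ?_, ?_⟩
    · exact hL.union ((hO1.prod hL).image (by fun_prop))
    · intro y o ho hoy g hg j hj
      rcases Nat.lt_or_ge n j with hlt | hle
      · obtain rfl : j = n + 1 := by omega
        right
        refine ⟨(o, itc y n g), ⟨ho, hLn y o ho hoy g hg n le_rfl⟩, ?_⟩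
        rw [itc_succ]
        have h1 := Subgroup.mem_center_iff.mp hoy (itc y n g)
        have h2 : y = o * (o⁻¹ * y) := by group
        show o * itc y n g * o⁻¹ * (itc y n g)⁻¹ = _
        calc o * itc y n g * o⁻¹ * (itc y n g)⁻¹
            = o * (itc y n g * (o⁻¹ * y)) * (o⁻¹ * y)⁻¹ * o⁻¹ * (itc y n g)⁻¹ := by group
          _ = o * ((o⁻¹ * y) * itc y n g) * (o⁻¹ * y)⁻¹ * o⁻¹ * (itc y n g)⁻¹ := by rw [h1]
          _ = y * itc y n g * y⁻¹ * (itc y n g)⁻¹ := by group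
      · left
        exact hLn y o ho hoy g hg j hle

/-- the quotient by the centre has no small subgroups -/
lemma nss_quot [Group.IsNilpotent G] {Γ : Subgroup G} (hG : GoodPair G Γ) :
    ∃ O ∈ 𝓝 (1:G), ∀ y : G, (∀ n : ℕ, ∃ o ∈ O, o⁻¹ * y ^ n ∈ Subgroup.center G) →
      y ∈ Subgroup.center G := by
  obtain ⟨K, hK, hKΓ⟩ := hG.cocompact
  obtain ⟨S, hSf, hS⟩ := hG.fg
  obtain ⟨U, hU, hnss⟩ := hG.nss
  obtain ⟨n, hn⟩ := itc_nil (G := G)
  obtain ⟨O1, hO1c, hO1⟩ := exists_compact_mem_nhds (1:G)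
  have hK1 : IsCompact (K ∪ S) := hK.union hSf.isCompact
  obtain ⟨L, hL, hLn⟩ := itc_bounded hK1 hO1c n
  obtain ⟨O, hO, hOL⟩ := comm_tube hL hU
  refine ⟨O ∩ O1, Filter.inter_mem hO hO1, fun y hy => ?_⟩
  have hcomm : ∀ g ∈ K ∪ S, y * g = g * y := by
    intro g hg
    apply comm_of_small y g
    intro j hj
    apply hnss
    intro m
    rw [← hj m]
    rcases Nat.lt_or_ge n j with hlt | hle
    · have h1 : itc y j g = 1 := by
        obtain ⟨i, rfl⟩ := Nat.exists_eq_add_of_lt hlt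
        have : ∀ i, itc y (n + i) g = 1 := by
          intro i
          induction i with
          | zero => exact hn y g
          | succ i ih => rw [← add_assoc, itc_succ, ih]; group
        rw [show n + i + 1 = n + (i+1) by ring]
        exact this (i+1)
      rw [h1]
      simpa using mem_of_mem_nhds hU
    · obtain ⟨o1, ho1, ho1y⟩ := hy 1
      rw [pow_one] at ho1y
      have hf : itc y j g ∈ L := hLn y o1 ho1.2 ho1y g hg j hle
      obtain ⟨o, ho, hoy⟩ := hy m
      have h1 := hOL o ho.1 _ hf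
      have h2 := Subgroup.mem_center_iff.mp hoy (itc y j g)
      have h3 : y ^ m * itc y j g * (y ^ m)⁻¹ * (itc y j g)⁻¹
          = o * itc y j g * o⁻¹ * (itc y j g)⁻¹ := by
        calc y ^ m * itc y j g * (y ^ m)⁻¹ * (itc y j g)⁻¹
            = o * ((o⁻¹ * y ^ m) * itc y j g) * (o⁻¹ * y ^ m)⁻¹ * o⁻¹ * (itc y j g)⁻¹ := by group
          _ = o * (itc y j g * (o⁻¹ * y ^ m)) * (o⁻¹ * y ^ m)⁻¹ * o⁻¹ * (itc y j g)⁻¹ := by rw [h2]
          _ = _ := by group
      rw [h3]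
      exact h1
  have hyΓ : y ∈ Subgroup.centralizer (Γ : Set G) := by
    rw [← hS, Subgroup.centralizer_closure]
    intro s hs
    exact (hcomm s (Or.inr hs)).symm
  rw [Subgroup.mem_center_iff]
  intro g
  obtain ⟨k, hk, γ, hγ, rfl⟩ := hKΓ g
  have h1 := hcomm k (Or.inl hk)
  have h2 : γ * y = y * γ := hyΓ γ hγ
  calc k * γ * y = k * (γ * y) := by group
    _ = (k * y) * γ := by rw [h2]; group
    _ = y * (k * γ) := by rw [← h1]; group

/-- the pair passes to the quotient by the centre -/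
lemma goodPair_quot [Group.IsNilpotent G] {Γ : Subgroup G} (hG : GoodPair G Γ) :
    GoodPair (G ⧸ Subgroup.center G) (Γ.map (QuotientGroup.mk' (Subgroup.center G))) := by
  classical
  obtain ⟨KZ, hKZ, hKZs, hKZc⟩ := center_cocompact hG
  refine ⟨?_, ?_, ?_, ?_⟩
  · -- discreteness
    obtain ⟨O1, hO1c, hO1⟩ := exists_compact_mem_nhds (1:G)
    have hF : ((Γ : Set G) ∩ (fun p : G × G => p.1 * p.2) '' (O1 ×ˢ KZ)).Finite :=
      finite_inter hG.discrete ((hO1c.prod hKZ).image (by fun_prop))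
    set F := (Γ : Set G) ∩ (fun p : G × G => p.1 * p.2) '' (O1 ×ˢ KZ) with hFdef
    have hO2 : (⋂ f ∈ F, {x : G | f ∉ Subgroup.center G → x⁻¹ * f ∉ Subgroup.center G}) ∈ 𝓝 (1:G) := by
      rw [Filter.biInter_mem hF]
      intro f _
      by_cases hf : f ∈ Subgroup.center G
      · apply Filter.mem_of_superset Filter.univ_mem
        intro x _ h
        exact absurd hf h
      · have hopen : IsOpen {x : G | x⁻¹ * f ∉ Subgroup.center G} := by
          have : IsClosed ((fun x : G => x⁻¹ * f) ⁻¹' (Subgroup.center G : Set G)) :=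
            isClosed_center.preimage (by fun_prop)
          exact this.isOpen_compl
        have hmem : (1:G) ∈ {x : G | x⁻¹ * f ∉ Subgroup.center G} := by simpa using hf
        exact Filter.mem_of_superset (hopen.mem_nhds hmem) fun x hx _ => hx
    refine ⟨QuotientGroup.mk '' (O1 ∩ ⋂ f ∈ F, {x : G | f ∉ Subgroup.center G →
      x⁻¹ * f ∉ Subgroup.center G}), ?_, ?_⟩
    · have := QuotientGroup.isOpenMap_coe (N := Subgroup.center G)
      exact this.image_mem_nhds (Filter.inter_mem hO1 hO2)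
    · rintro _ ⟨o, ⟨ho1, ho2⟩, rfl⟩ ⟨γ, hγ, hγo⟩
      have h1 : o⁻¹ * γ ∈ Subgroup.center G := by
        rw [← QuotientGroup.eq]
        exact hγo.symm
      obtain ⟨k, hk, δ, hδ, hz⟩ := hKZc _ h1
      have h2 : γ * δ⁻¹ = o * k := by
        have : γ = o * (k * δ) := by rw [← hz]; group
        rw [this]; group
      have hmemF : γ * δ⁻¹ ∈ F := by
        refine ⟨Γ.mul_mem hγ (Γ.inv_mem hδ), ⟨(o, k), ⟨ho1, hk⟩, h2.symm⟩⟩
      have hcen : γ * δ⁻¹ ∈ Subgroup.center G := by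
        by_contra hcon
        have h3 := (mem_iInter₂.mp ho2) _ hmemF hcon
        apply h3
        rw [h2, inv_mul_cancel_left]
        exact hKZs hk
      have hδc : δ ∈ Subgroup.center G := by
        have : δ = k⁻¹ * (o⁻¹ * γ) := by rw [hz]; group
        rw [this]
        exact Subgroup.mul_mem _ (Subgroup.inv_mem _ (hKZs hk)) h1
      have hγc : γ ∈ Subgroup.center G := by
        have : γ = (γ * δ⁻¹) * δ := by group
        rw [this]
        exact Subgroup.mul_mem _ hcen hδc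
      rw [← hγo]
      exact (QuotientGroup.eq_one_iff γ).mpr hγc
  · obtain ⟨K, hK, hKΓ⟩ := hG.cocompact
    refine ⟨QuotientGroup.mk '' K, hK.image QuotientGroup.continuous_mk, ?_⟩
    intro x
    obtain ⟨g, rfl⟩ := QuotientGroup.mk_surjective x
    obtain ⟨k, hk, γ, hγ, rfl⟩ := hKΓ g
    exact ⟨_, ⟨k, hk, rfl⟩, _, ⟨γ, hγ, rfl⟩, rfl⟩
  · obtain ⟨S, hSf, hS⟩ := hG.fg
    refine ⟨QuotientGroup.mk' (Subgroup.center G) '' S, hSf.image _, ?_⟩
    rw [← MonoidHom.map_closure, hS]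
  · obtain ⟨O, hO, hOy⟩ := nss_quot hG
    refine ⟨QuotientGroup.mk '' O, QuotientGroup.isOpenMap_coe.image_mem_nhds hO, ?_⟩
    intro x hx
    obtain ⟨y, rfl⟩ := QuotientGroup.mk_surjective x
    rw [QuotientGroup.eq_one_iff]
    apply hOy
    intro n
    obtain ⟨o, ho, hoy⟩ := hx n
    refine ⟨o, ho, ?_⟩
    rw [← QuotientGroup.eq]
    rw [hoy]
    rfl

/-- compact sets lift along open surjections -/
lemma exists_compact_lift {X Y : Type*} [TopologicalSpace X] [TopologicalSpace Y]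
    [LocallyCompactSpace X] {f : X → Y} (ho : IsOpenMap f) (hs : Function.Surjective f)
    {K : Set Y} (hK : IsCompact K) : ∃ L : Set X, IsCompact L ∧ K ⊆ f '' L := by
  classical
  have hch : ∀ y : Y, ∃ N : Set X, IsCompact N ∧ f '' N ∈ 𝓝 y := by
    intro y
    obtain ⟨x, rfl⟩ := hs y
    obtain ⟨N, hN, hNx⟩ := exists_compact_mem_nhds x
    exact ⟨N, hN, ho.image_mem_nhds hNx⟩
  choose N hN hNy using hch
  obtain ⟨t, _, hcov⟩ := hK.elim_nhds_subcover (fun y => f '' N y) (fun y _ => hNy y)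
  refine ⟨⋃ y ∈ t, N y, t.finite_toSet.isCompact_biUnion fun y _ => hN y, ?_⟩
  intro y hy
  obtain ⟨z, hz, ⟨x, hx, hxy⟩⟩ := mem_iUnion₂.mp (hcov hy)
  exact ⟨x, mem_iUnion₂.mpr ⟨z, hz, hx⟩, hxy⟩

end

end Pool.Agent.Lib.Pb4ed41
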