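import Mathlib
import Pool.Agent.Lib.Pb4ed41.Nss
import Pool.Agent.Lib.Pb4ed41.Leib
import Pool.Agent.Lib.Pb4ed41.LieGauge

/-!
# Polynomial growth of conjugation and covering numbers of polynomial orbits
-/

open Topology Set

namespace Pool.Agent.Lib.Pb4ed41

section growth

variable {G : Type*} [Group G] [TopologicalSpace G] {nu : G → ℝ}

lemma comm_bound (hnu : IsGauge nu) {K : Set G} (hK : IsCompact K) :
    ∃ L : ℝ, 1 ≤ L ∧ ∃ r : ℝ, 0 < r ∧ ∀ c ∈ K, ∀ x, nu x < r →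
      nu (c * x * c⁻¹ * x⁻¹) ≤ L * nu x := by
  obtain ⟨L1, hL1, r1, hr1, h1⟩ := hnu.conj K hK
  obtain ⟨L2, hL2, r2, hr2, h2⟩ := hnu.inv
  obtain ⟨L3, hL3, r3, hr3, h3⟩ := hnu.mul
  refine ⟨L2 + L3 * L1, by nlinarith, min (min r1 r2) (min (r3 / L1) (r3 / L2)),
    lt_min (lt_min hr1 hr2) (lt_min (by positivity) (by positivity)), ?_⟩
  intro c hc x hx
  rw [lt_min_iff, lt_min_iff, lt_min_iff] at hx
  obtain ⟨⟨hx1, hx2⟩, hx3, hx4⟩ := hx
  have e1 := h1 c hc x hx1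
  have e2 := h2 x hx2
  rw [lt_div_iff₀ (by linarith)] at hx3 hx4
  have e3 : nu (c * x * c⁻¹) < r3 := by linarith
  have e4 : nu x⁻¹ < r3 := by linarith
  have e5 := (h3 _ _ e3 e4).1
  have e6 : L3 * nu (c * x * c⁻¹) ≤ L3 * (L1 * nu x) := mul_le_mul_of_nonneg_left e1 (by linarith)
  linarith

lemma conj_growth (hnu : IsGauge nu) {K : Set G} (hK : IsCompact K) (i : ℕ) :
    ∃ B : ℝ, 1 ≤ B ∧ ∃ r : ℝ, 0 < r ∧ ∀ c ∈ K, ∀ x, itc c i x = 1 → ∀ m : ℕ,
      B * ((m:ℝ) + 1) ^ i * nu x < r → nu (c ^ m * x * (c ^ m)⁻¹) ≤ B * ((m:ℝ) + 1) ^ i * nu x := by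
  induction i with
  | zero =>
    refine ⟨1, le_rfl, 1, one_pos, fun c hc x hx m _ => ?_⟩
    rw [itc_zero] at hx
    subst hx
    simp [hnu.one]
  | succ i ih =>
    obtain ⟨Bi, hBi, ri, hri, hi⟩ := ih
    obtain ⟨Lc, hLc, rc, hrc, hc1⟩ := comm_bound hnu hK
    obtain ⟨Lm, hLm, rm, hrm, hm1⟩ := hnu.mul
    have hBL : 1 ≤ Bi * Lc := by nlinarith
    have hLBL : Bi * Lc ≤ Lm * Bi * Lc := by nlinarith
    set B := 1 + Lm * Bi * Lc with hB
    refine ⟨B, by linarith, min (min ri rc) rm, lt_min (lt_min hri hrc) hrm, ?_⟩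
    intro c hc x hx m0 hm0
    rw [lt_min_iff, lt_min_iff] at hm0
    obtain ⟨⟨hm0i, hm0c⟩, hm0m⟩ := hm0
    have hnx := hnu.nonneg x
    have hP : (1:ℝ) ≤ ((m0:ℝ) + 1) ^ i := one_le_pow₀ (by linarith [Nat.cast_nonneg (α := ℝ) m0])
    have hP0 : (0:ℝ) ≤ (m0:ℝ) := Nat.cast_nonneg m0
    have hP1 : ((m0:ℝ) + 1) ^ i ≤ ((m0:ℝ) + 1) ^ (i+1) := by
      rw [pow_succ]; nlinarith
    have hP2 : (1:ℝ) ≤ ((m0:ℝ) + 1) ^ (i+1) := hP.trans hP1
    have hxle : nu x ≤ B * ((m0:ℝ) + 1) ^ (i+1) * nu x := by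
      have : 1 ≤ B * ((m0:ℝ) + 1) ^ (i+1) := by nlinarith
      nlinarith
    have hy := hc1 c hc x (by linarith)
    set y := c * x * c⁻¹ * x⁻¹ with hyd
    have hyi : itc c i y = 1 := by
      have : itc c (i+1) x = itc c i y := by
        unfold itc
        rw [Function.iterate_succ_apply]
      rw [← this]; exact hx
    have hb : ∀ m : ℕ, m < m0 → nu (c ^ m * y * (c ^ m)⁻¹) ≤ Bi * Lc * ((m0:ℝ) + 1) ^ i * nu x := by
      intro m hm
      have hmle : ((m:ℝ) + 1) ^ i ≤ ((m0:ℝ) + 1) ^ i := by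
        apply pow_le_pow_left₀ (by positivity)
        have : (m:ℝ) ≤ m0 := by exact_mod_cast hm.le
        linarith
      have e1 : Bi * ((m:ℝ) + 1) ^ i * nu y ≤ Bi * Lc * ((m0:ℝ) + 1) ^ i * nu x := by
        calc Bi * ((m:ℝ) + 1) ^ i * nu y ≤ Bi * ((m0:ℝ) + 1) ^ i * (Lc * nu x) := by
              apply mul_le_mul _ hy (hnu.nonneg y) (by positivity)
              exact mul_le_mul_of_nonneg_left hmle (by linarith)
          _ = _ := by ring
      have e2 : Bi * Lc * ((m0:ℝ) + 1) ^ i * nu x ≤ B * ((m0:ℝ) + 1) ^ (i+1) * nu x := by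
        apply mul_le_mul_of_nonneg_right _ hnx
        apply mul_le_mul (by linarith) hP1 (by positivity) (by linarith)
      exact (hi c hc y hyi m (by linarith)).trans e1
    have hA : ∀ m : ℕ, m ≤ m0 → nu (c ^ m * x * (c ^ m)⁻¹)
        ≤ (1 + Lm * Bi * Lc * m * ((m0:ℝ) + 1) ^ i) * nu x := by
      intro m
      induction m with
      | zero => intro _; simp
      | succ m ihm =>
        intro hm
        have h1 := ihm (by omega)
        have h2 := hb m (by omega)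
        have e : c ^ (m+1) * x * (c ^ (m+1))⁻¹ = (c ^ m * y * (c ^ m)⁻¹) * (c ^ m * x * (c ^ m)⁻¹) := by
          rw [hyd, pow_succ]
          group
        rw [e]
        have hmm : (m:ℝ) + 1 ≤ m0 := by exact_mod_cast hm
        have e2 : Bi * Lc * ((m0:ℝ) + 1) ^ i * nu x ≤ B * ((m0:ℝ) + 1) ^ (i+1) * nu x := by
          apply mul_le_mul_of_nonneg_right _ hnx
          apply mul_le_mul (by linarith) hP1 (by positivity) (by linarith)
        have e3 : (1 + Lm * Bi * Lc * m * ((m0:ℝ) + 1) ^ i) * nu x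
            ≤ B * ((m0:ℝ) + 1) ^ (i+1) * nu x := by
          apply mul_le_mul_of_nonneg_right _ hnx
          have e4 : Lm * Bi * Lc * m * ((m0:ℝ) + 1) ^ i ≤ Lm * Bi * Lc * ((m0:ℝ) + 1) ^ (i+1) := by
            rw [pow_succ]
            have : Lm * Bi * Lc * m * ((m0:ℝ) + 1) ^ i ≤ Lm * Bi * Lc * (m0+1) * ((m0:ℝ) + 1) ^ i := by
              apply mul_le_mul_of_nonneg_right _ (by positivity)
              apply mul_le_mul_of_nonneg_left _ (by positivity)
              linarith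
            linarith
          rw [hB]
          nlinarith
        have h3 := (hm1 _ _ (show nu (c ^ m * y * (c ^ m)⁻¹) < rm by linarith)
          (show nu (c ^ m * x * (c ^ m)⁻¹) < rm by linarith)).1
        have h4 : Lm * nu (c ^ m * y * (c ^ m)⁻¹) ≤ Lm * (Bi * Lc * ((m0:ℝ) + 1) ^ i * nu x) :=
          mul_le_mul_of_nonneg_left h2 (by linarith)
        push_cast
        nlinarith
    have hfin := hA m0 le_rfl
    refine hfin.trans ?_
    apply mul_le_mul_of_nonneg_right _ hnx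
    have e4 : Lm * Bi * Lc * m0 * ((m0:ℝ) + 1) ^ i ≤ Lm * Bi * Lc * ((m0:ℝ) + 1) ^ (i+1) := by
      rw [pow_succ]
      have : Lm * Bi * Lc * m0 * ((m0:ℝ) + 1) ^ i ≤ Lm * Bi * Lc * (m0+1) * ((m0:ℝ) + 1) ^ i := by
        apply mul_le_mul_of_nonneg_right _ (by positivity)
        apply mul_le_mul_of_nonneg_left _ (by positivity)
        linarith
      linarith
    rw [hB]
    nlinarith

lemma pow_growth (hnu : IsGauge nu) {n : ℕ} (hn : ∀ g x : G, itc g n x = 1) {K : Set G}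
    (hK : IsCompact K) : ∃ B : ℝ, 1 ≤ B ∧ ∃ D : ℕ, ∃ r : ℝ, 0 < r ∧ ∀ c ∈ K, ∀ e : G, ∀ m : ℕ,
      B * ((m:ℝ) + 1) ^ D * nu e < r →
        nu ((e * c) ^ m * (c ^ m)⁻¹) ≤ B * ((m:ℝ) + 1) ^ D * nu e := by
  obtain ⟨B1, hB1, r1, hr1, h1⟩ := conj_growth hnu hK n
  obtain ⟨Lm, hLm, rm, hrm, hm1⟩ := hnu.mul
  have hLB : B1 ≤ Lm * B1 := by nlinarith
  refine ⟨Lm * B1, by linarith, n + 1, min r1 rm, lt_min hr1 hrm, ?_⟩
  intro c hc e m0 hm0
  rw [lt_min_iff] at hm0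
  have hne := hnu.nonneg e
  have hP : (1:ℝ) ≤ ((m0:ℝ) + 1) ^ n := one_le_pow₀ (by linarith [Nat.cast_nonneg (α := ℝ) m0])
  have hP0 : (0:ℝ) ≤ (m0:ℝ) := Nat.cast_nonneg m0
  have hP1 : ((m0:ℝ) + 1) ^ n ≤ ((m0:ℝ) + 1) ^ (n+1) := by
    rw [pow_succ]; nlinarith
  have hb : ∀ m : ℕ, m < m0 → nu (c ^ m * e * (c ^ m)⁻¹) ≤ B1 * ((m0:ℝ) + 1) ^ n * nu e := by
    intro m hm
    have hmle : ((m:ℝ) + 1) ^ n ≤ ((m0:ℝ) + 1) ^ n := by
      apply pow_le_pow_left₀ (by positivity)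
      have : (m:ℝ) ≤ m0 := by exact_mod_cast hm.le
      linarith
    have e1 : B1 * ((m:ℝ) + 1) ^ n * nu e ≤ B1 * ((m0:ℝ) + 1) ^ n * nu e := by
      apply mul_le_mul_of_nonneg_right _ hne
      exact mul_le_mul_of_nonneg_left hmle (by linarith)
    have e2 : B1 * ((m0:ℝ) + 1) ^ n * nu e ≤ Lm * B1 * ((m0:ℝ) + 1) ^ (n+1) * nu e := by
      apply mul_le_mul_of_nonneg_right _ hne
      exact mul_le_mul hLB hP1 (by positivity) (by positivity)
    exact (h1 c hc e (hn c e) m (by linarith [hm0.1])).trans e1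
  have hA : ∀ m : ℕ, m ≤ m0 → nu ((e * c) ^ m * (c ^ m)⁻¹)
      ≤ Lm * B1 * m * ((m0:ℝ) + 1) ^ n * nu e := by
    intro m
    induction m with
    | zero => intro _; simp [hnu.one]
    | succ m ihm =>
      intro hm
      have h2 := ihm (by omega)
      have h3 := hb m (by omega)
      have heq : (e * c) ^ (m+1) * (c ^ (m+1))⁻¹ = ((e * c) ^ m * (c ^ m)⁻¹) * (c ^ m * e * (c ^ m)⁻¹) := by
        rw [pow_succ, pow_succ]
        group
      rw [heq]
      have hmm : (m:ℝ) + 1 ≤ m0 := by exact_mod_cast hm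
      have e2 : B1 * ((m0:ℝ) + 1) ^ n * nu e ≤ Lm * B1 * ((m0:ℝ) + 1) ^ (n+1) * nu e := by
        apply mul_le_mul_of_nonneg_right _ hne
        exact mul_le_mul hLB hP1 (by positivity) (by positivity)
      have e3 : Lm * B1 * m * ((m0:ℝ) + 1) ^ n * nu e ≤ Lm * B1 * ((m0:ℝ) + 1) ^ (n+1) * nu e := by
        apply mul_le_mul_of_nonneg_right _ hne
        rw [pow_succ]
        have : Lm * B1 * m * ((m0:ℝ) + 1) ^ n ≤ Lm * B1 * (m0+1) * ((m0:ℝ) + 1) ^ n := by
          apply mul_le_mul_of_nonneg_right _ (by positivity)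
          apply mul_le_mul_of_nonneg_left _ (by positivity)
          linarith
        linarith
      have h4 := (hm1 _ _ (show nu ((e * c) ^ m * (c ^ m)⁻¹) < rm by linarith [hm0.2])
        (show nu (c ^ m * e * (c ^ m)⁻¹) < rm by linarith [hm0.2])).2
      have h5 : Lm * nu (c ^ m * e * (c ^ m)⁻¹) ≤ Lm * (B1 * ((m0:ℝ) + 1) ^ n * nu e) :=
        mul_le_mul_of_nonneg_left h3 (by linarith)
      push_cast
      nlinarith
  refine (hA m0 le_rfl).trans ?_
  apply mul_le_mul_of_nonneg_right _ hne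
  rw [pow_succ]
  have : Lm * B1 * m0 * ((m0:ℝ) + 1) ^ n ≤ Lm * B1 * (m0+1) * ((m0:ℝ) + 1) ^ n := by
    apply mul_le_mul_of_nonneg_right _ (by positivity)
    apply mul_le_mul_of_nonneg_left _ (by positivity)
    linarith
  linarith

/-- comparison of two products with nearby base elements -/
lemma list_growth (hnu : IsGauge nu) {n : ℕ} (hn : ∀ g x : G, itc g n x = 1) {K : Set G}
    (hK : IsCompact K) (l : ℕ) : ∃ B : ℝ, 1 ≤ B ∧ ∃ D : ℕ, ∃ r : ℝ, 0 < r ∧
      ∀ (Q : List (G × G × ℕ × ℕ)), Q.length = l → ∀ (τ : ℝ) (E a b : ℕ),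
        (∀ q ∈ Q, q.2.1 ∈ K ∧ nu q.1 ≤ τ ∧ be q.2.2.1 q.2.2.2 a b ≤ E) → 0 ≤ τ →
        B * ((E:ℝ) + 1) ^ D * τ < r →
        nu (ev (Q.map fun q => (q.1 * q.2.1, q.2.2)) a b * (ev (Q.map fun q => (q.2.1, q.2.2)) a b)⁻¹)
          ≤ B * ((E:ℝ) + 1) ^ D * τ := by
  induction l with
  | zero =>
    refine ⟨1, le_rfl, 0, 1, one_pos, fun Q hQ τ E a b _ hτ _ => ?_⟩
    rw [List.length_eq_zero_iff] at hQ
    subst hQ
    simp [ev_nil, hnu.one, hτ]
  | succ l ih =>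
    obtain ⟨B0, hB0, D0, r0, hr0, h0⟩ := ih
    obtain ⟨B1, hB1, r1, hr1, h1⟩ := conj_growth hnu hK n
    obtain ⟨B2, hB2, D2, r2, hr2, h2⟩ := pow_growth hnu hn hK
    obtain ⟨Lm, hLm, rm, hrm, hm1⟩ := hnu.mul
    have hB10 : B0 ≤ B1 * B0 := by nlinarith
    have hLB2 : B2 ≤ Lm * B2 := by nlinarith
    set B := B1 * B0 + Lm * B2 with hB
    set D := n + D0 + D2 with hD
    refine ⟨B, by linarith, D, min (min r0 r1) (min r2 rm), lt_min (lt_min hr0 hr1) (lt_min hr2 hrm),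
      ?_⟩
    intro Q hQ τ E a b hQb hτ hlt
    rw [lt_min_iff, lt_min_iff, lt_min_iff] at hlt
    obtain ⟨⟨hlt0, hlt1⟩, hlt2, hltm⟩ := hlt
    obtain ⟨q, Q', rfl⟩ : ∃ q Q', Q = q :: Q' := by
      cases Q with
      | nil => simp at hQ
      | cons q Q' => exact ⟨q, Q', rfl⟩
    have hQ' : Q'.length = l := by simpa using hQ
    have hx1 : (1:ℝ) ≤ (E:ℝ) + 1 := by linarith [Nat.cast_nonneg (α := ℝ) E]
    have hpw : ∀ i j : ℕ, i ≤ j → ((E:ℝ) + 1) ^ i ≤ ((E:ℝ) + 1) ^ j := fun i j hij =>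
      pow_le_pow_right₀ hx1 hij
    have hqK := (hQb q (by simp)).1
    have hqτ := (hQb q (by simp)).2.1
    have hqE := (hQb q (by simp)).2.2
    set e := be q.2.2.1 q.2.2.2 a b with he
    have heE : ((e:ℝ) + 1) ≤ (E:ℝ) + 1 := by
      have : (e:ℝ) ≤ E := by exact_mod_cast hqE
      linarith
    -- the tail
    have hB0le : B0 * ((E:ℝ) + 1) ^ D0 * τ ≤ B * ((E:ℝ) + 1) ^ D * τ := by
      apply mul_le_mul_of_nonneg_right _ hτ
      apply mul_le_mul _ (hpw _ _ (by omega)) (by positivity) (by linarith)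
      linarith
    have htail := h0 Q' hQ' τ E a b (fun p hp => hQb p (by simp [hp])) hτ (by linarith)
    set R := ev (Q'.map fun q => (q.1 * q.2.1, q.2.2)) a b *
      (ev (Q'.map fun q => (q.2.1, q.2.2)) a b)⁻¹ with hR
    have hRn := hnu.nonneg R
    -- conjugated tail
    have hconj : B1 * ((e:ℝ) + 1) ^ n * nu R ≤ B1 * B0 * ((E:ℝ) + 1) ^ D * τ := by
      calc B1 * ((e:ℝ) + 1) ^ n * nu R ≤ B1 * ((E:ℝ) + 1) ^ n * (B0 * ((E:ℝ) + 1) ^ D0 * τ) := by
            apply mul_le_mul _ htail hRn (by positivity)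
            apply mul_le_mul_of_nonneg_left _ (by linarith)
            exact pow_le_pow_left₀ (by positivity) heE n
        _ = B1 * B0 * ((E:ℝ) + 1) ^ (n + D0) * τ := by rw [pow_add]; ring
        _ ≤ B1 * B0 * ((E:ℝ) + 1) ^ D * τ := by
            apply mul_le_mul_of_nonneg_right _ hτ
            apply mul_le_mul_of_nonneg_left (hpw _ _ (by omega)) (by positivity)
    have hle1 : B1 * B0 * ((E:ℝ) + 1) ^ D * τ ≤ B * ((E:ℝ) + 1) ^ D * τ := by
      apply mul_le_mul_of_nonneg_right _ hτ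
      apply mul_le_mul_of_nonneg_right _ (by positivity)
      have : 0 ≤ Lm * B2 := by positivity
      linarith
    have hc2 := h1 q.2.1 hqK R (hn _ _) e (by linarith)
    -- the head
    have hqn := hnu.nonneg q.1
    have hhead : B2 * ((e:ℝ) + 1) ^ D2 * nu q.1 ≤ B2 * ((E:ℝ) + 1) ^ D * τ := by
      calc B2 * ((e:ℝ) + 1) ^ D2 * nu q.1 ≤ B2 * ((E:ℝ) + 1) ^ D2 * τ := by
            apply mul_le_mul _ hqτ hqn (by positivity)
            apply mul_le_mul_of_nonneg_left _ (by linarith)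
            exact pow_le_pow_left₀ (by positivity) heE D2
        _ ≤ B2 * ((E:ℝ) + 1) ^ D * τ := by
            apply mul_le_mul_of_nonneg_right _ hτ
            apply mul_le_mul_of_nonneg_left (hpw _ _ (by omega)) (by positivity)
    have hle2 : B2 * ((E:ℝ) + 1) ^ D * τ ≤ B * ((E:ℝ) + 1) ^ D * τ := by
      apply mul_le_mul_of_nonneg_right _ hτ
      apply mul_le_mul_of_nonneg_right _ (by positivity)
      have : 0 ≤ B1 * B0 := by positivity
      linarith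
    have hp2 := h2 q.2.1 hqK q.1 e (by linarith)
    have heq : ev ((q :: Q').map fun q => (q.1 * q.2.1, q.2.2)) a b *
        (ev ((q :: Q').map fun q => (q.2.1, q.2.2)) a b)⁻¹
        = ((q.1 * q.2.1) ^ e * (q.2.1 ^ e)⁻¹) * (q.2.1 ^ e * R * (q.2.1 ^ e)⁻¹) := by
      rw [List.map_cons, List.map_cons, ev_cons, ev_cons]
      show ((q.1 * q.2.1) ^ e * ev (Q'.map fun q => (q.1 * q.2.1, q.2.2)) a b) *
        (q.2.1 ^ e * ev (Q'.map fun q => (q.2.1, q.2.2)) a b)⁻¹ = _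
      rw [hR]
      group
    rw [heq]
    have h5 := (hm1 _ _ (show nu ((q.1 * q.2.1) ^ e * (q.2.1 ^ e)⁻¹) < rm by linarith)
      (show nu (q.2.1 ^ e * R * (q.2.1 ^ e)⁻¹) < rm by linarith)).1
    have h6 : Lm * nu ((q.1 * q.2.1) ^ e * (q.2.1 ^ e)⁻¹) ≤ Lm * (B2 * ((E:ℝ) + 1) ^ D * τ) :=
      mul_le_mul_of_nonneg_left (hp2.trans hhead) (by linarith)
    calc _ ≤ nu (q.2.1 ^ e * R * (q.2.1 ^ e)⁻¹) + Lm * nu ((q.1 * q.2.1) ^ e * (q.2.1 ^ e)⁻¹) := h5
      _ ≤ B1 * B0 * ((E:ℝ) + 1) ^ D * τ + Lm * (B2 * ((E:ℝ) + 1) ^ D * τ) := by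
          linarith
      _ = B * ((E:ℝ) + 1) ^ D * τ := by rw [hB]; ring

open Classical in
/-- all lists of a given shape with base elements in a finite set -/
noncomputable def lists (T : Finset G) : List (ℕ × ℕ) → Finset (List (G × ℕ × ℕ))
  | [] => {[]}
  | q :: Q => (T ×ˢ lists T Q).image fun p => (p.1, q) :: p.2

omit [Group G] [TopologicalSpace G] in
lemma card_lists (T : Finset G) (Q : List (ℕ × ℕ)) : (lists T Q).card ≤ T.card ^ Q.length := by
  classical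
  induction Q with
  | nil => simp [lists]
  | cons q Q ih =>
    unfold lists
    refine Finset.card_image_le.trans ?_
    rw [Finset.card_product, List.length_cons, pow_succ, mul_comm]
    exact Nat.mul_le_mul_right _ ih

omit [Group G] [TopologicalSpace G] in
lemma mem_lists (T : Finset G) (Q : List (ℕ × ℕ)) : ∀ L : List (G × ℕ × ℕ), L.map Prod.snd = Q →
    (∀ p ∈ L, p.1 ∈ T) → L ∈ lists T Q := by
  classical
  induction Q with
  | nil =>
    intro L hL _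
    rw [List.map_eq_nil_iff] at hL
    subst hL
    simp [lists]
  | cons q Q ih =>
    intro L hL hT
    cases L with
    | nil => simp at hL
    | cons p L =>
      rw [List.map_cons, List.cons.injEq] at hL
      unfold lists
      rw [Finset.mem_image]
      refine ⟨(p.1, L), ?_, ?_⟩
      · rw [Finset.mem_product]
        exact ⟨hT p (by simp), ih L hL.2 fun r hr => hT r (by simp [hr])⟩
      · simp [← hL.1]

lemma be_le {i j a b W : ℕ} (ha : a ≤ W) (hb : b ≤ W) : be i j a b ≤ W ^ (i + j) := by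
  unfold be
  rw [pow_add]
  apply Nat.mul_le_mul
  · exact (Nat.choose_le_pow a i).trans (Nat.pow_le_pow_left ha i)
  · exact (Nat.choose_le_pow b j).trans (Nat.pow_le_pow_left hb j)

/-- covering numbers of patterns with base elements in a compact set -/
lemma cover_compact (hnu : IsGauge nu) {n : ℕ} (hn : ∀ g x : G, itc g n x = 1) {K : Set G}
    (hK : IsCompact K) (Q : List (ℕ × ℕ)) (F : G → ℂ)
    (hF : ∀ ε : ℝ, 0 < ε → ∃ ρ : ℝ, 0 < ρ ∧ ∀ e x : G, nu e < ρ → ‖F (e * x) - F x‖ ≤ ε)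
    (ε : ℝ) (hε : 0 < ε) : ∃ C : ℕ, ∀ W : ℕ, 1 ≤ W → ∃ P : Finset (ℕ → ℕ → ℂ),
      P.card ≤ C * W ^ C ∧ ∀ M : List (G × ℕ × ℕ), M.map Prod.snd = Q → (∀ p ∈ M, p.1 ∈ K) →
        ∃ p ∈ P, ∀ a b : ℕ, a ≤ W → b ≤ W → ‖F (ev M a b) - p a b‖ ≤ ε := by
  classical
  obtain ⟨B, hB, D, r, hr, hgr⟩ := list_growth hnu hn hK Q.length
  obtain ⟨ρ, hρ, hFρ⟩ := hF ε hε
  obtain ⟨C0, hC0⟩ := hnu.cover K hK
  set d : ℕ := (Q.map fun q => q.1 + q.2).sum with hd
  have hdq : ∀ q ∈ Q, q.1 + q.2 ≤ d := fun q hq =>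
    List.single_le_sum (by simp) _ (List.mem_map_of_mem hq)
  set r' := min r ρ with hr'
  have hr'pos : 0 < r' := lt_min hr hρ
  obtain ⟨A, hA⟩ := exists_nat_gt (B / r')
  have hApos : (0:ℝ) < A := lt_trans (by positivity) hA
  have hA1 : 1 ≤ A := by
    rcases Nat.eq_zero_or_pos A with h | h
    · rw [h] at hApos; simp at hApos
    · exact h
  set l := Q.length with hl
  refine ⟨(C0 * (A * 2 ^ D) ^ C0) ^ l + d * D * C0 * l, fun W hW => ?_⟩
  have h2W : 1 ≤ 2 * W ^ d := by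
    have := Nat.one_le_pow d W hW
    omega
  set N := A * (2 * W ^ d) ^ D with hN
  have hN1 : 1 ≤ N := Nat.mul_pos hA1 (Nat.pow_pos (by omega))
  obtain ⟨T, hTc, hTK, hTcov⟩ := hC0 N hN1
  refine ⟨(lists T Q).image fun L a b => F (ev L a b), ?_, ?_⟩
  · refine Finset.card_image_le.trans ((card_lists T Q).trans ?_)
    have e1 : N ^ C0 = (A * 2 ^ D) ^ C0 * W ^ (d * D * C0) := by
      rw [hN, mul_pow 2, ← mul_assoc, mul_pow, ← pow_mul, ← pow_mul, ← mul_assoc d]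
    calc T.card ^ l ≤ (C0 * N ^ C0) ^ l := Nat.pow_le_pow_left hTc l
      _ = (C0 * (A * 2 ^ D) ^ C0) ^ l * W ^ (d * D * C0 * l) := by
          rw [e1, ← mul_assoc, mul_pow, ← pow_mul]
      _ ≤ ((C0 * (A * 2 ^ D) ^ C0) ^ l + d * D * C0 * l)
          * W ^ ((C0 * (A * 2 ^ D) ^ C0) ^ l + d * D * C0 * l) := by
          apply Nat.mul_le_mul (Nat.le_add_right _ _)
          exact Nat.pow_le_pow_right hW (Nat.le_add_left _ _)
  · intro M hM hMK
    have hsel : ∀ c : G, ∃ s : G, c ∈ K → s ∈ T ∧ nu (c * s⁻¹) ≤ 1 / N := by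
      intro c
      by_cases hc : c ∈ K
      · obtain ⟨s, hs, hs2⟩ := hTcov c hc
        exact ⟨s, fun _ => ⟨hs, hs2⟩⟩
      · exact ⟨1, fun h => absurd h hc⟩
    choose σ hσ using hsel
    set Ms := M.map fun p => (σ p.1, p.2) with hMs
    have hMsQ : Ms.map Prod.snd = Q := by
      rw [hMs, List.map_map, ← hM]; rfl
    refine ⟨fun a b => F (ev Ms a b), Finset.mem_image_of_mem _ (mem_lists T Q Ms hMsQ ?_), ?_⟩
    · intro p hp
      rw [hMs, List.mem_map] at hp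
      obtain ⟨q, hq, rfl⟩ := hp
      exact (hσ q.1 (hMK q hq)).1
    · intro a b ha hb
      set Q2 : List (G × G × ℕ × ℕ) := M.map fun p => (p.1 * (σ p.1)⁻¹, σ p.1, p.2) with hQ2
      have hQ2l : Q2.length = l := by
        rw [hQ2, List.length_map, hl, ← hM, List.length_map]
      have e1 : (Q2.map fun q => (q.1 * q.2.1, q.2.2)) = M := by
        rw [hQ2, List.map_map]
        conv_rhs => rw [← List.map_id M]
        apply List.map_congr_left
        intro p _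
        simp
      have e2 : (Q2.map fun q => (q.2.1, q.2.2)) = Ms := by
        rw [hQ2, List.map_map, hMs]
        rfl
      have hWd : (1:ℝ) ≤ (W:ℝ) ^ d := one_le_pow₀ (by exact_mod_cast hW)
      have hNpos : (0:ℝ) < N := by exact_mod_cast hN1
      have hτ : B * (((W ^ d : ℕ) : ℝ) + 1) ^ D * (1 / N) < r' := by
        have e3 : (((W ^ d : ℕ) : ℝ) + 1) ^ D ≤ (2 * (W:ℝ) ^ d) ^ D := by
          apply pow_le_pow_left₀ (by positivity)
          push_cast
          linarith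
        have e4 : (N : ℝ) = A * (2 * (W:ℝ) ^ d) ^ D := by
          rw [hN]; push_cast; ring
        have hpos : (0:ℝ) < (2 * (W:ℝ) ^ d) ^ D := by positivity
        calc B * (((W ^ d : ℕ) : ℝ) + 1) ^ D * (1 / N) ≤ B * (2 * (W:ℝ) ^ d) ^ D * (1 / N) := by
              apply mul_le_mul_of_nonneg_right _ (by positivity)
              exact mul_le_mul_of_nonneg_left e3 (by linarith)
          _ = B / A := by rw [e4]; field_simp
          _ < r' := by
              rw [div_lt_iff₀ hApos]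
              rw [div_lt_iff₀ hr'pos] at hA
              linarith
      have hQ2b : ∀ q ∈ Q2, q.2.1 ∈ K ∧ nu q.1 ≤ 1 / N ∧ be q.2.2.1 q.2.2.2 a b ≤ W ^ d := by
        intro q hq
        rw [hQ2, List.mem_map] at hq
        obtain ⟨p, hp, rfl⟩ := hq
        have h1 := hσ p.1 (hMK p hp)
        refine ⟨hTK _ h1.1, h1.2, ?_⟩
        have h2 : p.2 ∈ Q := by rw [← hM]; exact List.mem_map_of_mem hp
        exact (be_le ha hb).trans (Nat.pow_le_pow_right hW (hdq _ h2))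
      have h3 := hgr Q2 hQ2l (1/N) (W ^ d) a b hQ2b (by positivity) (hτ.trans_le (min_le_left _ _))
      rw [e1, e2] at h3
      have h4 := hFρ (ev M a b * (ev Ms a b)⁻¹) (ev Ms a b)
        (lt_of_le_of_lt h3 (hτ.trans_le (min_le_right _ _)))
      rwa [inv_mul_cancel_right] at h4

end growth

end Pool.Agent.Lib.Pb4ed41
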