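import Mathlib
import Pool.Agent.Lib.Pb4ed41.Nss
import Pool.Agent.Lib.Pb4ed41.Leib

/-!
# Normal form of polynomial orbits
-/

open Topology Set
open scoped IsMulCommutative

set_option maxHeartbeats 4000000

namespace Pool.Agent.Lib.Pb4ed41

universe u

section newton

variable {A : Type u} [CommGroup A]

/-- one-variable multiplicative difference -/
def dl (f : ℕ → A) : ℕ → A := fun n => (f n)⁻¹ * f (n+1)

lemma newton1 (N : ℕ) : ∀ (a : ℕ) (f : ℕ → A), (∀ i, N ≤ i → dl^[i] f = 1) →
    f a = ∏ i ∈ Finset.range N, (dl^[i] f 0) ^ (a.choose i) := by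
  intro a
  induction a with
  | zero =>
    intro f hf
    cases N with
    | zero =>
      have := hf 0 le_rfl
      simp only [Function.iterate_zero, id_eq] at this
      rw [this]; simp
    | succ M =>
      rw [Finset.prod_range_succ']
      simp
  | succ a ih =>
    intro f hf
    have h1 : f (a+1) = f a * dl f a := by unfold dl; group
    have hdf : ∀ i, N ≤ i → dl^[i] (dl f) = 1 := by
      intro i hi
      rw [← Function.iterate_succ_apply]
      exact hf (i+1) (by omega)
    rw [h1, ih f hf, ih (dl f) hdf]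
    cases N with
    | zero => simp
    | succ M =>
      rw [Finset.prod_range_succ' (fun i => dl^[i] f 0 ^ a.choose i) M,
        Finset.prod_range_succ' (fun i => dl^[i] f 0 ^ (a+1).choose i) M,
        Finset.prod_range_succ (fun i => dl^[i] (dl f) 0 ^ a.choose i) M]
      have h2 : dl^[M] (dl f) = 1 := by
        rw [← Function.iterate_succ_apply]
        exact hf (M+1) le_rfl
      rw [h2]
      simp only [Pi.one_apply, one_pow, mul_one, Nat.choose_zero_right, pow_one,
        Function.iterate_zero, id_eq]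
      rw [mul_right_comm, ← Finset.prod_mul_distrib]
      congr 1
      apply Finset.prod_congr rfl
      intro i _
      rw [← Function.iterate_succ_apply, ← pow_add, Nat.choose_succ_succ, add_comm (a.choose i)]

lemma D1_iter_eq (i : ℕ) : ∀ (z : ℕ → ℕ → A) (a b : ℕ),
    (D1^[i] z) a b = dl^[i] (fun a => z a b) a := by
  induction i with
  | zero => intro z a b; rfl
  | succ i ih =>
    intro z a b
    rw [Function.iterate_succ_apply, Function.iterate_succ_apply, ih]
    rfl

lemma D2_iter_eq (j : ℕ) : ∀ (z : ℕ → ℕ → A) (a b : ℕ),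
    (D2^[j] z) a b = dl^[j] (z a) b := by
  induction j with
  | zero => intro z a b; rfl
  | succ i ih =>
    intro z a b
    rw [Function.iterate_succ_apply, Function.iterate_succ_apply, ih]
    rfl

lemma D1_D2_comm (z : ℕ → ℕ → A) : D1 (D2 z) = D2 (D1 z) := by
  funext a b
  show ((z a b)⁻¹ * z a (b+1))⁻¹ * ((z (a+1) b)⁻¹ * z (a+1) (b+1))
    = ((z a b)⁻¹ * z (a+1) b)⁻¹ * ((z a (b+1))⁻¹ * z (a+1) (b+1))
  rw [mul_inv, inv_inv, mul_inv, inv_inv]
  simp only [mul_comm, mul_left_comm, mul_assoc]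

lemma D1_iter_D2_iter_comm (i j : ℕ) (z : ℕ → ℕ → A) :
    D1^[i] (D2^[j] z) = D2^[j] (D1^[i] z) := by
  have h : Function.Commute (D1 : (ℕ → ℕ → A) → _) D2 := fun z => D1_D2_comm z
  exact ((h.iterate_left i).iterate_right j) z

lemma newton2 (N : ℕ) (z : ℕ → ℕ → A) (hz : ∀ i j, N ≤ i + j → D1^[i] (D2^[j] z) = 1) (a b : ℕ) :
    z a b = ∏ p ∈ Finset.range N ×ˢ Finset.range N,
      ((D1^[p.1] (D2^[p.2] z)) 0 0) ^ (be p.1 p.2 a b) := by
  have h1 : z a b = ∏ i ∈ Finset.range N, (dl^[i] (fun a => z a b) 0) ^ (a.choose i) := by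
    apply newton1 N a (fun a => z a b)
    intro i hi
    funext a'
    rw [← D1_iter_eq]
    have := hz i 0 (by omega)
    simp only [Function.iterate_zero, id_eq] at this
    rw [this]
    rfl
  rw [h1, Finset.prod_product]
  apply Finset.prod_congr rfl
  intro i _
  have h2 : dl^[i] (fun a => z a b) 0 = (D1^[i] z) 0 b := (D1_iter_eq i z 0 b).symm
  rw [h2]
  have h3 : (D1^[i] z) 0 b = ∏ j ∈ Finset.range N, (dl^[j] ((D1^[i] z) 0) 0) ^ (b.choose j) := by
    apply newton1 N b
    intro j hj
    funext b'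
    rw [← D2_iter_eq, ← D1_iter_D2_iter_comm, hz i j (by omega)]
    rfl
  rw [h3, ← Finset.prod_pow]
  apply Finset.prod_congr rfl
  intro j _
  rw [← D2_iter_eq, ← D1_iter_D2_iter_comm, ← pow_mul, mul_comm (b.choose j)]
  rfl

end newton

section evs

variable {G : Type u} [Group G]

lemma ev_inv (L : List (G × ℕ × ℕ)) : ∃ M : List (G × ℕ × ℕ), ev M = (ev L)⁻¹ ∧
    ∀ p ∈ M, ∃ q ∈ L, p.2 = q.2 := by
  induction L with
  | nil => exact ⟨[], by simp [ev_nil], by simp⟩
  | cons p L ih =>
    obtain ⟨M, hM, hM2⟩ := ih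
    refine ⟨M ++ [(p.1⁻¹, p.2)], ?_, ?_⟩
    · rw [ev_append, ev_cons, ev_cons, ev_nil, mul_one, hM, mul_inv_rev]
      congr 1
      funext a b
      show (p.1⁻¹) ^ _ = (p.1 ^ _)⁻¹
      rw [inv_pow]
    · intro q hq
      rw [List.mem_append] at hq
      rcases hq with hq | hq
      · obtain ⟨r, hr, hr2⟩ := hM2 q hq
        exact ⟨r, by simp [hr], hr2⟩
      · simp only [List.mem_singleton] at hq
        exact ⟨p, by simp, by rw [hq]⟩

lemma map_ev {H : Type*} [Group H] (φ : G →* H) (L : List (G × ℕ × ℕ)) (a b : ℕ) :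
    φ (ev L a b) = ev (L.map fun p => (φ p.1, p.2)) a b := by
  induction L with
  | nil => simp [ev_nil]
  | cons p L ih =>
    rw [List.map_cons, ev_cons, ev_cons]
    show φ (bp p.1 p.2.1 p.2.2 a b * ev L a b) = bp (φ p.1) p.2.1 p.2.2 a b * _
    rw [map_mul, ih]
    unfold bp
    rw [map_pow]

/-- all pairs of indices below `N` -/
noncomputable def pairs (N : ℕ) : List (ℕ × ℕ) := (Finset.range N ×ˢ Finset.range N).toList

lemma mem_pairs {N : ℕ} {p : ℕ × ℕ} : p ∈ pairs N ↔ p.1 < N ∧ p.2 < N := by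
  simp [pairs]

lemma ev_pairs_center (N : ℕ) (c : ℕ × ℕ → Subgroup.center G) (a b : ℕ) :
    ev ((pairs N).map fun p => ((c p : G), p)) a b
      = ((∏ p ∈ Finset.range N ×ˢ Finset.range N, (c p) ^ (be p.1 p.2 a b) : Subgroup.center G) : G) := by
  have h : ∀ L : List (ℕ × ℕ), ev (L.map fun p => ((c p : G), p)) a b
      = (((L.map fun p => (c p) ^ (be p.1 p.2 a b)).prod : Subgroup.center G) : G) := by
    intro L
    induction L with
    | nil => simp [ev_nil]
    | cons p L ih =>
      rw [List.map_cons, ev_cons, List.map_cons, List.prod_cons, Subgroup.coe_mul, ← ih]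
      rfl
  rw [h, pairs, Finset.prod_map_toList]

end evs

/-- Normal form: every ordered product of basic maps of a given shape is, up to a product of basic
maps with base elements in `Γ` on the right, a product of basic maps with base elements in a
compact set; the shapes and the compact set only depend on the given shape. -/
theorem normal_form (n : ℕ) : ∀ (G : Type u) [Group G] [TopologicalSpace G] [IsTopologicalGroup G]
    [T2Space G] [LocallyCompactSpace G] [Group.IsNilpotent G] (Γ : Subgroup G), GoodPair G Γ →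
    Group.nilpotencyClass G = n → ∀ (P : List (ℕ × ℕ)),
    ∃ (Q Q' : List (ℕ × ℕ)) (K : Set G), IsCompact K ∧
      ∀ L : List (G × ℕ × ℕ), L.map Prod.snd = P →
        ∃ M M' : List (G × ℕ × ℕ), M.map Prod.snd = Q ∧ M'.map Prod.snd = Q' ∧
          (∀ p ∈ M, p.1 ∈ K) ∧ (∀ p ∈ M', p.1 ∈ Γ) ∧ ev L = ev M * ev M' := by
  classical
  induction n with
  | zero =>
    intro G _ _ _ _ _ _ Γ hG hn P
    have hs : Subsingleton G := Group.nilpotencyClass_zero_iff_subsingleton.mp hn
    refine ⟨[], [], ∅, isCompact_empty, fun L _ => ⟨[], [], rfl, rfl, by simp, by simp, ?_⟩⟩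
    funext a b
    exact Subsingleton.elim _ _
  | succ n ih =>
    intro G _ _ _ _ _ _ Γ hG hn P
    set Z := Subgroup.center G with hZ
    have hZc : IsClosed (Z : Set G) := isClosed_center
    have hclass : Group.nilpotencyClass (G ⧸ Z) = n := by
      have := Group.nilpotencyClass_quotient_center (G := G)
      rw [hn] at this
      simpa using this
    obtain ⟨Q, Q', Kb, hKb, hQ⟩ := ih (G ⧸ Z) (Γ.map (QuotientGroup.mk' Z)) (goodPair_quot hG)
      hclass P
    obtain ⟨K1, hK1, hK1b⟩ := exists_compact_lift (f := (QuotientGroup.mk : G → G ⧸ Z))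
      QuotientGroup.isOpenMap_coe QuotientGroup.mk_surjective hKb
    obtain ⟨KZ, hKZ, hKZs, hKZc⟩ := center_cocompact hG
    obtain ⟨n', hn'⟩ := Subgroup.nilpotent_iff_lowerCentralSeries.mp
      (inferInstance : Group.IsNilpotent G)
    set d : ℕ := ((P ++ Q ++ Q').map fun p => p.1 + p.2).sum + 1 with hd
    have hdb : ∀ p ∈ P ++ Q ++ Q', p.1 + p.2 ≤ d := by
      intro p hp
      have : p.1 + p.2 ≤ ((P ++ Q ++ Q').map fun p => p.1 + p.2).sum :=
        List.single_le_sum (by simp) _ (List.mem_map_of_mem hp)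
      omega
    set N : ℕ := n' * d + 1 with hN
    refine ⟨Q ++ pairs N, pairs N ++ Q', K1 ∪ KZ, hK1.union hKZ, ?_⟩
    intro L hL
    set π : G →* G ⧸ Z := QuotientGroup.mk' Z with hπ
    obtain ⟨Mb, Mb', hMb, hMb', hMbK, hMb'Γ, hev⟩ := hQ (L.map fun p => (π p.1, p.2)) (by
      rw [List.map_map, ← hL]
      rfl)
    -- sections
    have hs1 : ∀ x : G ⧸ Z, ∃ y : G, x ∈ Kb → y ∈ K1 ∧ π y = x := by
      intro x
      by_cases hx : x ∈ Kb
      · obtain ⟨y, hy, hyx⟩ := hK1b hx
        exact ⟨y, fun _ => ⟨hy, hyx⟩⟩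
      · exact ⟨1, fun h => absurd h hx⟩
    choose s1 hs1 using hs1
    have hs2 : ∀ x : G ⧸ Z, ∃ y : G, x ∈ Γ.map π → y ∈ Γ ∧ π y = x := by
      intro x
      by_cases hx : x ∈ Γ.map π
      · obtain ⟨y, hy, hyx⟩ := hx
        exact ⟨y, fun _ => ⟨hy, hyx⟩⟩
      · exact ⟨1, fun h => absurd h hx⟩
    choose s2 hs2 using hs2
    set M := Mb.map fun p => (s1 p.1, p.2) with hM
    set M' := Mb'.map fun p => (s2 p.1, p.2) with hM'
    have hMQ : M.map Prod.snd = Q := by
      rw [hM, List.map_map, ← hMb]; rfl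
    have hMQ' : M'.map Prod.snd = Q' := by
      rw [hM', List.map_map, ← hMb']; rfl
    have hMK : ∀ p ∈ M, p.1 ∈ K1 := by
      intro p hp
      rw [hM, List.mem_map] at hp
      obtain ⟨q, hq, rfl⟩ := hp
      exact (hs1 q.1 (hMbK q hq)).1
    have hMΓ : ∀ p ∈ M', p.1 ∈ Γ := by
      intro p hp
      rw [hM', List.mem_map] at hp
      obtain ⟨q, hq, rfl⟩ := hp
      exact (hs2 q.1 (hMb'Γ q hq)).1
    have hMπ : (M.map fun p => (π p.1, p.2)) = Mb := by
      rw [hM, List.map_map]
      conv_rhs => rw [← List.map_id Mb]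
      apply List.map_congr_left
      intro p hp
      simp only [Function.comp_apply, id_eq]
      rw [(hs1 p.1 (hMbK p hp)).2]
    have hMπ' : (M'.map fun p => (π p.1, p.2)) = Mb' := by
      rw [hM', List.map_map]
      conv_rhs => rw [← List.map_id Mb']
      apply List.map_congr_left
      intro p hp
      simp only [Function.comp_apply, id_eq]
      rw [(hs2 p.1 (hMb'Γ p hp)).2]
    -- the central part
    set z : ℕ → ℕ → G := (ev M)⁻¹ * ev L * (ev M')⁻¹ with hz
    have hzZ : ∀ a b, z a b ∈ Z := by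
      intro a b
      rw [← QuotientGroup.eq_one_iff]
      show π ((ev M a b)⁻¹ * ev L a b * (ev M' a b)⁻¹) = 1
      rw [map_mul, map_mul, map_inv, map_inv, map_ev, map_ev, map_ev, hMπ, hMπ', hev]
      show (ev Mb a b)⁻¹ * (ev Mb a b * ev Mb' a b) * (ev Mb' a b)⁻¹ = 1
      group
    obtain ⟨Mi, hMi, hMi2⟩ := ev_inv M
    obtain ⟨Mi', hMi', hMi2'⟩ := ev_inv M'
    have hzev : z = ev (Mi ++ L ++ Mi') := by
      rw [ev_append, ev_append, hMi, hMi']
    have hdeg : ∀ p ∈ Mi ++ L ++ Mi', p.2.1 + p.2.2 ≤ d := by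
      intro p hp
      apply hdb
      rw [List.mem_append, List.mem_append] at hp
      rw [List.mem_append, List.mem_append]
      rcases hp with (hp | hp) | hp
      · obtain ⟨q, hq, hpq⟩ := hMi2 p hp
        left; right
        rw [hpq, ← hMQ]
        exact List.mem_map_of_mem hq
      · left; left
        rw [← hL]
        exact List.mem_map_of_mem hp
      · obtain ⟨q, hq, hpq⟩ := hMi2' p hp
        right
        rw [hpq, ← hMQ']
        exact List.mem_map_of_mem hq
    have hder : ∀ i j, N ≤ i + j → D1^[i] (D2^[j] z) = 1 := by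
      intro i j hij
      rw [hzev]
      exact der_ev_eq_one (n := n') (by omega) hn' _ hdeg i j hij
    -- as a map to the centre
    set zc : ℕ → ℕ → Z := fun a b => ⟨z a b, hzZ a b⟩ with hzc
    have hD1c : ∀ w : ℕ → ℕ → Z, (fun a b => ((D1 w) a b : G)) = D1 (fun a b => (w a b : G)) := by
      intro w; rfl
    have hD2c : ∀ w : ℕ → ℕ → Z, (fun a b => ((D2 w) a b : G)) = D2 (fun a b => (w a b : G)) := by
      intro w; rfl
    have hDD : ∀ (i j : ℕ), (fun a b => ((D1^[i] (D2^[j] zc)) a b : G)) = D1^[i] (D2^[j] z) := by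
      have h2 : ∀ (j : ℕ) (w : ℕ → ℕ → Z),
          (fun a b => ((D2^[j] w) a b : G)) = D2^[j] (fun a b => (w a b : G)) := by
        intro j
        induction j with
        | zero => intro w; rfl
        | succ j ihj =>
          intro w
          rw [Function.iterate_succ_apply, Function.iterate_succ_apply, ihj, hD2c]
      have h1 : ∀ (j : ℕ) (w : ℕ → ℕ → Z),
          (fun a b => ((D1^[j] w) a b : G)) = D1^[j] (fun a b => (w a b : G)) := by
        intro j
        induction j with
        | zero => intro w; rfl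
        | succ j ihj =>
          intro w
          rw [Function.iterate_succ_apply, Function.iterate_succ_apply, ihj, hD1c]
      intro i j
      rw [h1, h2]
    have hderc : ∀ i j, N ≤ i + j → D1^[i] (D2^[j] zc) = 1 := by
      intro i j hij
      funext a b
      apply Subtype.ext
      have := congrFun (congrFun (hDD i j) a) b
      rw [this, hder i j hij]
      rfl
    -- coefficients
    have hcoef : ∀ p : ℕ × ℕ, ∃ k γ : Z, (k : G) ∈ KZ ∧ (γ : G) ∈ Γ ∧
        (D1^[p.1] (D2^[p.2] zc)) 0 0 = k * γ := by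
      intro p
      obtain ⟨k, hk, γ, hγ, hkγ⟩ := hKZc _ ((D1^[p.1] (D2^[p.2] zc)) 0 0).2
      have hkZ : k ∈ Z := hKZs hk
      have hγZ : γ ∈ Z := by
        have : γ = k⁻¹ * ((D1^[p.1] (D2^[p.2] zc)) 0 0 : G) := by rw [hkγ]; group
        rw [this]
        exact Z.mul_mem (Z.inv_mem hkZ) ((D1^[p.1] (D2^[p.2] zc)) 0 0).2
      exact ⟨⟨k, hkZ⟩, ⟨γ, hγZ⟩, hk, hγ, Subtype.ext hkγ⟩
    choose kk gg hkk hgg hkg using hcoef
    set Lk : List (G × ℕ × ℕ) := (pairs N).map fun p => ((kk p : G), p) with hLk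
    set Lg : List (G × ℕ × ℕ) := (pairs N).map fun p => ((gg p : G), p) with hLg
    have hzsplit : z = ev Lk * ev Lg := by
      funext a b
      have h1 : zc a b = _ := newton2 N zc hderc a b
      have h2 : z a b = (zc a b : G) := rfl
      rw [h2, h1]
      show _ = ev Lk a b * ev Lg a b
      rw [ev_pairs_center, ev_pairs_center, ← Subgroup.coe_mul, ← Finset.prod_mul_distrib]
      congr 1
      apply Finset.prod_congr rfl
      intro p _
      rw [hkg p, mul_pow]
    refine ⟨M ++ Lk, Lg ++ M', ?_, ?_, ?_, ?_, ?_⟩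
    · rw [List.map_append, hMQ, hLk, List.map_map]
      congr 1
      conv_rhs => rw [← List.map_id (pairs N)]
      rfl
    · rw [List.map_append, hMQ', hLg, List.map_map]
      congr 1
      conv_rhs => rw [← List.map_id (pairs N)]
      rfl
    · intro p hp
      rw [List.mem_append] at hp
      rcases hp with hp | hp
      · exact Or.inl (hMK p hp)
      · rw [hLk, List.mem_map] at hp
        obtain ⟨q, _, rfl⟩ := hp
        exact Or.inr (hkk q)
    · intro p hp
      rw [List.mem_append] at hp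
      rcases hp with hp | hp
      · rw [hLg, List.mem_map] at hp
        obtain ⟨q, _, rfl⟩ := hp
        exact hgg q
      · exact hMΓ p hp
    · rw [ev_append, ev_append]
      have : ev L = ev M * z * ev M' := by rw [hz]; group
      rw [this, hzsplit]
      group

end Pool.Agent.Lib.Pb4ed41
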