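import Mathlib
import Pool.Agent.Lib.Pb4ed41.NF
import Pool.Agent.Lib.Pb4ed41.Growth

/-!
# Covering numbers of polynomial orbits in nilmanifolds
-/

open Topology Set Manifold

namespace Pool.Agent.Lib.Pb4ed41

universe u

lemma fg_of_cocompact {H : Type*} [Group H] [TopologicalSpace H] [IsTopologicalGroup H]
    {Γ : Subgroup H} (hd : ∃ U ∈ 𝓝 (1:H), ∀ x ∈ U, x ∈ Γ → x = 1) {K0 K' : Set H}
    (hK0 : IsCompact K0) (hK0Γ : ∀ g : H, ∃ k ∈ K0, ∃ γ ∈ Γ, g = k * γ)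
    (hK' : IsCompact K') (hgen : Subgroup.closure K' = ⊤) :
    ∃ S : Set H, S.Finite ∧ Subgroup.closure S = Γ := by
  set K1 : Set H := K0 ∪ {1} with hK1
  have hK1c : IsCompact K1 := hK0.union isCompact_singleton
  set X : Set H := K' ∪ (fun x => x⁻¹) '' K' ∪ {1} with hX
  have hXc : IsCompact X := (hK'.union (hK'.image continuous_inv)).union isCompact_singleton
  set B : Set H := (fun p : H × H × H => p.1⁻¹ * p.2.1 * p.2.2) '' (K1 ×ˢ X ×ˢ K1) with hB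
  have hBc : IsCompact B := (hK1c.prod (hXc.prod hK1c)).image (by fun_prop)
  set S : Set H := (Γ : Set H) ∩ B with hS
  have hSf : S.Finite := finite_inter hd hBc
  have hSΓ : Subgroup.closure S ≤ Γ := by
    rw [Subgroup.closure_le]
    exact inter_subset_left
  refine ⟨S, hSf, le_antisymm hSΓ ?_⟩
  have step : ∀ x ∈ X, ∀ y : H, (∃ k ∈ K1, ∃ γ ∈ Subgroup.closure S, y = k * γ) →
      ∃ k ∈ K1, ∃ γ ∈ Subgroup.closure S, x * y = k * γ := by
    rintro x hx y ⟨k, hk, γ, hγ, rfl⟩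
    obtain ⟨k', hk', δ, hδ, hxk⟩ := hK0Γ (x * k)
    have hδS : δ ∈ S := by
      refine ⟨hδ, ⟨(k', x, k), ⟨Or.inl hk', hx, hk⟩, ?_⟩⟩
      show k'⁻¹ * x * k = δ
      rw [mul_assoc, hxk]
      group
    refine ⟨k', Or.inl hk', δ * γ, Subgroup.mul_mem _ (Subgroup.subset_closure hδS) hγ, ?_⟩
    rw [← mul_assoc, hxk, mul_assoc]
  have hall : ∀ g : H, ∃ k ∈ K1, ∃ γ ∈ Subgroup.closure S, g = k * γ := by
    intro g
    have hg : g ∈ Subgroup.closure K' := by rw [hgen]; trivial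
    induction hg using Subgroup.closure_induction_left with
    | one => exact ⟨1, Or.inr rfl, 1, Subgroup.one_mem _, by simp⟩
    | mul_left x hx y _ ih => exact step x (Or.inl (Or.inl hx)) y ih
    | inv_mul_cancel x hx y _ ih => exact step x⁻¹ (Or.inl (Or.inr ⟨x, hx, rfl⟩)) y ih
  intro γ0 hγ0
  obtain ⟨k, hk, γ, hγ, hk0⟩ := hall γ0
  have hkΓ : k ∈ Γ := by
    have : k = γ0 * γ⁻¹ := by rw [hk0]; group
    rw [this]
    exact Γ.mul_mem hγ0 (Γ.inv_mem (hSΓ hγ))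
  have hkS : k ∈ S := by
    refine ⟨hkΓ, ⟨(1, 1, k), ⟨Or.inr rfl, Or.inr rfl, hk⟩, ?_⟩⟩
    show (1:H)⁻¹ * 1 * k = k
    group
  rw [hk0]
  exact Subgroup.mul_mem _ (Subgroup.subset_closure hkS) hγ

lemma ev_mem {G : Type*} [Group G] {Γ : Subgroup G} {M : List (G × ℕ × ℕ)}
    (hM : ∀ p ∈ M, p.1 ∈ Γ) (a b : ℕ) : ev M a b ∈ Γ := by
  induction M with
  | nil => exact Γ.one_mem
  | cons p M ih =>
    rw [ev_cons]
    exact Γ.mul_mem (Γ.pow_mem (hM p (by simp)) _) (ih fun q hq => hM q (by simp [hq]))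

/-- a gauge gives the absence of small subgroups -/
lemma nss_of_gauge {G : Type*} [Group G] [TopologicalSpace G] {nu : G → ℝ} (hnu : IsGauge nu) :
    ∃ U ∈ 𝓝 (1:G), ∀ x : G, (∀ n : ℕ, x ^ n ∈ U) → x = 1 := by
  obtain ⟨r, hr, h⟩ := hnu.sq
  refine ⟨{x | nu x < r}, hnu.nhds r hr, fun x hx => ?_⟩
  have h1 : ∀ m : ℕ, (3/2 : ℝ) ^ m * nu x ≤ nu (x ^ (2 ^ m)) := by
    intro m
    induction m with
    | zero => simp
    | succ m ih =>
      have h2 := h (x ^ (2 ^ m)) (hx (2 ^ m))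
      have h3 : x ^ (2 ^ (m+1)) = x ^ (2 ^ m) * x ^ (2 ^ m) := by
        rw [← pow_add, ← two_mul, pow_succ']
      rw [h3, pow_succ']
      calc 3 / 2 * (3 / 2 : ℝ) ^ m * nu x = 3 / 2 * ((3 / 2 : ℝ) ^ m * nu x) := by ring
        _ ≤ 3 / 2 * nu (x ^ (2 ^ m)) := by linarith
        _ ≤ _ := h2
  apply hnu.eq_one
  by_contra hne
  have hpos : 0 < nu x := lt_of_le_of_ne (hnu.nonneg x) (Ne.symm hne)
  obtain ⟨m, hm⟩ := pow_unbounded_of_one_lt (r / nu x) (show (1:ℝ) < 3/2 by norm_num)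
  rw [div_lt_iff₀ hpos] at hm
  have h2 := h1 m
  have h3 : nu (x ^ (2 ^ m)) < r := hx (2 ^ m)
  linarith

/-- Polynomial covering numbers, uniformly over all base elements in a finitely generated
subgroup. -/
theorem cover_nil {E : Type*} [NormedAddCommGroup E] [NormedSpace ℝ E] [FiniteDimensional ℝ E]
    {G : Type u} [TopologicalSpace G] [ChartedSpace E G] [Group G] [LieGroup 𝓘(ℝ, E) 1 G]
    [T2Space G] [Group.IsNilpotent G] (Γ : Subgroup G) [DiscreteTopology Γ] [CompactSpace (G ⧸ Γ)]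
    (F : G ⧸ Γ → ℂ) (hF : Continuous F) (S0 : Set G) (hS0 : S0.Finite) (P : List (ℕ × ℕ))
    (ε : ℝ) (hε : 0 < ε) : ∃ C : ℕ, ∀ W : ℕ, 1 ≤ W → ∃ PP : Finset (ℕ → ℕ → ℂ),
      PP.card ≤ C * W ^ C ∧ ∀ L : List (G × ℕ × ℕ), L.map Prod.snd = P →
        (∀ p ∈ L, p.1 ∈ Subgroup.closure S0) →
        ∃ p ∈ PP, ∀ a b : ℕ, a ≤ W → b ≤ W → ‖F (QuotientGroup.mk (ev L a b)) - p a b‖ ≤ ε := by
  classical
  have : IsTopologicalGroup G := topologicalGroup_of_lieGroup 𝓘(ℝ, E) 1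
  have : LocallyCompactSpace G := Manifold.locallyCompact_of_finiteDimensional 𝓘(ℝ, E)
  have hnu : IsGauge (nu E : G → ℝ) := isGauge_nu E
  obtain ⟨n, hn⟩ := itc_nil (G := G)
  -- discreteness
  have hd : ∃ U ∈ 𝓝 (1:G), ∀ x ∈ U, x ∈ Γ → x = 1 := by
    have h1 : ({1} : Set Γ) ∈ 𝓝 (1 : Γ) := by
      rw [nhds_discrete]; exact Filter.mem_pure.mpr rfl
    rw [nhds_induced, Filter.mem_comap] at h1
    obtain ⟨U, hU, hsub⟩ := h1
    refine ⟨U, hU, fun x hx hxΓ => ?_⟩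
    have h2 : (⟨x, hxΓ⟩ : Γ) ∈ ({1} : Set Γ) := hsub hx
    exact congrArg Subtype.val h2
  -- compact fundamental set
  obtain ⟨K0, hK0, hK0s⟩ := exists_compact_lift (f := (QuotientGroup.mk : G → G ⧸ Γ))
    QuotientGroup.isOpenMap_coe QuotientGroup.mk_surjective isCompact_univ
  have hK0Γ : ∀ g : G, ∃ k ∈ K0, ∃ γ ∈ Γ, g = k * γ := by
    intro g
    obtain ⟨k, hk, hkg⟩ := hK0s (mem_univ (QuotientGroup.mk g))
    rw [QuotientGroup.eq] at hkg
    exact ⟨k, hk, k⁻¹ * g, hkg, by group⟩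
  obtain ⟨N1, hN1c, hN1⟩ := exists_compact_mem_nhds (1:G)
  set K' : Set G := K0 ∪ N1 ∪ S0 with hK'
  have hK'c : IsCompact K' := (hK0.union hN1c).union hS0.isCompact
  set G1 : Subgroup G := Subgroup.closure K' with hG1
  have hK'G1 : K' ⊆ G1 := Subgroup.subset_closure
  have hG1o : IsOpen (G1 : Set G) := by
    apply Subgroup.isOpen_of_mem_nhds (g := 1)
    exact Filter.mem_of_superset hN1 fun x hx => hK'G1 (Or.inl (Or.inr hx))
  have : LocallyCompactSpace G1 := hG1o.locallyCompactSpace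
  set Γ1 : Subgroup G1 := Γ.subgroupOf G1 with hΓ1
  have hd1 : ∃ U ∈ 𝓝 (1:G1), ∀ x ∈ U, x ∈ Γ1 → x = 1 := by
    obtain ⟨U, hU, hU1⟩ := hd
    refine ⟨Subtype.val ⁻¹' U, continuous_subtype_val.continuousAt.preimage_mem_nhds hU, ?_⟩
    intro x hx hxΓ
    exact Subtype.ext (hU1 x hx hxΓ)
  have hcpt : ∀ X : Set G, IsCompact X → X ⊆ G1 → IsCompact (Subtype.val ⁻¹' X : Set G1) := by
    intro X hX hXG
    have himg : (Subtype.val '' (Subtype.val ⁻¹' X : Set G1) : Set G) = X := by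
      ext y
      constructor
      · rintro ⟨z, hz, rfl⟩
        exact hz
      · intro hy
        exact ⟨⟨y, hXG hy⟩, hy, rfl⟩
    rw [Subtype.isCompact_iff, himg]
    exact hX
  have hco1 : ∀ g : G1, ∃ k ∈ (Subtype.val ⁻¹' K0 : Set G1), ∃ γ ∈ Γ1, g = k * γ := by
    intro g
    obtain ⟨k, hk, γ, hγ, hg⟩ := hK0Γ g
    have hkG : k ∈ G1 := hK'G1 (Or.inl (Or.inl hk))
    have hγG : γ ∈ G1 := by
      have : γ = k⁻¹ * g := by rw [hg]; group
      rw [this]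
      exact G1.mul_mem (G1.inv_mem hkG) g.2
    exact ⟨⟨k, hkG⟩, hk, ⟨γ, hγG⟩, hγ, Subtype.ext hg⟩
  have hK0c1 : IsCompact (Subtype.val ⁻¹' K0 : Set G1) :=
    hcpt K0 hK0 fun x hx => hK'G1 (Or.inl (Or.inl hx))
  have hgen : Subgroup.closure (Subtype.val ⁻¹' K' : Set G1) = ⊤ :=
    Subgroup.closure_closure_coe_preimage
  have hgood : GoodPair G1 Γ1 := by
    refine ⟨hd1, ⟨_, hK0c1, hco1⟩, ?_, ?_⟩
    · exact fg_of_cocompact hd1 hK0c1 hco1 (hcpt K' hK'c hK'G1) hgen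
    · obtain ⟨U, hU, hU1⟩ := nss_of_gauge hnu
      refine ⟨Subtype.val ⁻¹' U, continuous_subtype_val.continuousAt.preimage_mem_nhds hU, ?_⟩
      intro x hx
      apply Subtype.ext
      apply hU1
      intro m
      have := hx m
      simpa using this
  obtain ⟨Q, Q', K, hK, hNF⟩ := normal_form _ G1 Γ1 hgood rfl P
  have hKi : IsCompact (Subtype.val '' K : Set G) := hK.image continuous_subtype_val
  -- uniform continuity
  have hunif : ∀ ε : ℝ, 0 < ε → ∃ ρ : ℝ, 0 < ρ ∧ ∀ e x : G, nu E e < ρ →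
      ‖F (QuotientGroup.mk (e * x)) - F (QuotientGroup.mk x)‖ ≤ ε := by
    intro ε hε
    have hcont : Continuous fun p : G × (G ⧸ Γ) => ‖F (p.1 • p.2) - F p.2‖ := by
      have h1 : Continuous fun p : G × (G ⧸ Γ) => p.1 • p.2 := continuous_smul
      exact ((hF.comp h1).sub (hF.comp continuous_snd)).norm
    have := isCompact_univ.eventually_forall_of_forall_eventually (X := G) (Y := G ⧸ Γ)
      (x₀ := (1:G)) (P := fun e z => ‖F (e • z) - F z‖ < ε) (by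
        intro z _
        have h1 : ‖F ((1:G) • z) - F z‖ < ε := by simpa using hε
        exact hcont.continuousAt.eventually_lt continuousAt_const h1)
    obtain ⟨ρ, hρ, hρU⟩ := hnu.basis _ this
    refine ⟨ρ, hρ, fun e x he => ?_⟩
    have h1 := hρU e he (QuotientGroup.mk x) (mem_univ _)
    exact h1.le
  obtain ⟨C, hC⟩ := cover_compact hnu hn hKi Q (fun g => F (QuotientGroup.mk g)) hunif ε hε
  refine ⟨C, fun W hW => ?_⟩
  obtain ⟨PP, hPP, hcov⟩ := hC W hW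
  refine ⟨PP, hPP, fun L hL hLS => ?_⟩
  have hLG : ∀ p ∈ L, p.1 ∈ G1 := by
    intro p hp
    have : Subgroup.closure S0 ≤ G1 := Subgroup.closure_mono fun x hx => Or.inr hx
    exact this (hLS p hp)
  have hsec : ∀ x : G, ∃ y : G1, x ∈ G1 → (y : G) = x := by
    intro x
    by_cases hx : x ∈ G1
    · exact ⟨⟨x, hx⟩, fun _ => rfl⟩
    · exact ⟨1, fun h => absurd h hx⟩
  choose s hs using hsec
  set L1 : List (G1 × ℕ × ℕ) := L.map fun p => (s p.1, p.2) with hL1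
  obtain ⟨M, M', hMQ, _, hMK, hM'Γ, hev⟩ := hNF L1 (by rw [hL1, List.map_map, ← hL]; rfl)
  have hLL : (L1.map fun p => (G1.subtype p.1, p.2)) = L := by
    rw [hL1, List.map_map]
    conv_rhs => rw [← List.map_id L]
    apply List.map_congr_left
    intro p hp
    simp only [Function.comp_apply, id_eq, Subgroup.coe_subtype]
    rw [hs p.1 (hLG p hp)]
  obtain ⟨p, hp, hpW⟩ := hcov (M.map fun p => (G1.subtype p.1, p.2))
    (by rw [List.map_map, ← hMQ]; rfl) (by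
      intro q hq
      rw [List.mem_map] at hq
      obtain ⟨r, hr, rfl⟩ := hq
      exact ⟨r.1, hMK r hr, rfl⟩)
  refine ⟨p, hp, fun a b ha hb => ?_⟩
  have h1 := hpW a b ha hb
  have h2 : (QuotientGroup.mk (ev L a b) : G ⧸ Γ)
      = QuotientGroup.mk (ev (M.map fun p => (G1.subtype p.1, p.2)) a b) := by
    rw [QuotientGroup.eq]
    have e1 : ev L a b = ev (M.map fun p => (G1.subtype p.1, p.2)) a b *
        ev (M'.map fun p => (G1.subtype p.1, p.2)) a b := by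
      rw [← hLL, ← map_ev, ← map_ev, ← map_ev, ← map_mul, hev]
      rfl
    rw [e1, mul_inv_rev, mul_assoc, inv_mul_cancel, mul_one]
    apply Γ.inv_mem
    apply ev_mem
    intro q hq
    rw [List.mem_map] at hq
    obtain ⟨r, hr, rfl⟩ := hq
    exact hM'Γ r hr
  rw [h2]
  exact h1

end Pool.Agent.Lib.Pb4ed41
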