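import Mathlib
import Pool.Agent.Lib.Pb4ed41.Comb
import Pool.Agent.Lib.Pb4ed41.Cover

/-!
# Test windows and decay of nilsequences along them
-/

open Filter Topology

namespace Pool.Agent.Lib.Pb4ed41

section digits

variable {ι : Type} [Fintype ι] [DecidableEq ι]

/-- digit sequence with prescribed values at distinct positions -/
def dseq (pos val : ι → ℕ) (s : ℕ) : ℕ := ∑ x, if s = pos x then val x else 0

omit [DecidableEq ι] in
lemma dseq_pos {pos val : ι → ℕ} (hpos : Function.Injective pos) (x : ι) :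
    dseq pos val (pos x) = val x := by
  classical
  unfold dseq
  rw [Finset.sum_eq_single x]
  · rw [if_pos rfl]
  · intro b _ hb
    rw [if_neg]
    intro h
    exact hb (hpos h).symm
  · intro h
    exact absurd (Finset.mem_univ x) h

omit [DecidableEq ι] in
lemma dseq_of_forall_ne {pos val : ι → ℕ} {s : ℕ} (h : ∀ x, s ≠ pos x) : dseq pos val s = 0 := by
  unfold dseq
  exact Finset.sum_eq_zero fun x _ => if_neg (h x)

omit [DecidableEq ι] in
lemma dseq_le {pos val : ι → ℕ} (hpos : Function.Injective pos) {c : ℕ} (hv : ∀ x, val x ≤ c)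
    (s : ℕ) : dseq pos val s ≤ c := by
  by_cases h : ∃ x, s = pos x
  · obtain ⟨x, rfl⟩ := h
    rw [dseq_pos hpos]
    exact hv x
  · push Not at h
    rw [dseq_of_forall_ne h]
    exact Nat.zero_le _

omit [DecidableEq ι] in
lemma num_dseq {pos val : ι → ℕ} {L : ℕ} (hL : ∀ x, pos x < L) :
    num L (dseq pos val) = ∑ x, val x * Q (pos x) := by
  unfold num dseq
  simp only [Finset.sum_mul]
  rw [Finset.sum_comm]
  refine Finset.sum_congr rfl fun x _ => ?_
  rw [Finset.sum_eq_single (pos x)]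
  · rw [if_pos rfl]
  · intro b _ hb
    rw [if_neg hb, zero_mul]
  · intro h
    exact absurd (Finset.mem_range.mpr (hL x)) h

end digits

/-- index type of the positions of level `j` -/
abbrev Ix (j : ℕ) : Type := Fin j ⊕ (Fin j ⊕ (Fin j × Fin j))

/-- positions -/
def pos (j : ℕ) : Ix j → ℕ
  | Sum.inl i => j^3 + i
  | Sum.inr (Sum.inl l) => j^3 + j + l
  | Sum.inr (Sum.inr (i, l)) => j^3 + 2 * j + (i * j + l)

/-- digit values -/
def vals (j : ℕ) (i : Fin j) (S : VV j) (u : Fin j → VV j) : Ix j → ℕ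
  | Sum.inl i' => if i' = i then 1 else 0
  | Sum.inr (Sum.inl l) => (S l).val
  | Sum.inr (Sum.inr (i', l)) => (u i' l).val

lemma pair_inj {j : ℕ} {i i' l l' : Fin j} (h : (i:ℕ) * j + l = i' * j + l') : i = i' ∧ l = l' := by
  have hl := l.2
  have hl' := l'.2
  have hj : 0 < j := by omega
  have h1 : ((i:ℕ) * j + l) / j = i := by
    rw [mul_comm, Nat.mul_add_div hj, Nat.div_eq_of_lt hl, add_zero]
  have h2 : ((i':ℕ) * j + l') / j = i' := by
    rw [mul_comm, Nat.mul_add_div hj, Nat.div_eq_of_lt hl', add_zero]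
  have h3 : (i:ℕ) = i' := by rw [← h1, ← h2, h]
  refine ⟨Fin.ext h3, Fin.ext ?_⟩
  rw [h3] at h
  omega

lemma pos_inj (j : ℕ) : Function.Injective (pos j) := by
  rintro (i | l | ⟨i, l⟩) (i' | l' | ⟨i', l'⟩) h <;> simp only [pos] at h
  · congr 1
    exact Fin.ext (by omega)
  · have := i.2
    omega
  · have := i.2
    omega
  · have := i'.2
    omega
  · congr 2
    exact Fin.ext (by omega)
  · have := l.2
    omega
  · have := i'.2
    omega
  · have := l'.2
    omega
  · obtain ⟨h1, h2⟩ := pair_inj (i := i) (i' := i') (l := l) (l' := l') (by omega)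
    rw [h1, h2]

lemma pos_lt (j : ℕ) (x : Ix j) : pos j x < (j+1)^3 := by
  rcases x with i | l | ⟨i, l⟩
  · exact (kap_pos_lt i i).1
  · exact (kap_pos_lt l l).2.1
  · exact (kap_pos_lt i l).2.2

lemma le_pos (j : ℕ) (x : Ix j) : j^3 ≤ pos j x := by
  rcases x with i | l | ⟨i, l⟩ <;> simp only [pos] <;> omega

lemma vals_le (j : ℕ) (i : Fin j) (S : VV j) (u : Fin j → VV j) (x : Ix j) :
    vals j i S u x ≤ 4 := by
  rcases x with i' | l | ⟨i', l⟩ <;> simp only [vals]
  · split_ifs <;> norm_num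
  · have : (S l).val < 5 := ZMod.val_lt _
    omega
  · have : (u i' l).val < 5 := ZMod.val_lt _
    omega

/-- the digits of a window point -/
def dd (j : ℕ) (i : Fin j) (S : VV j) (u : Fin j → VV j) : ℕ → ℕ := dseq (pos j) (vals j i S u)

/-- the window points -/
def nn (j : ℕ) (i : Fin j) (S : VV j) (u : Fin j → VV j) : ℕ := num ((j+1)^3) (dd j i S u)

lemma dd_le (j : ℕ) (i : Fin j) (S : VV j) (u : Fin j → VV j) (s : ℕ) : dd j i S u s ≤ 4 :=
  dseq_le (pos_inj j) (vals_le j i S u) s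

lemma dd_low (j : ℕ) (i : Fin j) (S : VV j) (u : Fin j → VV j) {s : ℕ} (hs : s < j^3) :
    dd j i S u s = 0 :=
  dseq_of_forall_ne fun x h => by
    have := le_pos j x
    omega

lemma kap_dd (j : ℕ) (i : Fin j) (S : VV j) (u : Fin j → VV j) :
    kap j (fun s => (dd j i S u s : ZMod 5)) = dot S (u i) := by
  unfold kap dot
  have h1 : ∀ i' : Fin j, dd j i S u (j^3 + i') = if i' = i then 1 else 0 := fun i' =>
    dseq_pos (pos_inj j) (Sum.inl i')
  have h2 : ∀ l : Fin j, dd j i S u (j^3 + j + l) = (S l).val := fun l =>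
    dseq_pos (pos_inj j) (Sum.inr (Sum.inl l))
  have h3 : ∀ i' l : Fin j, dd j i S u (j^3 + 2 * j + (i' * j + l)) = (u i' l).val := fun i' l =>
    dseq_pos (pos_inj j) (Sum.inr (Sum.inr (i', l)))
  simp only [h1, h2, h3, ZMod.natCast_val, ZMod.cast_id]
  rw [Finset.sum_eq_single i]
  · refine Finset.sum_congr rfl fun l _ => ?_
    rw [if_pos rfl]
    simp
  · intro b _ hb
    apply Finset.sum_eq_zero
    intro l _
    rw [if_neg hb]
    simp
  · intro h
    exact absurd (Finset.mem_univ i) h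

/-- the first part -/
def aa (j : ℕ) (i : Fin j) : ℕ := Q (j^3 + i) / Q (j^3)

/-- the second part -/
def bb' (j : ℕ) (S : VV j) : ℕ := ∑ l, (S l).val * (Q (j^3 + j + l) / Q (j^3))

/-- the third part -/
def uu (j : ℕ) (u : Fin j → VV j) : ℕ :=
  ∑ i : Fin j, ∑ l : Fin j, (u i l).val * Q (j^3 + 2 * j + (i * j + l))

lemma nn_eq (j : ℕ) (i : Fin j) (S : VV j) (u : Fin j → VV j) :
    nn j i S u = Q (j^3) * aa j i + Q (j^3) * bb' j S + uu j u := by
  unfold nn dd
  rw [num_dseq (pos_lt j), Fintype.sum_sum_type, Fintype.sum_sum_type, Fintype.sum_prod_type]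
  simp only [vals, pos]
  have h1 : ∑ x : Fin j, (if x = i then 1 else 0) * Q (j^3 + x) = Q (j^3) * aa j i := by
    rw [Finset.sum_eq_single i]
    · rw [if_pos rfl, one_mul]
      unfold aa
      rw [Nat.mul_div_cancel' (Q_dvd_of_le (by omega))]
    · intro b _ hb
      rw [if_neg hb, zero_mul]
    · intro h
      exact absurd (Finset.mem_univ i) h
  have h2 : ∑ x : Fin j, (S x).val * Q (j^3 + j + x) = Q (j^3) * bb' j S := by
    unfold bb'
    rw [Finset.mul_sum]
    refine Finset.sum_congr rfl fun l _ => ?_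
    have h : Q (j^3 + j + l) = Q (j^3) * (Q (j^3 + j + l) / Q (j^3)) :=
      (Nat.mul_div_cancel' (Q_dvd_of_le (by omega))).symm
    conv_lhs => rw [h]
    ring
  rw [h1, h2]
  unfold uu
  ring

/-- the window size -/
def WW (j : ℕ) : ℕ := 2 * (5 * (j^3 + 2*j)^2) ^ (2*j)

lemma Q_ratio (s t : ℕ) : Q (s + t) ≤ Q s * (5 * (s + t)^2) ^ t := by
  induction t with
  | zero => simp
  | succ t ih =>
    have h1 : Q (s + (t + 1)) = Q (s + t) * (5 * (s + (t+1))^2) := by
      rw [← add_assoc, Q]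
    have h2 : Q s * (5 * (s + (t+1))^2) ^ (t+1) =
        (Q s * (5 * (s + (t+1))^2) ^ t) * (5 * (s + (t+1))^2) := by ring
    rw [h1, h2]
    apply Nat.mul_le_mul_right
    refine ih.trans (Nat.mul_le_mul_left _ ?_)
    apply Nat.pow_le_pow_left
    apply Nat.mul_le_mul_left
    apply Nat.pow_le_pow_left
    omega

lemma WW_pos {j : ℕ} (hj : 1 ≤ j) : 1 ≤ WW j := by
  unfold WW
  have : 0 < j^3 + 2*j := by positivity
  have : 0 < 2 * (5 * (j^3 + 2*j)^2) ^ (2*j) := by positivity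
  omega

lemma Q_top_le (j : ℕ) : 2 * (Q (j^3 + 2*j) / Q (j^3)) ≤ WW j := by
  unfold WW
  apply Nat.mul_le_mul_left
  exact Nat.div_le_of_le_mul (Q_ratio _ _)

lemma aa_le (j : ℕ) (i : Fin j) : aa j i ≤ WW j := by
  refine le_trans ?_ (Q_top_le j)
  unfold aa
  have h1 : Q (j^3 + i) / Q (j^3) ≤ Q (j^3 + 2*j) / Q (j^3) :=
    Nat.div_le_div_right (Q_mono (by omega))
  omega

lemma bb_le (j : ℕ) (S : VV j) : bb' j S ≤ WW j := by
  refine le_trans ?_ (Q_top_le j)
  rcases Nat.eq_zero_or_pos j with rfl | hj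
  · simp [bb']
  · have h0 : Q (j^3) * bb' j S = ∑ x : Fin j, (S x).val * Q (j^3 + j + x) := by
      unfold bb'
      rw [Finset.mul_sum]
      refine Finset.sum_congr rfl fun l _ => ?_
      have h : Q (j^3 + j + l) = Q (j^3) * (Q (j^3 + j + l) / Q (j^3)) :=
        (Nat.mul_div_cancel' (Q_dvd_of_le (by omega))).symm
      conv_rhs => rw [h]
      ring
    have h1 : ∑ x : Fin j, (S x).val * Q (j^3 + j + x) ≤ 4 * ∑ x : Fin j, Q (j^3 + j + x) := by
      rw [Finset.mul_sum]
      refine Finset.sum_le_sum fun x _ => Nat.mul_le_mul_right _ ?_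
      have : (S x).val < 5 := ZMod.val_lt _
      omega
    have h2 : ∑ x : Fin j, Q (j^3 + j + x) = ∑ x ∈ Finset.range j, Q (j^3 + j + x) :=
      Fin.sum_univ_eq_sum_range (fun x => Q (j^3 + j + x)) j
    have h3 : ∑ x ∈ Finset.range j, Q (j^3 + j + x) ≤ ∑ x ∈ Finset.range (j^3 + 2*j), Q x := by
      have : ∑ x ∈ Finset.range j, Q (j^3 + j + x) = ∑ x ∈ Finset.Ico (j^3+j) (j^3+2*j), Q x := by
        rw [Finset.sum_Ico_eq_sum_range]
        have : j^3 + 2*j - (j^3+j) = j := by omega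
        rw [this]
      rw [this]
      apply Finset.sum_le_sum_of_subset
      intro x hx
      rw [Finset.mem_Ico] at hx
      rw [Finset.mem_range]
      exact hx.2
    obtain ⟨t, ht⟩ : ∃ t, j^3 + 2*j = t + 1 := ⟨j^3 + 2*j - 1, by omega⟩
    have h4 := sum_Q_le t
    have h5 := five_Q_le t
    rw [← ht] at h4 h5
    have h6 : Q (j^3) * bb' j S ≤ 2 * Q (j^3 + 2*j) := by
      rw [h0]
      calc _ ≤ 4 * ∑ x : Fin j, Q (j^3 + j + x) := h1
        _ ≤ 4 * (2 * Q t) := Nat.mul_le_mul_left _ (by rw [h2]; exact h3.trans h4)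
        _ ≤ 2 * Q (j^3 + 2*j) := by omega
    have h7 : Q (j^3 + 2*j) = Q (j^3) * (Q (j^3 + 2*j) / Q (j^3)) :=
      (Nat.mul_div_cancel' (Q_dvd_of_le (by omega))).symm
    rw [h7] at h6
    have h8 : Q (j^3) * bb' j S ≤ Q (j^3) * (2 * (Q (j^3 + 2*j) / Q (j^3))) := by
      calc _ ≤ 2 * (Q (j^3) * (Q (j^3 + 2*j) / Q (j^3))) := h6
        _ = _ := by ring
    exact Nat.le_of_mul_le_mul_left h8 (Q_pos _)

/-- the test functional -/
noncomputable def lam (j : ℕ) (N : ℕ → ℂ) : ℂ :=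
  ((j : ℂ) * 5 ^ j * (5 ^ j) ^ j)⁻¹ *
    ∑ u : Fin j → VV j, ∑ i : Fin j, ∑ S : VV j, N (nn j i S u) * chi (dot S (u i))

lemma lam_const_eq {j : ℕ} (c : ℝ) (hj : 1 ≤ j) :
    ‖((j : ℂ) * 5 ^ j * (5 ^ j) ^ j)⁻¹‖ *
      ∑ _u : Fin j → VV j, ∑ _i : Fin j, ∑ _S : VV j, c = c := by
  have hj' : (j:ℝ) ≠ 0 := by positivity
  have h1 : ∑ _u : Fin j → VV j, ∑ _i : Fin j, ∑ _S : VV j, c = ((j : ℝ) * 5 ^ j * (5 ^ j) ^ j) * c := by
    simp only [Finset.sum_const, Finset.card_univ, Fintype.card_fun, ZMod.card, Fintype.card_fin,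
      nsmul_eq_mul]
    push_cast
    ring
  rw [h1, norm_inv, norm_mul, norm_mul, norm_pow, norm_pow, norm_pow]
  have h2 : ‖(5:ℂ)‖ = 5 := by simp
  rw [h2, Complex.norm_natCast]
  rw [← mul_assoc, inv_mul_cancel₀ (by positivity), one_mul]

/-- the test functional is bounded by the supremum -/
lemma norm_lam_le {j : ℕ} (hj : 1 ≤ j) {N : ℕ → ℂ} {c : ℝ} (hN : ∀ n, ‖N n‖ ≤ c) :
    ‖lam j N‖ ≤ c := by
  rw [← lam_const_eq c hj]
  unfold lam
  rw [norm_mul]
  apply mul_le_mul_of_nonneg_left _ (norm_nonneg _)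
  refine (norm_sum_le _ _).trans (Finset.sum_le_sum fun u _ => ?_)
  refine (norm_sum_le _ _).trans (Finset.sum_le_sum fun i _ => ?_)
  refine (norm_sum_le _ _).trans (Finset.sum_le_sum fun S _ => ?_)
  rw [norm_mul, norm_chi, mul_one]
  exact hN _

lemma lam_sub (j : ℕ) (N N' : ℕ → ℂ) : lam j (fun n => N n - N' n) = lam j N - lam j N' := by
  unfold lam
  rw [← mul_sub, ← Finset.sum_sub_distrib]
  congr 1
  refine Finset.sum_congr rfl fun u _ => ?_
  rw [← Finset.sum_sub_distrib]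
  refine Finset.sum_congr rfl fun i _ => ?_
  rw [← Finset.sum_sub_distrib]
  refine Finset.sum_congr rfl fun S _ => ?_
  ring

/-- the combinatorial core: few patterns imply decay -/
lemma lam_le {j : ℕ} (hj : 1 ≤ j) {N : ℕ → ℂ} {M ε : ℝ} (hM : 0 < M) (hε : 0 < ε)
    (hN : ∀ n, ‖N n‖ ≤ M - ε) (hB : 1 ≤ (5:ℝ)^j * ε^2 / 4) (PP : Finset (ℕ → ℕ → ℂ))
    (hcov : ∀ u : Fin j → VV j, ∃ p ∈ PP, ∀ (i : Fin j) (S : VV j),
      ‖N (nn j i S u) - p (aa j i) (bb' j S)‖ ≤ ε) :
    ‖lam j N‖ ≤ 2 * ε + M * (PP.card * ((1 + M^2)^j * ((5:ℝ)^j * ε^2 / 4) ^ (-(ε / (2*M) * j)))) := by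
  classical
  set A : ℝ := (5:ℝ)^j with hA
  have hA0 : 0 < A := by positivity
  have hj0 : (0:ℝ) < j := by exact_mod_cast hj
  set B : ℝ := A * ε^2 / 4 with hBd
  have hB0 : 0 < B := by positivity
  set θ : ℝ := ε / (2*M) * j with hθ
  set Pf : (ℕ → ℕ → ℂ) → Fin j → VV j → ℝ :=
    fun p i v => ‖hat (fun S => p (aa j i) (bb' j S)) v‖ / A with hPf
  set PP' : Finset (ℕ → ℕ → ℂ) := PP.filter fun p => ∀ (i : Fin j) (S : VV j),
    ‖p (aa j i) (bb' j S)‖ ≤ M with hPP'
  set bad : (ℕ → ℕ → ℂ) → Finset (Fin j → VV j) :=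
    fun p => Finset.univ.filter fun u : Fin j → VV j => ε * j < ∑ i, Pf p i (u i) with hbad
  have hcardbad : ∀ p ∈ PP', ((bad p).card : ℝ) ≤ (A * (1 + M^2))^j * B ^ (-θ) := by
    intro p hp
    rw [hPP', Finset.mem_filter] at hp
    have hp2 := hp.2
    have hsumA : ∑ _S : VV j, (1:ℝ) = A := by
      rw [Finset.sum_const, Finset.card_univ, card_VV, nsmul_eq_mul, mul_one]
      push_cast
      rfl
    have h1 : ∀ i v, Pf p i v ≤ M := by
      intro i v
      rw [hPf]
      show ‖hat (fun S => p (aa j i) (bb' j S)) v‖ / A ≤ M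
      rw [div_le_iff₀ hA0]
      unfold hat
      refine (norm_sum_le _ _).trans ?_
      calc ∑ S : VV j, ‖p (aa j i) (bb' j S) * chi (dot S v)‖ ≤ ∑ _S : VV j, M * 1 := by
            refine Finset.sum_le_sum fun S _ => ?_
            rw [norm_mul, norm_chi]
            exact mul_le_mul_of_nonneg_right (hp2 i S) zero_le_one
        _ = M * A := by rw [← Finset.mul_sum, hsumA]
    have h2 : ∀ i, ∑ v, Pf p i v ^ 2 ≤ M ^ 2 := by
      intro i
      have h3 : ∑ v, Pf p i v ^ 2 = (∑ v, ‖hat (fun S => p (aa j i) (bb' j S)) v‖ ^ 2) / A ^ 2 := by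
        rw [Finset.sum_div]
        refine Finset.sum_congr rfl fun v _ => ?_
        rw [hPf]
        show (‖hat (fun S => p (aa j i) (bb' j S)) v‖ / A) ^ 2 = _
        rw [div_pow]
      rw [h3, parseval, div_le_iff₀ (by positivity)]
      calc (5:ℝ)^j * ∑ S : VV j, ‖p (aa j i) (bb' j S)‖ ^ 2 ≤ A * ∑ _S : VV j, M^2 * 1 := by
            apply mul_le_mul_of_nonneg_left _ hA0.le
            refine Finset.sum_le_sum fun S _ => ?_
            rw [mul_one]
            exact pow_le_pow_left₀ (norm_nonneg _) (hp2 i S) 2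
        _ = M^2 * A^2 := by rw [← Finset.mul_sum, hsumA]; ring
    have h4 := count_bad (Pf p) hM hε h1 h2 hB
    rw [Real.rpow_neg hB0.le, ← div_eq_mul_inv, le_div_iff₀ (Real.rpow_pos_of_pos hB0 _)]
    exact h4
  set Bad : Finset (Fin j → VV j) := PP'.biUnion bad with hBad
  have hcardBad : (Bad.card : ℝ) ≤ PP.card * ((A * (1 + M^2))^j * B ^ (-θ)) := by
    have h1 : (Bad.card : ℝ) ≤ ∑ p ∈ PP', ((bad p).card : ℝ) := by
      exact_mod_cast Finset.card_biUnion_le
    calc (Bad.card : ℝ) ≤ ∑ p ∈ PP', ((bad p).card : ℝ) := h1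
      _ ≤ ∑ p ∈ PP', (A * (1 + M^2))^j * B ^ (-θ) := Finset.sum_le_sum hcardbad
      _ = PP'.card * ((A * (1 + M^2))^j * B ^ (-θ)) := by rw [Finset.sum_const, nsmul_eq_mul]
      _ ≤ _ := by
        apply mul_le_mul_of_nonneg_right
        · exact_mod_cast Finset.card_filter_le _ _
        · have := Real.rpow_nonneg hB0.le (-θ)
          positivity
  have hinner : ∀ u : Fin j → VV j,
      ‖∑ i : Fin j, ∑ S : VV j, N (nn j i S u) * chi (dot S (u i))‖ ≤
        2 * ε * (j * A) + (if u ∈ Bad then M * (j * A) else 0) := by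
    intro u
    have hsum1 : ∀ c : ℝ, ∑ _i : Fin j, ∑ _S : VV j, c = c * (j * A) := by
      intro c
      simp only [Finset.sum_const, Finset.card_univ, card_VV, Fintype.card_fin, nsmul_eq_mul]
      rw [hA]
      push_cast
      ring
    by_cases hu : u ∈ Bad
    · rw [if_pos hu]
      have h1 : ‖∑ i : Fin j, ∑ S : VV j, N (nn j i S u) * chi (dot S (u i))‖ ≤ M * (j * A) := by
        rw [← hsum1]
        refine (norm_sum_le _ _).trans (Finset.sum_le_sum fun i _ => ?_)
        refine (norm_sum_le _ _).trans (Finset.sum_le_sum fun S _ => ?_)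
        rw [norm_mul, norm_chi, mul_one]
        have := hN (nn j i S u)
        linarith
      have : 0 ≤ 2 * ε * (j * A) := by positivity
      linarith
    · rw [if_neg hu, add_zero]
      obtain ⟨p, hp, hpc⟩ := hcov u
      have hpM : ∀ (i : Fin j) (S : VV j), ‖p (aa j i) (bb' j S)‖ ≤ M := by
        intro i S
        have h1 := hpc i S
        have h2 := hN (nn j i S u)
        have h3 : ‖p (aa j i) (bb' j S)‖ ≤
            ‖N (nn j i S u)‖ + ‖N (nn j i S u) - p (aa j i) (bb' j S)‖ := by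
          have h4 := norm_sub_le (N (nn j i S u)) (N (nn j i S u) - p (aa j i) (bb' j S))
          rwa [sub_sub_cancel] at h4
        linarith
      have hpP' : p ∈ PP' := Finset.mem_filter.mpr ⟨hp, hpM⟩
      have hnb : ∑ i, Pf p i (u i) ≤ ε * j := by
        by_contra hcon
        push Not at hcon
        apply hu
        rw [hBad, Finset.mem_biUnion]
        exact ⟨p, hpP', Finset.mem_filter.mpr ⟨Finset.mem_univ _, hcon⟩⟩
      have hsplit : ∑ i : Fin j, ∑ S : VV j, N (nn j i S u) * chi (dot S (u i)) =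
          (∑ i : Fin j, ∑ S : VV j, (N (nn j i S u) - p (aa j i) (bb' j S)) * chi (dot S (u i))) +
            ∑ i : Fin j, hat (fun S => p (aa j i) (bb' j S)) (u i) := by
        rw [← Finset.sum_add_distrib]
        refine Finset.sum_congr rfl fun i _ => ?_
        unfold hat
        rw [← Finset.sum_add_distrib]
        refine Finset.sum_congr rfl fun S _ => ?_
        ring
      rw [hsplit]
      refine (norm_add_le _ _).trans ?_
      have h1 : ‖∑ i : Fin j, ∑ S : VV j, (N (nn j i S u) - p (aa j i) (bb' j S)) *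
          chi (dot S (u i))‖ ≤ ε * (j * A) := by
        rw [← hsum1]
        refine (norm_sum_le _ _).trans (Finset.sum_le_sum fun i _ => ?_)
        refine (norm_sum_le _ _).trans (Finset.sum_le_sum fun S _ => ?_)
        rw [norm_mul, norm_chi, mul_one]
        exact hpc i S
      have h2 : ‖∑ i : Fin j, hat (fun S => p (aa j i) (bb' j S)) (u i)‖ ≤ ε * (j * A) := by
        refine (norm_sum_le _ _).trans ?_
        have h3 : ∀ i : Fin j, ‖hat (fun S => p (aa j i) (bb' j S)) (u i)‖ = Pf p i (u i) * A := by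
          intro i
          rw [hPf]
          show _ = ‖hat (fun S => p (aa j i) (bb' j S)) (u i)‖ / A * A
          rw [div_mul_cancel₀ _ hA0.ne']
        simp only [h3]
        rw [← Finset.sum_mul]
        calc (∑ i, Pf p i (u i)) * A ≤ (ε * j) * A := mul_le_mul_of_nonneg_right hnb hA0.le
          _ = _ := by ring
      linarith
  have hnormc : ‖((j : ℂ) * 5 ^ j * (5 ^ j) ^ j)⁻¹‖ = (j * A * A^j)⁻¹ := by
    rw [norm_inv, norm_mul, norm_mul, norm_pow, norm_pow, norm_pow]
    have h2 : ‖(5:ℂ)‖ = 5 := by simp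
    rw [h2, Complex.norm_natCast]
  unfold lam
  rw [norm_mul, hnormc]
  have htot : ‖∑ u : Fin j → VV j, ∑ i : Fin j, ∑ S : VV j, N (nn j i S u) * chi (dot S (u i))‖ ≤
      A^j * (2 * ε * (j * A)) + Bad.card * (M * (j * A)) := by
    refine (norm_sum_le _ _).trans ((Finset.sum_le_sum fun u _ => hinner u).trans ?_)
    rw [Finset.sum_add_distrib, Finset.sum_const, Finset.card_univ, Fintype.card_fun, card_VV,
      Fintype.card_fin, nsmul_eq_mul, Finset.sum_ite_mem, Finset.univ_inter, Finset.sum_const,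
      nsmul_eq_mul]
    push_cast
    rfl
  have hden : 0 < (j:ℝ) * A * A^j := by positivity
  calc (j * A * A^j)⁻¹ * ‖∑ u : Fin j → VV j, ∑ i : Fin j, ∑ S : VV j,
        N (nn j i S u) * chi (dot S (u i))‖
      ≤ (j * A * A^j)⁻¹ * (A^j * (2 * ε * (j * A)) + Bad.card * (M * (j * A))) :=
        mul_le_mul_of_nonneg_left htot (by positivity)
    _ ≤ (j * A * A^j)⁻¹ * (A^j * (2 * ε * (j * A)) +
          (PP.card * ((A * (1 + M^2))^j * B ^ (-θ))) * (M * (j * A))) := by
        apply mul_le_mul_of_nonneg_left _ (by positivity)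
        have := mul_le_mul_of_nonneg_right hcardBad (show 0 ≤ M * (j * A) by positivity)
        linarith
    _ = 2 * ε + M * (PP.card * ((1 + M^2)^j * B ^ (-θ))) := by
        rw [mul_pow]
        field_simp

end Pool.Agent.Lib.Pb4ed41
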