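import Mathlib
import Pool.Agent.Lib.Pb4ed41.Window

/-!
# Nilsequences decay along the windows
-/

open Filter Topology Manifold

namespace Pool.Agent.Lib.Pb4ed41

universe u

section lists

variable {G : Type*} [Group G]

/-- the list attached to a diagonal orbit -/
def LL (bs : List G) (q d : ℕ) (g0 : G) : List (G × ℕ × ℕ) :=
  (bs.flatMap fun b => [(b^q, 1, 0), (b^q, 0, 1), (b^d, 0, 0)]) ++ [(g0, 0, 0)]

/-- its shape -/
def SH (n : ℕ) : List (ℕ × ℕ) :=
  ((List.range n).flatMap fun _ => [(1, 0), (0, 1), (0, 0)]) ++ [(0, 0)]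

lemma LL_shape (bs : List G) (q d : ℕ) (g0 : G) : (LL bs q d g0).map Prod.snd = SH bs.length := by
  unfold LL SH
  rw [List.map_append]
  congr 1
  induction bs with
  | nil => rfl
  | cons b bs ih =>
    rw [List.flatMap_cons, List.map_append, ih, List.length_cons, List.range_succ_eq_map,
      List.flatMap_cons, List.flatMap_map]
    rfl

lemma ev_LL (bs : List G) (q d : ℕ) (g0 : G) (a b : ℕ) :
    ev (LL bs q d g0) a b = (bs.map fun x => x ^ (q*a + q*b + d)).prod * g0 := by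
  unfold LL
  rw [ev_append, Pi.mul_apply, Pi.mul_apply]
  congr 1
  · induction bs with
    | nil => rfl
    | cons x bs ih =>
      rw [List.flatMap_cons, ev_append, Pi.mul_apply, Pi.mul_apply, ih, List.map_cons,
        List.prod_cons]
      congr 1
      simp only [ev, bp, be, List.map_cons, List.map_nil, List.prod_cons, List.prod_nil, mul_one,
        Pi.mul_apply, Nat.choose_one_right, Nat.choose_zero_right, one_mul, pow_one]
      rw [← pow_mul, ← pow_mul, ← pow_add, ← pow_add]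
      congr 1
      ring
  · simp [ev, bp, be]

lemma LL_mem (bs : List G) (q d : ℕ) (g0 : G) (p : G × ℕ × ℕ) (hp : p ∈ LL bs q d g0) :
    p.1 ∈ Subgroup.closure ({x | x ∈ bs} ∪ {g0}) := by
  unfold LL at hp
  rw [List.mem_append, List.mem_flatMap, List.mem_singleton] at hp
  rcases hp with ⟨b, hb, hp⟩ | rfl
  · have hbc : b ∈ Subgroup.closure ({x | x ∈ bs} ∪ {g0}) :=
      Subgroup.subset_closure (Or.inl hb)
    simp only [List.mem_cons, List.not_mem_nil, or_false] at hp
    rcases hp with rfl | rfl | rfl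
    · exact Subgroup.pow_mem _ hbc _
    · exact Subgroup.pow_mem _ hbc _
    · exact Subgroup.pow_mem _ hbc _
  · exact Subgroup.subset_closure (Or.inr rfl)

end lists

/-- the numerical limit -/
lemma tendsto_term (C : ℕ) {M ε : ℝ} (hM : 0 < M) (hε : 0 < ε) :
    Tendsto (fun j : ℕ => M * (((C * WW j ^ C : ℕ) : ℝ) *
      ((1 + M^2)^j * ((5:ℝ)^j * ε^2 / 4) ^ (-(ε / (2*M) * j))))) atTop (𝓝 0) := by
  set c : ℝ := ε / (2*M) with hc
  have hc0 : 0 < c := by positivity
  -- the bracket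
  set K : ℝ := (45:ℝ)^(2*C) * (1 + M^2) * (ε^2/4) ^ (-c) with hK
  have hε4 : 0 < ε^2/4 := by positivity
  have hK0 : 0 < K := by
    have := Real.rpow_pos_of_pos hε4 (-c)
    positivity
  set ρ : ℝ := (5:ℝ)^(-c) with hρ
  have hρ0 : 0 < ρ := Real.rpow_pos_of_pos (by norm_num) _
  have hρ1 : ρ < 1 := Real.rpow_lt_one_of_one_lt_of_neg (by norm_num) (by linarith)
  have hx : Tendsto (fun j : ℕ => K * ((j:ℝ)^(12*C) * ρ^j)) atTop (𝓝 0) := by
    have := (tendsto_pow_const_mul_const_pow_of_lt_one (12*C) hρ0.le hρ1).const_mul K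
    simpa using this
  have hx2 : ∀ᶠ j : ℕ in atTop, K * ((j:ℝ)^(12*C) * ρ^j) ≤ 1/2 :=
    hx.eventually (eventually_le_nhds (by norm_num))
  -- geometric majorant
  have hgeo : Tendsto (fun j : ℕ => M * (C * 2^C) * (1/2:ℝ)^j) atTop (𝓝 0) := by
    have := (tendsto_pow_atTop_nhds_zero_of_lt_one (show (0:ℝ) ≤ 1/2 by norm_num)
      (by norm_num)).const_mul (M * (C * 2^C))
    simpa using this
  refine squeeze_zero' (Eventually.of_forall fun j => ?_) ?_ hgeo
  · have := Real.rpow_nonneg (show 0 ≤ (5:ℝ)^j * ε^2 / 4 by positivity) (-(c * j))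
    positivity
  · filter_upwards [hx2, eventually_ge_atTop 1] with j hj hj1
    have hj0 : (1:ℝ) ≤ j := by exact_mod_cast hj1
    -- W bound
    have hW : ((C * WW j ^ C : ℕ) : ℝ) ≤ C * 2^C * ((45:ℝ)^(2*C) * (j:ℝ)^(12*C))^j := by
      have h1 : 5 * (j^3 + 2*j)^2 ≤ 45 * j^6 := by
        have h2 : j ≤ j^3 := Nat.le_self_pow (by norm_num) j
        have h3 : j^3 + 2*j ≤ 3 * j^3 := by omega
        calc 5 * (j^3 + 2*j)^2 ≤ 5 * (3 * j^3)^2 := by gcongr
          _ = 45 * j^6 := by ring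
      have h2 : WW j ≤ 2 * (45 * j^6)^(2*j) := by
        unfold WW
        gcongr
      have h3 : C * WW j ^ C ≤ C * 2^C * ((45)^(2*C) * j^(12*C))^j := by
        calc C * WW j ^ C ≤ C * (2 * (45 * j^6)^(2*j))^C := by gcongr
          _ = C * 2^C * ((45)^(2*C) * j^(12*C))^j := by
            rw [mul_pow 2 ((45 * j^6)^(2*j)) C, ← mul_assoc]
            congr 1
            rw [← pow_mul, mul_pow, mul_pow, ← pow_mul, ← pow_mul, ← pow_mul]
            congr 2 <;> ring
      exact_mod_cast h3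
    have hrp : ((5:ℝ)^j * ε^2 / 4) ^ (-(c * j)) = ((ε^2/4)^(-c) * ρ^j)^j := by
      have h1 : (5:ℝ)^j * ε^2 / 4 = (5:ℝ)^j * (ε^2/4) := by ring
      rw [h1, Real.mul_rpow (by positivity) hε4.le, mul_pow, mul_comm]
      congr 1
      · rw [← Real.rpow_natCast ((ε^2/4)^(-c)) j, ← Real.rpow_mul hε4.le]
        congr 1
        ring
      · rw [hρ, ← Real.rpow_natCast (5:ℝ) j, ← Real.rpow_mul (by norm_num : (0:ℝ) ≤ 5),
          ← Real.rpow_natCast ((5:ℝ)^(-c)) j, ← Real.rpow_mul (by norm_num : (0:ℝ) ≤ 5),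
          ← Real.rpow_natCast _ j, ← Real.rpow_mul (by norm_num : (0:ℝ) ≤ 5)]
        congr 1
        ring
    rw [hrp]
    have hpos1 : 0 ≤ (1 + M^2)^j * ((ε^2/4)^(-c) * ρ^j)^j := by
      have := Real.rpow_nonneg hε4.le (-c)
      positivity
    calc M * (((C * WW j ^ C : ℕ) : ℝ) * ((1 + M^2)^j * ((ε^2/4)^(-c) * ρ^j)^j))
        ≤ M * ((C * 2^C * ((45:ℝ)^(2*C) * (j:ℝ)^(12*C))^j) *
            ((1 + M^2)^j * ((ε^2/4)^(-c) * ρ^j)^j)) := by
          apply mul_le_mul_of_nonneg_left _ hM.le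
          exact mul_le_mul_of_nonneg_right hW hpos1
      _ = M * (C * 2^C) * (K * ((j:ℝ)^(12*C) * ρ^j))^j := by
          rw [hK]
          simp only [mul_pow]
          ring
      _ ≤ M * (C * 2^C) * (1/2:ℝ)^j := by
          apply mul_le_mul_of_nonneg_left _ (by positivity)
          exact pow_le_pow_left₀ (by positivity) hj j

/-- nilsequences decay along the windows -/
theorem decay_core {E : Type*} [NormedAddCommGroup E] [NormedSpace ℝ E] [FiniteDimensional ℝ E]
    {G : Type u} [TopologicalSpace G] [ChartedSpace E G] [Group G] [LieGroup 𝓘(ℝ, E) 1 G]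
    [T2Space G] [Group.IsNilpotent G] (Γ : Subgroup G) [DiscreteTopology Γ] [CompactSpace (G ⧸ Γ)]
    (F : G ⧸ Γ → ℂ) (hF : Continuous F) (bs : List G) (g0 : G) :
    Tendsto (fun j => lam j fun n => F (QuotientGroup.mk ((bs.map fun x => x ^ n).prod * g0)))
      atTop (𝓝 0) := by
  set N : ℕ → ℂ := fun n => F (QuotientGroup.mk ((bs.map fun x => x ^ n).prod * g0)) with hNdef
  obtain ⟨M0, hM0⟩ := isCompact_univ.exists_bound_of_continuousOn (f := F) hF.continuousOn
  have hM0' : ∀ z, ‖F z‖ ≤ M0 := fun z => hM0 z (Set.mem_univ z)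
  have hM00 : 0 ≤ M0 := (norm_nonneg _).trans (hM0' (QuotientGroup.mk 1))
  rw [Metric.tendsto_atTop]
  intro η hη
  set ε := η / 4 with hε
  have hε0 : 0 < ε := by positivity
  set M := M0 + ε with hM
  have hMpos : 0 < M := by positivity
  obtain ⟨C, hC⟩ := cover_nil (E := E) Γ F hF ({x | x ∈ bs} ∪ {g0})
    ((List.finite_toSet bs).union (Set.finite_singleton g0)) (SH bs.length) ε hε0
  have hterm := tendsto_term C hMpos hε0
  have hlarge : Tendsto (fun j : ℕ => (5:ℝ)^j * ε^2 / 4) atTop atTop := by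
    have h1 : Tendsto (fun j : ℕ => (5:ℝ)^j * (ε^2 / 4)) atTop atTop :=
      (tendsto_pow_atTop_atTop_of_one_lt (by norm_num)).atTop_mul_const (by positivity)
    refine h1.congr fun j => ?_
    ring
  have hev : ∀ᶠ j : ℕ in atTop, ‖lam j N‖ < η := by
    filter_upwards [hterm.eventually (eventually_lt_nhds hε0), hlarge.eventually_ge_atTop 1,
      eventually_ge_atTop 1] with j h1 h2 h3
    obtain ⟨PP, hPP, hcov⟩ := hC (WW j) (WW_pos h3)
    have h4 := lam_le h3 (N := N) hMpos hε0 (fun n => by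
      have := hM0' (QuotientGroup.mk ((bs.map fun x => x ^ n).prod * g0))
      rw [hM]
      simpa [hNdef] using this) h2 PP (by
        intro u
        obtain ⟨p, hp, hpc⟩ := hcov (LL bs (Q (j^3)) (uu j u) g0) (LL_shape _ _ _ _)
          (LL_mem _ _ _ _)
        refine ⟨p, hp, fun i S => ?_⟩
        have h5 := hpc (aa j i) (bb' j S) (aa_le j i) (bb_le j S)
        rw [ev_LL, ← nn_eq] at h5
        exact h5)
    have h5 : M * (PP.card * ((1 + M^2)^j * ((5:ℝ)^j * ε^2 / 4) ^ (-(ε / (2*M) * j)))) ≤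
        M * (((C * WW j ^ C : ℕ) : ℝ) *
          ((1 + M^2)^j * ((5:ℝ)^j * ε^2 / 4) ^ (-(ε / (2*M) * j)))) := by
      apply mul_le_mul_of_nonneg_left _ hMpos.le
      apply mul_le_mul_of_nonneg_right
      · exact_mod_cast hPP
      · have := Real.rpow_nonneg (show 0 ≤ (5:ℝ)^j * ε^2 / 4 by positivity) (-(ε / (2*M) * j))
        positivity
    calc ‖lam j N‖ ≤ _ := h4
      _ < 2 * ε + ε := by linarith
      _ < η := by rw [hε]; linarith
  obtain ⟨j0, hj0⟩ := eventually_atTop.mp hev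
  refine ⟨j0, fun j hj => ?_⟩
  rw [dist_zero_right]
  exact hj0 j hj

end Pool.Agent.Lib.Pb4ed41
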