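import Mathlib
import Pool.Agent.Lib.Pb4ed41.Decay

/-!
# Integral combinations of nilsequences stay far from the correlation sequence
-/

open Filter Topology MeasureTheory

namespace Pool.Agent.Lib.Pb4ed41

lemma lam_CC {r j : ℕ} (hj : 1 ≤ j) :
    ‖lam j (fun n => CC r (fun _ => (n : ℤ))) - 1‖ ≤ 2 * (beta j).toReal := by
  have h0 : (j:ℂ) ≠ 0 := by
    have : j ≠ 0 := by omega
    exact_mod_cast this
  have h1 : (1 : ℂ) = ((j : ℂ) * 5 ^ j * (5 ^ j) ^ j)⁻¹ *
      ∑ u : Fin j → VV j, ∑ i : Fin j, ∑ S : VV j,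
        chi (- dot S (u i)) * chi (dot S (u i)) := by
    have h2 : ∀ (u : Fin j → VV j) (i : Fin j) (S : VV j),
        chi (- dot S (u i)) * chi (dot S (u i)) = 1 := by
      intro u i S
      rw [← AddChar.map_add_eq_mul, neg_add_cancel, AddChar.map_zero_eq_one]
    simp only [h2, Finset.sum_const, Finset.card_univ, Fintype.card_fun, ZMod.card,
      Fintype.card_fin, nsmul_eq_mul, mul_one]
    push_cast
    field_simp
  have h3 : lam j (fun n => CC r (fun _ => (n : ℤ))) - 1 = ((j : ℂ) * 5 ^ j * (5 ^ j) ^ j)⁻¹ *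
      ∑ u : Fin j → VV j, ∑ i : Fin j, ∑ S : VV j,
        (CC r (fun _ => ((nn j i S u : ℕ) : ℤ)) - chi (- dot S (u i))) * chi (dot S (u i)) := by
    conv_lhs => rw [h1]
    unfold lam
    rw [← mul_sub, ← Finset.sum_sub_distrib]
    congr 1
    refine Finset.sum_congr rfl fun u _ => ?_
    rw [← Finset.sum_sub_distrib]
    refine Finset.sum_congr rfl fun i _ => ?_
    rw [← Finset.sum_sub_distrib]
    refine Finset.sum_congr rfl fun S _ => ?_
    ring
  rw [h3, norm_mul, ← lam_const_eq (2 * (beta j).toReal) hj]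
  apply mul_le_mul_of_nonneg_left _ (norm_nonneg _)
  refine (norm_sum_le _ _).trans (Finset.sum_le_sum fun u _ => ?_)
  refine (norm_sum_le _ _).trans (Finset.sum_le_sum fun i _ => ?_)
  refine (norm_sum_le _ _).trans (Finset.sum_le_sum fun S _ => ?_)
  rw [norm_mul, norm_chi, mul_one]
  have h4 := CC_near (r := r) hj (e := dd j i S u) (dd_le j i S u) (fun s hs => dd_low j i S u hs)
  rw [kap_dd] at h4
  exact h4

lemma tendsto_lam_CC (r : ℕ) :
    Tendsto (fun j => lam j (fun n => CC r (fun _ => (n : ℤ)))) atTop (𝓝 1) := by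
  rw [tendsto_iff_norm_sub_tendsto_zero]
  have h1 : Tendsto (fun j => 2 * (beta j).toReal) atTop (𝓝 0) := by
    have h2 : Tendsto (fun j => (beta j).toReal) atTop (𝓝 0) := by
      have := (ENNReal.tendsto_toReal ENNReal.zero_ne_top).comp tendsto_beta
      simpa [Function.comp_def] using this
    simpa using h2.const_mul 2
  refine squeeze_zero' (Eventually.of_forall fun j => norm_nonneg _) ?_ h1
  filter_upwards [eventually_ge_atTop 1] with j hj
  exact lam_CC hj

section vector

variable {Y : Type*} [MeasurableSpace Y]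

/-- integral against a complex measure -/
noncomputable def cI (σ : ComplexMeasure Y) (f : Y → ℂ) : ℂ :=
  σ.integral f (ContinuousLinearMap.mul ℝ ℂ)

lemma cI_smul (σ : ComplexMeasure Y) (c : ℂ) (f : Y → ℂ) :
    cI σ (fun y => c * f y) = c * cI σ f := by
  unfold cI VectorMeasure.integral
  have h := setToFun_smul (μ := σ.variation)
    (dominatedFinMeasAdditive_cbmApplyMeasure σ (ContinuousLinearMap.mul ℝ ℂ)) (𝕜 := ℂ) (by
      intro c s x
      show (ContinuousLinearMap.mul ℝ ℂ (c • x)) (σ s) = c • (ContinuousLinearMap.mul ℝ ℂ x) (σ s)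
      simp [mul_assoc]) c f
  exact h

lemma cI_sum {ι : Type*} (σ : ComplexMeasure Y) (s : Finset ι) (f : ι → Y → ℂ)
    (hf : ∀ i ∈ s, Integrable (f i) σ.variation) :
    cI σ (fun y => ∑ i ∈ s, f i y) = ∑ i ∈ s, cI σ (f i) := by
  unfold cI
  exact VectorMeasure.integral_finsetSum (μ := σ) (B := ContinuousLinearMap.mul ℝ ℂ) s hf

/-- the test functional commutes with the integral -/
lemma lam_cI (σ : ComplexMeasure Y) (j : ℕ) (N : Y → ℕ → ℂ)
    (hN : ∀ n, Integrable (fun y => N y n) σ.variation) :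
    lam j (fun n => cI σ fun y => N y n) = cI σ fun y => lam j (N y) := by
  unfold lam
  rw [cI_smul]
  congr 1
  have hint : ∀ (u : Fin j → VV j) (i : Fin j) (S : VV j),
      Integrable (fun y => N y (nn j i S u) * chi (dot S (u i))) σ.variation :=
    fun u i S => (hN _).mul_const _
  rw [cI_sum _ _ _ fun u _ => integrable_finsetSum _ fun i _ => integrable_finsetSum _
    fun S _ => hint u i S]
  refine Finset.sum_congr rfl fun u _ => ?_
  rw [cI_sum _ _ _ fun i _ => integrable_finsetSum _ fun S _ => hint u i S]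
  refine Finset.sum_congr rfl fun i _ => ?_
  rw [cI_sum _ _ _ fun S _ => hint u i S]
  refine Finset.sum_congr rfl fun S _ => ?_
  have h1 : (fun y => N y (nn j i S u) * chi (dot S (u i))) =
      fun y => chi (dot S (u i)) * N y (nn j i S u) := by
    funext y
    ring
  rw [h1, cI_smul, mul_comm]

/-- dominated convergence for the test functionals -/
lemma tendsto_lam_cI (σ : ComplexMeasure Y) (N : Y → ℕ → ℂ) (b : Y → ℝ)
    (hm : ∀ n, AEStronglyMeasurable (fun y => N y n) σ.variation)
    (hb : Integrable b σ.variation) (hNb : ∀ y n, ‖N y n‖ ≤ b y)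
    (hlim : ∀ y, Tendsto (fun j => lam j (N y)) atTop (𝓝 0)) :
    Tendsto (fun j => lam j (fun n => cI σ fun y => N y n)) atTop (𝓝 0) := by
  have hN : ∀ n, Integrable (fun y => N y n) σ.variation := fun n =>
    hb.mono' (hm n) (ae_of_all _ fun y => hNb y n)
  have hmeas : ∀ j, AEStronglyMeasurable (fun y => lam j (N y)) σ.variation := by
    intro j
    unfold lam
    apply AEStronglyMeasurable.const_mul
    refine Finset.aestronglyMeasurable_fun_sum _ fun u _ => ?_
    refine Finset.aestronglyMeasurable_fun_sum _ fun i _ => ?_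
    refine Finset.aestronglyMeasurable_fun_sum _ fun S _ => ?_
    exact (hm _).mul_const _
  have h0 : cI σ (fun _ : Y => (0:ℂ)) = 0 := by
    have := cI_smul σ 0 (fun _ => 0)
    simpa using this
  have hbd : ∀ᶠ j in atTop, ∀ᵐ y ∂σ.variation, ‖lam j (N y)‖ ≤ b y := by
    filter_upwards [eventually_ge_atTop 1] with j hj
    exact ae_of_all _ fun y => norm_lam_le hj (hNb y)
  have hlm : ∀ᵐ y ∂σ.variation, Tendsto (fun j => lam j (N y)) atTop (𝓝 ((fun _ => (0:ℂ)) y)) :=
    ae_of_all _ hlim
  have h := VectorMeasure.tendsto_integral_filter_of_dominated_convergence (μ := σ)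
    (B := ContinuousLinearMap.mul ℝ ℂ) b (Eventually.of_forall hmeas) hbd hb hlm
  have h2 : Tendsto (fun j => cI σ fun y => lam j (N y)) atTop (𝓝 0) := by
    rw [← h0]
    exact h
  refine h2.congr fun j => ?_
  rw [lam_cI σ j N hN]

end vector

end Pool.Agent.Lib.Pb4ed41
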